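import Pool.Agent.Helper13.RM.Defs

/-!
# Moduli spaces of planar configurations of points: definitions
-/

set_option autoImplicit false

open CategoryTheory AlgebraicGeometry Pool.Agent.Y116.UV

namespace Pool.Agent.Helper13.RM

/-- The property `P` of schemes of finite type over `R` is true for the empty scheme, invariant under
isomorphisms, and true for `X` if it is true for a closed subscheme `Z` of `X` and for its open
complement `U`. -/
structure Cut {R : Type} [CommRing R] (sep : Prop) (P : Sch R → Prop) : Prop where
  iso : ∀ {X Y : Sch R}, FT sep X → Nonempty (X ≅ Y) → P X → P Y
  empty : ∀ X : Sch R, IsEmpty X.left → P X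
  total : ∀ {Z X U : Sch R} (i : Z ⟶ X) (j : U ⟶ X), FT sep X → IsTriple i j → P Z → P U → P X

/-- Any two elements of the matroid are independent: there are no loops and no parallel elements. -/
def IsSimple {α : Type} (M : Matroid α) : Prop := ∀ e f : α, e ≠ f → M.Indep {e, f}

open Classical in
/-- The index of the last coordinate that is not zero, of the vector of the element `x`; it is read off
from the set `T` of the bases: the last coordinate is the determinant of `e_1, e_2, v_x`, the one before
is up to the sign the determinant of `e_1, e_3, v_x`. -/
noncomputable def lastX {κ : Type} (T : Set (Trip κ)) (x : Fin 4 ⊕ κ) : Fin 3 :=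
  if (Sum.inl 0, Sum.inl 1, x) ∈ T then 2 else if (Sum.inl 0, Sum.inl 2, x) ∈ T then 1 else 0

/-- The equations of the normalised vectors `v_k`: the determinants of the triples outside of `T` are
zero, and the last coordinate of `v_k` that is not zero is `1`. -/
noncomputable abbrev modI (R : Type) [CommRing R] {n : ℕ} (T : Set (Trip (Fin n))) :
    Ideal (MvPolynomial (Fin n × Fin 3) R) :=
  Ideal.span (Set.range (Sum.elim (fun t : (Tᶜ : Set (Trip (Fin n))) => dt (gen R n) t.1)
    fun k => gen R n k (lastX T (Sum.inr k)) - 1))

/-- The ring of the families of normalised vectors with these equations. -/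
noncomputable abbrev ModQ (R : Type) [CommRing R] {n : ℕ} (T : Set (Trip (Fin n))) : Type :=
  MvPolynomial (Fin n × Fin 3) R ⧸ modI R T

/-- The image of the product of the determinants of the triples in `T`. -/
noncomputable abbrev modD (R : Type) [CommRing R] {n : ℕ} (T : Set (Trip (Fin n))) : ModQ R T :=
  Ideal.Quotient.mk _ (prodT R T)

/-- The affine scheme of the families of normalised vectors for which the determinants of the triples in
`T` are invertible, and the other ones are zero. -/
noncomputable def modT (R : Type) [CommRing R] {n : ℕ} (T : Set (Trip (Fin n))) : Sch R :=
  aff R (Localization.Away (modD R T))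

/-- The moduli space of the configurations of points in the projective plane with the matroid `M` of
rank three over `R`: the affine scheme of the normalised vectors `v_k` for which three vectors of the
family `e_1, e_2, e_3, e_1 + e_2 + e_3, v_k` have an invertible determinant if they form a base of `M`,
and the determinant zero otherwise. -/
noncomputable def modS (R : Type) [CommRing R] {n : ℕ} (M : Matroid (Fin 4 ⊕ Fin n)) : Sch R :=
  modT R {t | M.IsBase (elts t)}

end Pool.Agent.Helper13.RM
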