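import Pool.Graph.R_pool_sql_team_seeded_2aa45f1a.Q193.LT.Defs
import Pool.Graph.R_seed8.Q193.LT.Pair
import Pool.Agent.Helper3.GU.TDefs

/-!
# Theories with long exact sequences of closed-open pairs: definitions
-/

set_option autoImplicit false

open CategoryTheory AlgebraicGeometry Pool.Agent.Y116.UV Pool.Agent.Q193.LT Pool.Agent.Helper3.GU

universe w w'

namespace Pool.Agent.Helper13.RM

/-- Isomorphism invariance, and long exact sequences for a closed subscheme `Z` of `X` and its complement
`U` (covariant or contravariant), for two theories and the comparison map between them. -/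
structure IsLong {R : Type} [CommRing R] {ι : Type} {E : Type w'} [CommRing E]
    (C : PairData.{w} R ι E) (δ : ι ≃ ι) : Prop where
  iso : ∀ {X Y : Sch R}, FT True X → Nonempty (X ≅ Y) → ∀ j, SameAt C j X j Y
  les : ∀ {Z X U : Sch R} (i : Z ⟶ X) (j : U ⟶ X), FT True X → IsTriple i j →
    LesPair C δ U X Z ∨ LesPair C δ Z X U

/-- The same for one theory. -/
structure IsLongOne {R : Type} [CommRing R] {ι : Type} {E : Type w'} [CommRing E]
    (N : ι → Sch R → ModuleCat.{w} E) (δ : ι ≃ ι) : Prop where
  iso : ∀ {X Y : Sch R}, FT True X → Nonempty (X ≅ Y) → ∀ j, Nonempty (N j X ≅ N j Y)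
  les : ∀ {Z X U : Sch R} (i : Z ⟶ X) (j : U ⟶ X), FT True X → IsTriple i j →
    (∃ m : LesMaps N δ U X Z, m.IsExact) ∨ (∃ m : LesMaps N δ Z X U, m.IsExact)

/-- The dimension of `X` is at most `d`. -/
def DimAt {R : Type} [CommRing R] (X : Sch R) (d : ℕ) : Prop := topologicalKrullDim X.left ≤ d

/-- Smooth projective schemes generate, in each dimension: if all `N_j(Y)` are finitely generated for all
smooth projective schemes of dimension at most `d` then they are finitely generated for all separated
schemes of finite type and of dimension at most `d`. -/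
def FinGenDim {k : Type} [Field k] {ι : Type} {E : Type w'} [CommRing E]
    (N : ι → Sch k → ModuleCat.{w} E) : Prop :=
  ∀ d : ℕ, (∀ Y : Sch k, SmoothProj Y → DimAt Y d → FinGen N Y) →
    ∀ X : Sch k, FT True X → DimAt X d → FinGen N X

/-- The same for the bijectivity of the comparison maps. -/
def BijDim {k : Type} [Field k] {ι : Type} {E : Type w'} [CommRing E]
    (C : PairData.{w} k ι E) : Prop :=
  ∀ d : ℕ, (∀ Y : Sch k, SmoothProj Y → DimAt Y d → BijAll C Y) →
    ∀ X : Sch k, FT True X → DimAt X d → BijAll C X

end Pool.Agent.Helper13.RM
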