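import Pool.Agent.Helper13.RM.Dim
import Pool.Agent.Helper13.RM.TDefs
import Pool.Agent.Helper3.GU.One

/-!
# Moduli spaces of planar configurations: comparison maps and finite generation
-/

set_option autoImplicit false

open CategoryTheory AlgebraicGeometry Pool.Agent.Y116.UV Pool.Agent.Z125.UN Pool.Agent.Q193.LT
  Pool.Agent.Q282.UK Pool.Agent.Helper3.GU

universe v w w1 w2 w'

namespace Pool.Agent.Helper13.RM

section

variable {R : Type} [CommRing R] {ι : Type} {E : Type w'} [CommRing E]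

/-- Bijectivity of the comparison maps. -/
theorem cut_pair {C : PairData.{w} R ι E} {δ : ι ≃ ι} (hC : IsLong C δ)
    (h1 : BijAll C (aff R R)) : Cut True (BijAll C) :=
  have hi : ∀ {X Y : Sch R}, FT True X → Nonempty (X ≅ Y) → BijAll C X → BijAll C Y :=
    fun hX e h j => (hC.iso hX e j).iff.mp (h j)
  { iso := hi
    empty := empty_of_opened hi (fun i j hX ht hZ hX' => by
      rcases hC.les i j hX ht with h | h
      · exact h.left hX' hZ
      · exact h.right hZ hX') h1
    total := fun i j hX ht hZ hU => by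
      rcases hC.les i j hX ht with h | h
      · exact h.mid hU hZ
      · exact h.mid hZ hU }

/-- Finite generation. -/
theorem cut_finGen [IsNoetherianRing E] {N : ι → Sch R → ModuleCat.{w} E} {δ : ι ≃ ι}
    (hN : IsLongOne N δ) (h1 : FinGen N (aff R R)) : Cut True (FinGen N) := by
  have hL : ∀ {X Y Z : Sch R} {m : LesMaps N δ X Y Z}, m.IsExact → FinGen N X → FinGen N Z →
      FinGen N Y := fun hm hX hZ j => finite_mid _ _ (hm.fg j) (hX j) (hZ j)
  have hR : ∀ {X Y Z : Sch R} {m : LesMaps N δ X Y Z}, m.IsExact → FinGen N X → FinGen N Y →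
      FinGen N Z := fun hm hX hY j => finite_mid _ _ (hm.gh j) (hY j) (hX (δ j))
  have hA : ∀ {X Y Z : Sch R} {m : LesMaps N δ X Y Z}, m.IsExact → FinGen N Y → FinGen N Z →
      FinGen N X := fun hm hY hZ j => by
    obtain ⟨j, rfl⟩ := δ.surjective j
    exact finite_mid _ _ (hm.hf j) (hZ j) (hY _)
  have hi : ∀ {X Y : Sch R}, FT True X → Nonempty (X ≅ Y) → FinGen N X → FinGen N Y :=
    fun hX e h j => finite_iso (hN.iso hX e j) (h j)
  exact
  { iso := hi
    empty := empty_of_opened hi (fun i j hX ht hZ hX' => by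
      rcases hN.les i j hX ht with ⟨m, h⟩ | ⟨m, h⟩
      · exact hA h hX' hZ
      · exact hR h hZ hX') h1
    total := fun i j hX ht hZ hU => by
      rcases hN.les i j hX ht with ⟨m, h⟩ | ⟨m, h⟩
      · exact hL h hU hZ
      · exact hL h hZ hU }

theorem cut_and {sep : Prop} {P Q : Sch R → Prop} (hP : Cut sep P) (hQ : Cut sep Q) :
    Cut sep fun X => P X ∧ Q X where
  iso hX e h := ⟨hP.iso hX e h.1, hQ.iso hX e h.2⟩
  empty X hX := ⟨hP.empty X hX, hQ.empty X hX⟩
  total i j hX ht hZ hU := ⟨hP.total i j hX ht hZ.1 hU.1, hQ.total i j hX ht hZ.2 hU.2⟩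

end

/-! ### The dimension of the moduli spaces -/

section

variable {k : Type} [Field k]

lemma dim_modT {n : ℕ} (T : Set (Trip (Fin n))) : DimAt (modT k T) (3 * n) := by
  have h1 : topologicalKrullDim (PrimeSpectrum (Localization.Away (modD k T))) ≤
      topologicalKrullDim (PrimeSpectrum (ModQ k T)) :=
    (PrimeSpectrum.localization_away_isOpenEmbedding (Localization.Away (modD k T))
      (modD k T)).isInducing.topologicalKrullDim_le
  have h2 : topologicalKrullDim (PrimeSpectrum (ModQ k T)) ≤ (3 * n : ℕ) := by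
    rw [PrimeSpectrum.topologicalKrullDim_eq_ringKrullDim]
    refine (ringKrullDim_quotient_le _).trans ?_
    rw [MvPolynomial.ringKrullDim_of_isNoetherianRing, ringKrullDim_eq_zero_of_field, zero_add]
    have h3 : Nat.card (Fin n × Fin 3) = 3 * n := by
      rw [Nat.card_prod, Nat.card_fin, Nat.card_fin, mul_comm]
    rw [h3]
  exact h1.trans h2

end

/-- **Comparison maps and finite generation, in each dimension.** -/
theorem config_fin {k : Type} [Field k] (hk : Frac k) {ι ι' : Type} {E : Type v} [CommRing E]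
    {E' : Type w1} [CommRing E'] [IsNoetherianRing E'] {C : PairData.{w} k ι E}
    {N : ι' → Sch k → ModuleCat.{w2} E'} {δ : ι ≃ ι} {δ' : ι' ≃ ι'}
    (hC : IsLong C δ) (gC : BijDim C) (pC : BijAll C (aff k k))
    (hN : IsLongOne N δ') (gN : FinGenDim N) (pN : FinGen N (aff k k)) :
    (∀ d : ℕ, List.TFAE [∀ Y : Sch k, SmoothProj Y → DimAt Y d → FinGen N Y ∧ BijAll C Y,
      ∀ X : Sch k, FT True X → DimAt X d → FinGen N X ∧ BijAll C X,
      ∀ (n : ℕ) (M : Matroid (Fin 4 ⊕ Fin n)), Framed M → IsSimple M → DimAt (modS k M) d →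
        FinGen N (modS k M) ∧ BijAll C (modS k M)]) ∧
    List.TFAE [∀ Y : Sch k, SmoothProj Y → FinGen N Y ∧ BijAll C Y,
      ∀ X : Sch k, FT True X → FinGen N X ∧ BijAll C X,
      ∀ (n : ℕ) (M : Matroid (Fin 4 ⊕ Fin n)), Framed M → IsSimple M →
        FinGen N (modS k M) ∧ BijAll C (modS k M)] := by
  have hP := cut_and (cut_finGen hN pN) (cut_pair hC pC)
  have hR := presents_frac hk
  have h1 : ∀ d : ℕ, (∀ Y : Sch k, SmoothProj Y → DimAt Y d → FinGen N Y ∧ BijAll C Y) →
      ∀ X : Sch k, FT True X → DimAt X d → FinGen N X ∧ BijAll C X := fun d h X hX hd =>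
    ⟨gN d (fun Y hY hd => (h Y hY hd).1) X hX hd, gC d (fun Y hY hd => (h Y hY hd).2) X hX hd⟩
  constructor
  · intro d
    tfae_have 1 → 2 := h1 d
    tfae_have 2 → 1 := fun h Y hY hd => h Y hY.ft hd
    tfae_have 2 ↔ 3 := config_dim hP hR d
    tfae_finish
  · tfae_have 2 → 1 := fun h Y hY => h Y hY.ft
    tfae_have 2 ↔ 3 := config_iff hP hR
    tfae_have 1 → 3 := fun h n M _ _ =>
      h1 (3 * n) (fun Y hY _ => h Y hY) (modS k M) (ft_modT _) (dim_modT _)
    tfae_finish

end Pool.Agent.Helper13.RM
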