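import Pool.Agent.Helper13.RM.Piece

/-!
# Finitely many smooth moduli spaces for each scheme
-/

set_option autoImplicit false

open CategoryTheory AlgebraicGeometry Pool.Agent.Y116.UV Pool.Agent.Q282.UK Pool.Agent.Helper3.GU

namespace Pool.Agent.Helper13.RM

/-- `M` is a simple matroid of rank three with the frame `e_1, e_2, e_3, e_1 + e_2 + e_3`, and its moduli
space over the field `k` is an integral smooth affine scheme of dimension at most `d`. -/
structure SmoothMod (k : Type) [Field k] (d : WithBot ℕ∞) {n : ℕ} (M : Matroid (Fin 4 ⊕ Fin n)) :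
    Prop where
  framed : Framed M
  simple : IsSimple M
  domain : IsDomain (ModR k M)
  smooth : Algebra.Smooth k (ModR k M)
  dim : topologicalKrullDim (modS k M).left ≤ d

/-- `M` is a simple matroid of rank three with the frame `e_1, e_2, e_3, e_1 + e_2 + e_3`, and its moduli
space over `ℤ` is an integral affine scheme of dimension at most `d` which is smooth over `ℤ` or over a
prime field. -/
structure SmoothModZ (d : WithBot ℕ∞) {n : ℕ} (M : Matroid (Fin 4 ⊕ Fin n)) : Prop where
  framed : Framed M
  simple : IsSimple M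
  domain : IsDomain (ModR ℤ M)
  smooth : SmoothZ (ModR ℤ M)
  dim : topologicalKrullDim (modS ℤ M).left ≤ d

/-- Matroids with the ground set `0, …, n + 3`. -/
abbrev Mat : Type := Σ n : ℕ, Matroid (Fin 4 ⊕ Fin n)

section

variable {R : Type} [CommRing R] {sep : Prop}

/-- The schemes that are decided by finitely many of the moduli spaces with the property `C`. -/
def MStar (R : Type) [CommRing R] (sep : Prop) (C : Mat → Prop) (X : Sch R) : Prop :=
  ∃ L : List Mat, (∀ M ∈ L, C M) ∧
    ∀ P : Sch R → Prop, Cut sep P → (∀ M ∈ L, P (modS R M.2)) → P X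

variable {C : Mat → Prop}

theorem cut_star : Cut sep (MStar R sep C) where
  iso hX e h := by
    obtain ⟨L, hL, h⟩ := h
    exact ⟨L, hL, fun P hP hM => hP.iso hX e (h P hP hM)⟩
  empty X hX := ⟨[], fun M hM => absurd hM (by simp), fun P hP _ => hP.empty X hX⟩
  total i j hX ht hZ hU := by
    obtain ⟨L1, hL1, h1⟩ := hZ
    obtain ⟨L2, hL2, h2⟩ := hU
    refine ⟨L1 ++ L2, fun M hM => ?_, fun P hP hM => hP.total i j hX ht
      (h1 P hP fun M h => hM M (List.mem_append.2 (Or.inl h)))
      (h2 P hP fun M h => hM M (List.mem_append.2 (Or.inr h)))⟩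
    rcases List.mem_append.1 hM with h | h
    · exact hL1 M h
    · exact hL2 M h

lemma star_self {n : ℕ} {M : Matroid (Fin 4 ⊕ Fin n)} (h : C ⟨n, M⟩) : MStar R sep C (modS R M) :=
  ⟨[⟨n, M⟩], fun M' h' => by rw [List.mem_singleton.1 h']; exact h,
    fun _ _ h' => h' ⟨n, M⟩ (List.mem_singleton.2 rfl)⟩

end

section

variable {k : Type} [Field k] [PerfectField k] {sep : Prop}

/-- **Finitely many smooth moduli spaces.** For each scheme `X` of finite type over `ℚ` or `𝔽_p` there is
a finite list of simple matroids of rank three, such that their moduli spaces are smooth, integral and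
not of larger dimension, and such that each property that is closed under cutting is true for `X` if it
is true for the moduli spaces in the list. -/
theorem config_list (hR : Presents ({0, 1} : Set k)) (X : Sch k) (hX : FT sep X) :
    ∃ L : List Mat, (∀ M ∈ L, SmoothMod k (topologicalKrullDim X.left) M.2) ∧
      ∀ P : Sch k → Prop, Cut sep P → (∀ M ∈ L, P (modS k M.2)) → P X := by
  refine config_smooth (cut_dim (cut_star (R := k) (sep := sep)
    (C := fun M => SmoothMod k (topologicalKrullDim X.left) M.2)) _) hR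
    (fun n M h1 h2 h3 h4 h5 => ?_) X hX le_rfl
  exact star_self ⟨h1, h2, h3, h4, h5⟩

/-- Schemes and smooth moduli spaces of planar configurations of dimension at most `d`. -/
theorem config_iff_smooth {P : Sch k → Prop} (hP : Cut sep P) (hR : Presents ({0, 1} : Set k))
    (d : WithBot ℕ∞) : (∀ X : Sch k, FT sep X → topologicalKrullDim X.left ≤ d → P X) ↔
      ∀ (n : ℕ) (M : Matroid (Fin 4 ⊕ Fin n)), SmoothMod k d M → P (modS k M) :=
  ⟨fun h _ _ hM => h _ (ft_modT _) hM.dim, fun h X hX => config_smooth (cut_dim hP d) hR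
    (fun n M h1 h2 h3 h4 h5 => h n M ⟨h1, h2, h3, h4, h5⟩) X hX⟩

end

section

variable {sep : Prop}

/-- The version over the integers. -/
theorem config_listZ (X : Sch ℤ) (hX : FT sep X) :
    ∃ L : List Mat, (∀ M ∈ L, SmoothModZ (topologicalKrullDim X.left) M.2) ∧
      ∀ P : Sch ℤ → Prop, Cut sep P → (∀ M ∈ L, P (modS ℤ M.2)) → P X := by
  refine config_smoothZ (cut_dim (cut_star (R := ℤ) (sep := sep)
    (C := fun M => SmoothModZ (topologicalKrullDim X.left) M.2)) _)
    (fun n M h1 h2 h3 h4 h5 => ?_) X hX le_rfl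
  exact star_self ⟨h1, h2, h3, h4, h5⟩

/-- The version over the integers. -/
theorem config_iff_smoothZ {P : Sch ℤ → Prop} (hP : Cut sep P)
    (d : WithBot ℕ∞) : (∀ X : Sch ℤ, FT sep X → topologicalKrullDim X.left ≤ d → P X) ↔
      ∀ (n : ℕ) (M : Matroid (Fin 4 ⊕ Fin n)), SmoothModZ d M → P (modS ℤ M) :=
  ⟨fun h _ _ hM => h _ (ft_modT _) hM.dim, fun h X hX => config_smoothZ (cut_dim hP d)
    (fun n M h1 h2 h3 h4 h5 => h n M ⟨h1, h2, h3, h4, h5⟩) X hX⟩

end

end Pool.Agent.Helper13.RM
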