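import Pool.Agent.Helper13.RM.Dim
import Pool.Graph.R_seed8.Z125.UN.Dim2

/-!
# Cutting arithmetic schemes into smooth pieces
-/

set_option autoImplicit false

open CategoryTheory AlgebraicGeometry Pool.Agent.Y116.UV Pool.Agent.Q282.UK Pool.Agent.Helper3.GU

namespace Pool.Agent.Helper13.RM

/-- The ring `A` is smooth over `ℤ` or over a prime field `𝔽_p`. -/
def SmoothZ (A : Type) [CommRing A] : Prop :=
  (∃ _ : Algebra ℤ A, Algebra.Smooth ℤ A) ∨
    ∃ (p : ℕ) (_ : Fact p.Prime) (_ : Algebra (ZMod p) A), Algebra.Smooth (ZMod p) A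

section

variable {sep : Prop} {P : Sch ℤ → Prop}

/-- The homomorphisms from the ring `A`. -/
def homPF (A : Type) [CommRing A] : PF where
  pts C _ := A →+* C
  map f p := f.comp p
  map_id p := RingHom.id_comp p
  map_comp f g p := RingHom.comp_assoc p f g

variable {A : Type} [CommRing A]

/-- a point as a homomorphism -/
def toHom {C : Type} [CommRing C] (p : (homPF A).pts C) : A →+* C := p

lemma toHom_map {C D : Type} [CommRing C] [CommRing D] (g : C →+* D) (p : (homPF A).pts C) (x : A) :
    toHom ((homPF A).map g p) x = g (toHom p x) := rfl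

lemma rep_homPF [Algebra ℤ A] : IsRep ℤ (homPF A) A (RingHom.id A) := by
  intro C _ _ p
  refine ⟨{ toHom p with commutes' := fun n => ?_ }, ?_, ?_⟩
  · change toHom p (algebraMap ℤ A n) = algebraMap ℤ C n
    rw [eq_intCast, eq_intCast, map_intCast]
  · exact RingHom.comp_id _
  · intro ψ hψ
    apply AlgHom.ext
    intro x
    exact congrFun (congrArg (fun f : A →+* C => (f : A → C)) hψ) x

/-- the element as a function -/
def elF (w : A) : NF (homPF A) := ⟨fun p => toHom p w, fun _ _ => rfl⟩

/-- The homomorphisms from `A` that vanish on `I` and such that the image of `f` is invertible. -/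
def locF (I : Ideal A) (f : A) : PF :=
  (homPF A).sub (fun p => (∀ x ∈ I, toHom p x = 0) ∧ IsUnit (toHom p f)) (fun g p h =>
    ⟨fun x hx => by rw [toHom_map, h.1 x hx, map_zero], h.2.map g⟩)

/-- by zeros and one unit -/
def locIso (I : Ideal A) (f : A) :
    PIso (((homPF A).zeros fun x : I => elF x.1).unit
      ((elF f).res _ fun g p h k => by rw [NF.nat, h k, map_zero])) (locF I f) where
  fwd p := ⟨p.1.1, fun x hx => p.1.2 ⟨x, hx⟩, p.2⟩
  bwd q := ⟨⟨q.1, fun x => q.2.1 x.1 x.2⟩, q.2.2⟩
  left _ := rfl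
  right _ := rfl
  nat _ _ := rfl

lemma hasRep_homPF [Algebra ℤ A] [Algebra.FiniteType ℤ A] : HasRep ℤ (homPF A) :=
  ⟨A, inferInstance, inferInstance, inferInstance, _, rep_homPF⟩

lemma hasRep_locF [Algebra ℤ A] [Algebra.FiniteType ℤ A] (I : Ideal A) (f : A) :
    HasRep ℤ (locF I f) :=
  ((hasRep_homPF.zeros _).unit _).congr (locIso I f)

lemma rep_locF [Algebra ℤ A] (I : Ideal A) (f : A) :
    ∃ b, IsRep ℤ (locF I f) (Localization.Away (Ideal.Quotient.mk I f)) b := by
  have h1 := (rep_homPF (A := A)).zeros fun x : I => elF x.1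
  have h0 : Set.range (fun x : I => ((elF x.1).fn (RingHom.id A) : A)) = (I : Set A) := by
    ext x
    constructor
    · rintro ⟨y, rfl⟩
      exact y.2
    · exact fun hx => ⟨⟨x, hx⟩, rfl⟩
  obtain ⟨b, hb, hb2⟩ : ∃ b, IsRep ℤ ((homPF A).zeros fun x : I => elF x.1) (A ⧸ I) b ∧
      toHom b.1 = Ideal.Quotient.mk I := by
    have h2 : I = Ideal.span (Set.range (fun x : I => ((elF x.1).fn (RingHom.id A) : A))) := by
      rw [h0, Ideal.span_eq]
    have h3 : ∀ J : Ideal A, J = Ideal.span (Set.range
        (fun x : I => ((elF x.1).fn (RingHom.id A) : A))) →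
        ∃ b, IsRep ℤ ((homPF A).zeros fun x : I => elF x.1) (A ⧸ J) b ∧
          toHom b.1 = Ideal.Quotient.mk J := by
      rintro J rfl
      exact ⟨_, h1, RingHom.comp_id _⟩
    exact h3 I h2
  have h2 := hb.unit ((elF f).res _ fun g p h k => by rw [NF.nat, h k, map_zero])
    (w := Ideal.Quotient.mk I f) (by
      change toHom b.1 f = _
      rw [hb2])
  exact ⟨_, h2.congr (locIso I f)⟩

/-- an element as a function -/
def elL (I : Ideal A) (f w : A) : NF (locF I f) := ⟨fun p => toHom p.1 w, fun _ _ => rfl⟩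

/-- One more zero. -/
def locZero (I : Ideal A) (f w : A) :
    PIso ((locF I f).zero (elL I f w)) (locF (I ⊔ Ideal.span {w}) f) where
  fwd p := ⟨p.1.1, fun x hx => by
    have h1 : I ⊔ Ideal.span {w} ≤ RingHom.ker (toHom p.1.1) := by
      refine sup_le (fun y hy => p.1.2.1 y hy) ?_
      rw [Ideal.span_le, Set.singleton_subset_iff]
      exact p.2
    exact h1 hx, p.1.2.2⟩
  bwd q := ⟨⟨q.1, fun x hx => q.2.1 x (Ideal.mem_sup_left hx), q.2.2⟩,
    q.2.1 w (Ideal.mem_sup_right (Ideal.mem_span_singleton_self w))⟩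
  left _ := rfl
  right _ := rfl
  nat _ _ := rfl

/-- One more unit. -/
def locUnit (I : Ideal A) (f w : A) :
    PIso ((locF I f).unit (elL I f w)) (locF I (w * f)) where
  fwd p := ⟨p.1.1, p.1.2.1, by
    rw [map_mul]
    exact IsUnit.mul p.2 p.1.2.2⟩
  bwd q := ⟨⟨q.1, q.2.1, by
    have h := q.2.2
    rw [map_mul] at h
    exact isUnit_of_mul_isUnit_right h⟩, by
    have h := q.2.2
    rw [map_mul] at h
    exact isUnit_of_mul_isUnit_left h⟩
  left _ := rfl
  right _ := rfl
  nat _ _ := rfl

lemma loc_total [Algebra ℤ A] [Algebra.FiniteType ℤ A] (hP : Cut sep P) {I : Ideal A} {f : A}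
    (w : A) (h0 : Holds P (locF (I ⊔ Ideal.span {w}) f)) (h1 : Holds P (locF I (w * f))) :
    Holds P (locF I f) :=
  totalC hP (hasRep_locF I f) (elL I f w) (h0.congr (locZero I f w).symm)
    (h1.congr (locUnit I f w).symm)

/-- **Noetherian induction.** -/
theorem noethC [Algebra ℤ A] [Algebra.FiniteType ℤ A] (hP : Cut sep P)
    (h : ∀ I : Ideal A, I.IsPrime → ∃ w ∉ I, ∀ f, Holds P (locF I (w * f))) (I : Ideal A) :
    ∀ f, Holds P (locF I f) := by
  have hN : IsNoetherianRing A := Algebra.FiniteType.isNoetherianRing ℤ A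
  induction I using IsNoetherian.induction with
  | _ I ih =>
    intro f
    by_cases hI : I = ⊤
    · refine emptyC hP (hasRep_locF I f) ?_
      rintro C _ ⟨p⟩
      have h1 := p.2.1 1 (by rw [hI]; trivial)
      rw [map_one] at h1
      exact subsingleton_of_zero_eq_one h1.symm
    by_cases hp : Ideal.IsPrime I
    · obtain ⟨w, hw, hw2⟩ := h I hp
      refine loc_total hP w (ih _ ?_ f) (hw2 f)
      exact left_lt_sup.2 fun h2 => hw (h2 (Ideal.mem_span_singleton_self w))
    · rw [Ideal.isPrime_iff] at hp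
      push Not at hp
      obtain ⟨a, b, hab, ha, hb⟩ := hp hI
      refine loc_total hP a (ih _ ?_ f) ?_
      · exact left_lt_sup.2 fun h2 => ha (h2 (Ideal.mem_span_singleton_self a))
      refine loc_total hP b (ih _ ?_ (a * f)) ?_
      · exact left_lt_sup.2 fun h2 => hb (h2 (Ideal.mem_span_singleton_self b))
      · refine emptyC hP (hasRep_locF I _) ?_
        rintro C _ ⟨p⟩
        have h1 : IsUnit (toHom p.1 (b * (a * f))) := p.2.2
        have h2 : toHom p.1 (b * (a * f)) = 0 := p.2.1 _ (by
          have : b * (a * f) = (a * b) * f := by ring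
          rw [this]
          exact Ideal.mul_mem_right f I hab)
        rw [h2] at h1
        exact subsingleton_of_zero_eq_one (isUnit_zero_iff.mp h1)

/-- from the generic point to an open subset -/
lemma smooth_spread (k B K : Type) [CommRing k] [IsNoetherianRing k] [CommRing B] [IsDomain B]
    [Algebra k B] [Algebra.FiniteType k B] [Field K] [Algebra B K] [IsFractionRing B K]
    [Algebra k K] [IsScalarTower k B K] [Algebra.FormallySmooth k K] :
    ∃ w : B, w ≠ 0 ∧ ∀ f : B, Algebra.Smooth k (Localization.Away (w * f)) := by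
  have h2 : (⊥ : Ideal B).IsPrime := Ideal.isPrime_bot
  have h5 : (⊥ : Ideal B).primeCompl = nonZeroDivisors B := by
    ext x
    rw [mem_nonZeroDivisors_iff_ne_zero]
    rfl
  have hl : IsLocalization (⊥ : Ideal B).primeCompl K := by
    rw [h5]
    infer_instance
  have h1 : Algebra.FinitePresentation k B := Algebra.FinitePresentation.of_finiteType.mp
    inferInstance
  have h4 : Algebra.IsSmoothAt k (⊥ : Ideal B) :=
    Algebra.FormallySmooth.of_equiv ((IsLocalization.algEquiv (⊥ : Ideal B).primeCompl K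
      (Localization.AtPrime (⊥ : Ideal B))).restrictScalars k)
  obtain ⟨w, hw, hs⟩ := Algebra.IsSmoothAt.exists_notMem_smooth k (⊥ : Ideal B)
  refine ⟨w, fun h => hw (by rw [h]; exact Ideal.zero_mem _), fun f => ?_⟩
  rw [← Algebra.basicOpen_subset_smoothLocus_iff_smooth] at hs ⊢
  refine subset_trans ?_ hs
  exact PrimeSpectrum.basicOpen_mul_le_left w f

lemma generic_aux (B K : Type) [CommRing B] [IsDomain B]
    [Algebra.FiniteType ℤ B] [Field K] [Algebra B K] [IsFractionRing B K] :
    ∃ w : B, w ≠ 0 ∧ ∀ f : B, SmoothZ (Localization.Away (w * f)) := by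
  have hBK : Algebra.EssFiniteType B K := Algebra.EssFiniteType.of_isLocalization K (nonZeroDivisors B)
  rcases CharP.exists B with ⟨p, hp⟩
  rcases (CharP.char_is_prime_or_zero B p) with hprime | hzero
  · have : Fact p.Prime := ⟨hprime⟩
    let _ : Algebra (ZMod p) B := ZMod.algebra B p
    have h1 : Algebra.FiniteType (ZMod p) B := Algebra.FiniteType.of_restrictScalars_finiteType ℤ _ _
    let _ : Algebra (ZMod p) K := ((algebraMap B K).comp (algebraMap (ZMod p) B)).toAlgebra
    have h7 : IsScalarTower (ZMod p) B K := IsScalarTower.of_algebraMap_eq fun _ => rfl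
    have h8 : Algebra.EssFiniteType (ZMod p) K := Algebra.EssFiniteType.comp (ZMod p) B K
    have h3 : Algebra.FormallySmooth (ZMod p) K := Algebra.FormallySmooth.of_perfectField
    obtain ⟨w, hw, hs⟩ := smooth_spread (ZMod p) B K
    exact ⟨w, hw, fun f => Or.inr ⟨p, inferInstance, inferInstance, hs f⟩⟩
  · subst hzero
    have hc : CharZero B := CharP.charP_to_charZero B
    have hcK : CharZero K := charZero_of_injective_algebraMap (IsFractionRing.injective B K)
    have h8 : Algebra.EssFiniteType ℤ K := Algebra.EssFiniteType.comp ℤ B K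
    have h10 : Algebra.EssFiniteType ℚ K := Algebra.EssFiniteType.of_comp ℤ ℚ K
    have h1 : Algebra.FormallySmooth ℚ K := Algebra.FormallySmooth.of_perfectField
    have h3 : Algebra.FormallySmooth ℤ ℚ :=
      Algebra.FormallySmooth.of_isLocalization (nonZeroDivisors ℤ)
    have h6 : Algebra.FormallySmooth ℤ K := Algebra.FormallySmooth.comp ℤ ℚ K
    obtain ⟨w, hw, hs⟩ := smooth_spread ℤ B K
    exact ⟨w, hw, fun f => Or.inl ⟨inferInstance, hs f⟩⟩

/-- A domain of finite type over `ℤ` is generically smooth over `ℤ` or over a prime field. -/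
lemma generic_smooth (B : Type) [CommRing B] [IsDomain B] [i : Algebra ℤ B]
    [Algebra.FiniteType ℤ B] :
    ∃ w : B, w ≠ 0 ∧ ∀ f : B, SmoothZ (Localization.Away (w * f)) := by
  obtain rfl : i = Ring.toIntAlgebra B := Subsingleton.elim _ _
  exact generic_aux B (FractionRing B)

/-- All homomorphisms. -/
def locAll (A : Type) [CommRing A] : PIso (homPF A) (locF (⊥ : Ideal A) 1) where
  fwd p := ⟨p, fun x hx => by rw [Ideal.mem_bot.1 hx, map_zero], by
    rw [map_one]
    exact isUnit_one⟩
  bwd := fun q => q.1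
  left := fun _ => rfl
  right := fun _ => rfl
  nat := fun _ _ => rfl

/-- **Smooth pieces.** If `P` is true for the spectra of all rings which are smooth over `ℤ` or over a
prime field then it is true for all schemes of finite type over `ℤ`. -/
theorem cut_smooth (hP : Cut sep P)
    (h : ∀ (A : Type) [CommRing A] [Algebra ℤ A], SmoothZ A → P (aff ℤ A))
    (X : Sch ℤ) (hX : FT sep X) : P X := by
  refine of_affine' hP.iso hP.total (fun A _ _ _ => ?_) X hX
  have h1 : ∀ f, Holds P (locF (⊥ : Ideal A) f) := by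
    refine noethC hP (fun I hI => ?_) ⊥
    obtain ⟨w, hw, hs⟩ := generic_smooth (A ⧸ I)
    obtain ⟨w, rfl⟩ := Ideal.Quotient.mk_surjective w
    refine ⟨w, fun h3 => hw (Ideal.Quotient.eq_zero_iff_mem.2 h3), fun f => ?_⟩
    obtain ⟨b, hb⟩ := rep_locF I (w * f)
    refine ⟨_, inferInstance, inferInstance, ft_loc _ _, b, hb, h _ ?_⟩
    rw [map_mul]
    exact hs _
  exact of_repC hP (h1 1) (rep_homPF.congr (locAll A))

end

end Pool.Agent.Helper13.RM
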