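import Pool.Agent.Helper13.RM.Open
import Pool.Agent.Helper13.RM.Smooth
import Pool.Agent.Helper13.RM.CApp

/-!
# Smooth moduli spaces are sufficient
-/

set_option autoImplicit false

open CategoryTheory AlgebraicGeometry Pool.Agent.Y116.UV Pool.Agent.Q282.UK Pool.Agent.Helper3.GU

namespace Pool.Agent.Helper13.RM

/-- The ring of functions of the moduli space `modS R M` of configurations. -/
noncomputable abbrev ModR (R : Type) [CommRing R] {n : ℕ} (M : Matroid (Fin 4 ⊕ Fin n)) : Type :=
  Localization.Away (modD R {t | M.IsBase (elts t)})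

section

variable {R : Type} [CommRing R] {sep : Prop} {P : Sch R → Prop}

/-- **Integral schemes contain moduli spaces as open subschemes.** -/
theorem exists_open_mod (hR : Presents ({0, 1} : Set R)) (X : Sch R) (hX : FT sep X)
    [IsIntegral X.left] : ∃ (n : ℕ) (M : Matroid (Fin 4 ⊕ Fin n)) (s : modS R M ⟶ X),
      Framed M ∧ IsSimple M ∧ IsOpenImmersion s.left ∧ Nonempty (modS R M).left := by
  obtain ⟨n, M, s, h1, h2, h3, h4⟩ := onMod hR X hX (genericPoint X.left)
  obtain ⟨x, hx⟩ := h4
  exact ⟨n, M, s, h1, h2, open_of_generic s.left ⟨x, hx⟩, ⟨x⟩⟩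

lemma isDomain_of_open {X : Sch R} [IsIntegral X.left] {n : ℕ} {M : Matroid (Fin 4 ⊕ Fin n)}
    (s : modS R M ⟶ X) (h : IsOpenImmersion s.left) (hn : Nonempty (modS R M).left) :
    IsDomain (ModR R M) := by
  have h1 : IsIntegral (modS R M).left := isIntegral_of_isOpenImmersion s.left
  have h2 : IsIntegral (Spec (CommRingCat.of (ModR R M))) := h1
  exact (affine_isIntegral_iff _).mp h2

lemma smooth_aff_iff {A : Type} [CommRing A] [Algebra R A] :
    Smooth (aff R A).hom ↔ Algebra.Smooth R A := by
  change Smooth (Spec.map (CommRingCat.ofHom (algebraMap R A))) ↔ _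
  rw [HasRingHomProperty.Spec_iff (P := @Smooth)]
  exact RingHom.smooth_algebraMap

lemma smooth_of_open {X Y : Sch R} (s : X ⟶ Y) (h : IsOpenImmersion s.left) (hY : Smooth Y.hom) :
    Smooth X.hom := by
  rw [← Over.w s]
  infer_instance

end

/-! ### Fields -/

section

variable {k : Type} [Field k] {sep : Prop} {P : Sch k → Prop}

lemma generic_smooth_field [PerfectField k] (B : Type) [CommRing B] [IsDomain B] [Algebra k B]
    [Algebra.FiniteType k B] : ∃ w : B, w ≠ 0 ∧ Algebra.Smooth k (Localization.Away w) := by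
  have h8 : Algebra.EssFiniteType B (FractionRing B) :=
    Algebra.EssFiniteType.of_isLocalization _ (nonZeroDivisors B)
  have h9 : Algebra.EssFiniteType k (FractionRing B) := Algebra.EssFiniteType.comp k B _
  have h1 : Algebra.FormallySmooth k (FractionRing B) := Algebra.FormallySmooth.of_perfectField
  obtain ⟨w, hw, hs⟩ := smooth_spread k B (FractionRing B)
  refine ⟨w, hw, ?_⟩
  have h2 := hs 1
  rw [mul_one] at h2
  exact h2

/-- **Smooth moduli spaces are sufficient**, over the fields `ℚ` and `𝔽_p`. -/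
theorem config_smooth [PerfectField k] (hP : Cut sep P) (hR : Presents ({0, 1} : Set k))
    (h : ∀ (n : ℕ) (M : Matroid (Fin 4 ⊕ Fin n)), Framed M → IsSimple M → IsDomain (ModR k M) →
      Algebra.Smooth k (ModR k M) → P (modS k M)) (X : Sch k) (hX : FT sep X) : P X := by
  refine of_pieces hP (fun B _ _ _ _ => ?_) X hX
  obtain ⟨w, hw, hs⟩ := generic_smooth_field (k := k) B
  have hd : IsDomain (Localization.Away w) :=
    IsLocalization.isDomain_localization (powers_le_nonZeroDivisors_of_noZeroDivisors hw)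
  have hft : Algebra.FiniteType k (Localization.Away w) := ft_loc _ _
  have hi : IsIntegral (aff k (Localization.Away w)).left := by
    change IsIntegral (Spec (CommRingCat.of (Localization.Away w)))
    rw [affine_isIntegral_iff]
    exact hd
  obtain ⟨n, M, s, h1, h2, h3, h4⟩ := exists_open_mod (sep := sep) hR
    (aff k (Localization.Away w)) (ft_aff sep)
  refine ⟨modS k M, s ≫ affMap (IsScalarTower.toAlgHom k B (Localization.Away w)), ?_, h4, ?_⟩
  · have h5 : IsOpenImmersion (affMap (IsScalarTower.toAlgHom k B (Localization.Away w))).left :=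
      Scheme.isOpenImmersion_SpecMap_localizationAway (R := .of B) w
    change IsOpenImmersion (s.left ≫ _)
    infer_instance
  · exact h n M h1 h2 (isDomain_of_open s h3 h4)
      (smooth_aff_iff.1 (smooth_of_open s h3 (smooth_aff_iff.2 hs)))

end

/-! ### The integers -/

section

variable {sep : Prop} {P : Sch ℤ → Prop}

lemma smoothZ_of_open {B C : Type} [CommRing B] [CommRing C] [Algebra ℤ B] [Algebra ℤ C]
    (s : aff ℤ C ⟶ aff ℤ B) (h : IsOpenImmersion s.left) (hB : SmoothZ B) : SmoothZ C := by
  obtain ⟨φ, hφ⟩ : ∃ φ : CommRingCat.of B ⟶ CommRingCat.of C, Spec.map φ = s.left :=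
    ⟨Spec.preimage s.left, Spec.map_preimage _⟩
  have h0 : Smooth s.left := inferInstance
  have h1 : Smooth (Spec.map φ) := by
    rw [hφ]
    exact h0
  rw [HasRingHomProperty.Spec_iff (P := @Smooth)] at h1
  rcases hB with ⟨i, hi⟩ | ⟨p, hp, i, hi⟩
  · left
    let _ : Algebra ℤ C := (φ.hom.comp (algebraMap ℤ B)).toAlgebra
    refine ⟨inferInstance, ?_⟩
    have h2 : (φ.hom.comp (@algebraMap ℤ B _ _ i)).Smooth :=
      RingHom.Smooth.comp (RingHom.smooth_algebraMap.2 hi) h1
    rw [← RingHom.smooth_algebraMap]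
    convert h2 using 1
    exact Subsingleton.elim _ _
  · right
    refine ⟨p, hp, (φ.hom.comp (@algebraMap (ZMod p) B _ _ i)).toAlgebra, ?_⟩
    have h2 : (φ.hom.comp (@algebraMap (ZMod p) B _ _ i)).Smooth :=
      RingHom.Smooth.comp (RingHom.smooth_algebraMap.2 hi) h1
    exact h2

/-- **Smooth moduli spaces are sufficient**, over the integers: the moduli spaces which are integral,
and smooth over `ℤ` or over a prime field. -/
theorem config_smoothZ (hP : Cut sep P)
    (h : ∀ (n : ℕ) (M : Matroid (Fin 4 ⊕ Fin n)), Framed M → IsSimple M → IsDomain (ModR ℤ M) →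
      SmoothZ (ModR ℤ M) → P (modS ℤ M)) (X : Sch ℤ) (hX : FT sep X) : P X := by
  refine of_pieces hP (fun B _ _ _ _ => ?_) X hX
  obtain ⟨w, hw, hs⟩ := generic_smooth B
  have hs := hs 1
  rw [mul_one] at hs
  have hd : IsDomain (Localization.Away w) :=
    IsLocalization.isDomain_localization (powers_le_nonZeroDivisors_of_noZeroDivisors hw)
  have hft : Algebra.FiniteType ℤ (Localization.Away w) := ft_loc _ _
  have hi : IsIntegral (aff ℤ (Localization.Away w)).left := by
    change IsIntegral (Spec (CommRingCat.of (Localization.Away w)))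
    rw [affine_isIntegral_iff]
    exact hd
  obtain ⟨n, M, s, h1, h2, h3, h4⟩ := exists_open_mod (sep := sep)
    (presents_zero_one (R := ℤ) fun x => ⟨x, rfl⟩)
    (aff ℤ (Localization.Away w)) (ft_aff sep)
  refine ⟨modS ℤ M, s ≫ affMap (IsScalarTower.toAlgHom ℤ B (Localization.Away w)), ?_, h4, ?_⟩
  · have h5 : IsOpenImmersion (affMap (IsScalarTower.toAlgHom ℤ B (Localization.Away w))).left :=
      Scheme.isOpenImmersion_SpecMap_localizationAway (R := .of B) w
    change IsOpenImmersion (s.left ≫ _)
    infer_instance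
  · exact h n M h1 h2 (isDomain_of_open s h3 h4) (smoothZ_of_open s h3 hs)

end

end Pool.Agent.Helper13.RM
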