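import Pool.Agent.Helper13.RM.Sys

/-!
# Bilinear equations as systems of additions and multiplications
-/

set_option autoImplicit false

open CategoryTheory AlgebraicGeometry Pool.Agent.Y116.UV Pool.Agent.Q282.UK Pool.Agent.Helper3.GU

namespace Pool.Agent.Helper13.RM

/-- The variables: the `x_i` and `y_j`, the products `x_i y_j`, the partial sums, zero. -/
inductive Ix (a b c : ℕ)
  | x (i : Fin a)
  | y (j : Fin b)
  | m (i : Fin a) (j : Fin b)
  | s (l : Fin c) (k : Fin (a * b + 1))
  | o

instance (a b c : ℕ) : Finite (Ix a b c) := by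
  refine Finite.of_surjective (α := Fin a ⊕ Fin b ⊕ (Fin a × Fin b) ⊕ (Fin c × Fin (a * b + 1)) ⊕ Unit)
    (fun z => match z with
      | Sum.inl i => Ix.x i
      | Sum.inr (Sum.inl j) => Ix.y j
      | Sum.inr (Sum.inr (Sum.inl p)) => Ix.m p.1 p.2
      | Sum.inr (Sum.inr (Sum.inr (Sum.inl p))) => Ix.s p.1 p.2
      | Sum.inr (Sum.inr (Sum.inr (Sum.inr _))) => Ix.o) ?_
  rintro (i | j | ⟨i, j⟩ | ⟨l, k⟩ | _)
  · exact ⟨Sum.inl i, rfl⟩
  · exact ⟨Sum.inr (Sum.inl j), rfl⟩
  · exact ⟨Sum.inr (Sum.inr (Sum.inl (i, j))), rfl⟩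
  · exact ⟨Sum.inr (Sum.inr (Sum.inr (Sum.inl (l, k)))), rfl⟩
  · exact ⟨Sum.inr (Sum.inr (Sum.inr (Sum.inr ()))), rfl⟩

section

variable {a b c : ℕ} (T : Fin a → Fin b → Fin c → Prop) [∀ i j l, Decidable (T i j l)]

/-- the pair of indices with the number `k` -/
def ep (k : Fin (a * b)) : Fin a × Fin b := finProdFinEquiv.symm k

/-- the term with the number `k` of the equation `l` -/
def wt' (l : Fin c) (k : Fin (a * b)) : Ix a b c :=
  if T (ep k).1 (ep k).2 l then Ix.m (ep k).1 (ep k).2 else Ix.o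

/-- the additions -/
inductive BAdd : Ix a b c → Ix a b c → Ix a b c → Prop
  | zero : BAdd Ix.o Ix.o Ix.o
  | start (l : Fin c) : BAdd (Ix.s l 0) (Ix.s l 0) (Ix.s l 0)
  | last (l : Fin c) : BAdd (Ix.s l (Fin.last _)) (Ix.s l (Fin.last _)) (Ix.s l (Fin.last _))
  | step (l : Fin c) (k : Fin (a * b)) : BAdd (Ix.s l k.castSucc) (Ix.s l k.succ) (wt' T l k)

/-- the multiplications -/
inductive BMul : Ix a b c → Ix a b c → Ix a b c → Prop
  | m (i : Fin a) (j : Fin b) : BMul (Ix.m i j) (Ix.x i) (Ix.y j)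

/-- the system -/
def BS : Sys (Ix a b c) := ⟨BAdd T, BMul⟩

variable {C : Type} [CommRing C]

/-- the terms -/
def gt (x : Fin a → C) (y : Fin b → C) (l : Fin c) (k : Fin (a * b)) : C :=
  if T (ep k).1 (ep k).2 l then x (ep k).1 * y (ep k).2 else 0

omit [∀ i j l, Decidable (T i j l)] in
lemma partialSum_last {n : ℕ} (f : Fin n → C) : Fin.partialSum f (Fin.last n) = ∑ i, f i := by
  have h : (List.ofFn f).take n = List.ofFn f := by
    rw [List.take_of_length_le]
    rw [List.length_ofFn]
  rw [Fin.partialSum, Fin.val_last, h, List.sum_ofFn]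

lemma sum_gt (x : Fin a → C) (y : Fin b → C) (l : Fin c) :
    ∑ k, gt T x y l k = ∑ i, ∑ j, if T i j l then x i * y j else 0 := by
  rw [← Fintype.sum_prod_type', ← finProdFinEquiv.symm.sum_comp]
  rfl

/-- the values of the variables -/
def bval (x : Fin a → C) (y : Fin b → C) : Ix a b c → C
  | Ix.x i => x i
  | Ix.y j => y j
  | Ix.m i j => x i * y j
  | Ix.s l k => Fin.partialSum (gt T x y l) k
  | Ix.o => 0

lemma bval_wt (x : Fin a → C) (y : Fin b → C) (l : Fin c) (k : Fin (a * b)) :
    bval T x y (wt' T l k) = gt T x y l k := by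
  rw [wt', gt]
  split_ifs <;> rfl

lemma bval_sys (x : Fin a → C) (y : Fin b → C)
    (h : ∀ l, ∑ i, ∑ j, (if T i j l then x i * y j else 0) = 0) :
    (∀ i j k, (BS T).add i j k → bval T x y j = bval T x y i + bval T x y k) ∧
      ∀ i j k, (BS T).mul i j k → bval T x y i = bval T x y j * bval T x y k := by
  constructor
  · intro i j k hs
    cases hs with
    | zero => exact (add_zero 0).symm
    | start l =>
      change Fin.partialSum _ 0 = Fin.partialSum _ 0 + Fin.partialSum _ 0
      rw [Fin.partialSum_zero, add_zero]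
    | last l =>
      change Fin.partialSum _ (Fin.last _) = Fin.partialSum _ (Fin.last _) +
        Fin.partialSum _ (Fin.last _)
      rw [partialSum_last, sum_gt, h, add_zero]
    | step l k =>
      change Fin.partialSum _ k.succ = Fin.partialSum _ k.castSucc + _
      rw [Fin.partialSum_succ, bval_wt]
  · intro i j k hs
    cases hs with
    | m i j => rfl

/-- a solution is given by the `x_i` and `y_j` -/
lemma sys_bval {t : Ix a b c → C}
    (ht : (∀ i j k, (BS T).add i j k → t j = t i + t k) ∧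
      ∀ i j k, (BS T).mul i j k → t i = t j * t k) :
    t = bval T (fun i => t (Ix.x i)) (fun j => t (Ix.y j)) := by
  have h0 : t Ix.o = 0 := left_eq_add.mp (ht.1 _ _ _ BAdd.zero)
  have hm : ∀ i j, t (Ix.m i j) = t (Ix.x i) * t (Ix.y j) := fun i j => ht.2 _ _ _ (BMul.m i j)
  have hw : ∀ l k, t (wt' T l k) = gt T (fun i => t (Ix.x i)) (fun j => t (Ix.y j)) l k := by
    intro l k
    rw [wt', gt]
    split_ifs
    · exact hm _ _
    · exact h0
  funext z
  rcases z with i | j | ⟨i, j⟩ | ⟨l, k⟩ | _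
  · rfl
  · rfl
  · exact hm i j
  · change _ = Fin.partialSum _ k
    refine Fin.induction ?_ (fun k ih => ?_) k
    · rw [Fin.partialSum_zero]
      exact left_eq_add.mp (ht.1 _ _ _ (BAdd.start l))
    · rw [Fin.partialSum_succ, ← ih, ← hw]
      exact ht.1 _ _ _ (BAdd.step l k)
  · exact h0

/-- **Bilinear equations as systems.** -/
def bilSys : PIso (BF T) (SysF (BS T)) where
  fwd q := ⟨bval T q.1.1 q.1.2, bval_sys T _ _ q.2⟩
  bwd t := ⟨(fun i => t.1 (Ix.x i), fun j => t.1 (Ix.y j)), fun l => by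
    rw [← sum_gt, ← partialSum_last]
    have h := sys_bval T t.2
    have h1 := left_eq_add.mp (t.2.1 _ _ _ (BAdd.last l))
    rw [h] at h1
    exact h1⟩
  left _ := rfl
  right t := Subtype.ext (sys_bval T t.2).symm
  nat f q := by
    apply Subtype.ext
    change bval T (fun i => f (q.1.1 i)) (fun j => f (q.1.2 j)) = fun z => f (bval T q.1.1 q.1.2 z)
    have h : ∀ l k, gt T (fun i => f (q.1.1 i)) (fun j => f (q.1.2 j)) l k =
        f (gt T q.1.1 q.1.2 l k) := by
      intro l k
      rw [gt, gt]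
      split_ifs
      · exact (map_mul f _ _).symm
      · exact (map_zero f).symm
    funext z
    rcases z with i | j | ⟨i, j⟩ | ⟨l, k⟩ | _
    · rfl
    · rfl
    · exact (map_mul f _ _).symm
    · change Fin.partialSum _ k = f (Fin.partialSum _ k)
      refine Fin.induction ?_ (fun k ih => ?_) k
      · rw [Fin.partialSum_zero, Fin.partialSum_zero, map_zero]
      · rw [Fin.partialSum_succ, Fin.partialSum_succ, map_add, ih, h]
    · exact (map_zero f).symm

variable {R : Type} [CommRing R] {sep : Prop} {P : Sch R → Prop}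

/-- If `P` is true for all systems then it is true for the bilinear ones. -/
theorem holds_BF' (h : ∀ (I : Type) [Finite I] (S : Sys I), Holds P (SysF S)) : Holds P (BF T) :=
  (h _ (BS T)).congr (bilSys T).symm

end

end Pool.Agent.Helper13.RM
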