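import Pool.Agent.Helper13.RM.Defs
import Pool.Agent.Helper3.GU.Main

/-!
# Configurations of vectors with prescribed determinants
-/

set_option autoImplicit false

open CategoryTheory AlgebraicGeometry Pool.Agent.Y116.UV Pool.Agent.Q282.UK Pool.Agent.Helper3.GU

namespace Pool.Agent.Helper13.RM

section

variable {R : Type} [CommRing R] {sep : Prop} {P : Sch R → Prop} {F G : PF}

/-! ### The closure rules for cut and paste and tori -/

lemma clo_iso (hP : Clo sep P) {A B : Type} [CommRing A] [CommRing B] [Algebra R A] [Algebra R B]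
    [Algebra.FiniteType R A] (e : A ≃ₐ[R] B) (h : P (Pool.Agent.Y116.UV.aff R A)) :
    P (Pool.Agent.Y116.UV.aff R B) :=
  hP.iso (ft_aff sep) ⟨(affIso e).symm⟩ h

lemma of_rep' (hP : Clo sep P) (h : Holds P F) {B : Type} [CommRing B] [Algebra R B]
    {b : F.pts B} (hB : IsRep R F B b) : P (Pool.Agent.Y116.UV.aff R B) := by
  obtain ⟨B', i1, i2, i3, b', h1, h2⟩ := h
  obtain ⟨e⟩ := h1.iso hB
  exact clo_iso hP e h2

/-- from the whole space and the closed part to the open part -/
lemma opened' (hP : Clo sep P) (h : Holds P F) (g : NF F) (h0 : Holds P (F.zero g)) :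
    Holds P (F.unit g) := by
  obtain ⟨B, i1, i2, i3, b, h1, h2⟩ := h
  exact ⟨_, inferInstance, inferInstance, ft_loc _ _, _, h1.unit g rfl,
    hP.opened _ _ (ft_aff sep) (triple_away (g.fn b)) (of_rep' hP h0 (h1.zero g rfl)) h2⟩

/-- from the closed part and the open part to the whole space -/
lemma total' (hP : Clo sep P) (hF : HasRep R F) (g : NF F) (h0 : Holds P (F.zero g))
    (h1 : Holds P (F.unit g)) : Holds P F := by
  obtain ⟨B, i1, i2, i3, b, h2⟩ := hF
  exact ⟨B, i1, i2, i3, b, h2, hP.total _ _ (ft_aff sep) (triple_away (g.fn b))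
    (of_rep' hP h0 (h2.zero g rfl)) (of_rep' hP h1 (h2.unit g rfl))⟩

lemma of_tor_one' (hP : Clo sep P) (hF : HasRep R F) (h : Holds P (F.tor PUnit)) :
    Holds P F := by
  obtain ⟨B, i1, i2, i3, b, h1⟩ := hF
  refine ⟨B, i1, i2, i3, b, h1, hP.torus B ?_⟩
  have h2 := h1.aff PUnit
  let e : MvPolynomial PUnit B ≃ₐ[R] Polynomial B :=
    (MvPolynomial.uniqueAlgEquiv B PUnit).restrictScalars R
  have h3 := h2.alg e
  have hX : (⟨fun p => p.2 ⟨⟩, fun _ _ => rfl⟩ : NF (F.aff PUnit)).fn
      ((F.aff PUnit).map ((e : MvPolynomial PUnit B →ₐ[R] Polynomial B) :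
        MvPolynomial PUnit B →+* Polynomial B)
        (F.map MvPolynomial.C b, MvPolynomial.X)) = (Polynomial.X : Polynomial B) := by
    change (MvPolynomial.uniqueAlgEquiv B PUnit) (MvPolynomial.X PUnit.unit) = Polynomial.X
    simp
  have h4 := h3.unit _ hX
  have hs : IsScalarTower R (Polynomial B) (LaurentPolynomial B) :=
    IsScalarTower.of_algebraMap_eq fun r => by
      rw [LaurentPolynomial.algebraMap_eq_toLaurent, LaurentPolynomial.algebraMap_apply,
        Polynomial.algebraMap_apply, Polynomial.toLaurent_C]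
  have h5 : Localization.Away (Polynomial.X : Polynomial B) ≃ₐ[R] LaurentPolynomial B :=
    (IsLocalization.algEquiv (Submonoid.powers (Polynomial.X : Polynomial B))
      (Localization.Away (Polynomial.X : Polynomial B)) (LaurentPolynomial B)).restrictScalars R
  exact of_rep' hP h ((h4.alg h5).congr (torUnit F))

lemma of_tor' (hP : Clo sep P) (hF : HasRep R F) {κ : Type} [Finite κ]
    (h : Holds P (F.tor κ)) : Holds P F := by
  induction κ using Finite.induction_empty_option with
  | of_equiv e ih => exact ih (h.congr (torCongr F e.symm))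
  | h_empty => exact h.congr (torEmpty F).symm
  | h_option ih => exact ih (of_tor_one' hP (hF.tor _) (h.congr (torOption F _).symm))

/-- A functor with points only over the zero ring. -/
lemma holds_empty (hP : Clo sep P) (hG : Holds P G) (hF : ∀ (C : Type) [CommRing C],
    Nonempty (F.pts C) ↔ Subsingleton C) (hF1 : ∀ (C : Type) [CommRing C], Subsingleton (F.pts C)) :
    Holds P F := by
  have h1 : Holds P (G.unit ⟨fun _ => 0, fun f _ => (map_zero f).symm⟩) := by
    refine opened' hP hG _ (hG.congr ⟨fun p => ⟨p, rfl⟩, fun p => p.1, fun _ => rfl,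
      fun _ => rfl, fun _ _ => rfl⟩)
  obtain ⟨B, i1, i2, i3, b, h2, h3⟩ := h1
  have hB : Subsingleton B := isUnit_zero_iff.mp b.2 |> fun h => subsingleton_of_zero_eq_one h
  obtain ⟨q⟩ := (hF B).2 hB
  refine ⟨B, i1, i2, i3, q, ?_, h3⟩
  intro C _ _ p
  have hC : Subsingleton C := (hF C).1 ⟨p⟩
  exact ⟨{ toFun := fun _ => 0, map_one' := Subsingleton.elim _ _,
           map_mul' := fun _ _ => Subsingleton.elim _ _, map_zero' := rfl,
           map_add' := fun _ _ => Subsingleton.elim _ _, commutes' := fun _ => Subsingleton.elim _ _ },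
    Subsingleton.elim _ _, fun ψ _ => AlgHom.ext fun x => Subsingleton.elim _ _⟩

end

end Pool.Agent.Helper13.RM
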