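import Pool.Graph.R_seed8.Y116.UV.Defs

/-!
# Realization spaces of matroids of rank three: definitions
-/

set_option autoImplicit false

open CategoryTheory AlgebraicGeometry Pool.Agent.Y116.UV

namespace Pool.Agent.Helper13.RM

/-- The vectors of the projective frame: the standard basis and the vector `(1, 1, 1)`. -/
def frame (C : Type) [CommRing C] : Fin 4 → Fin 3 → C :=
  ![![1, 0, 0], ![0, 1, 0], ![0, 0, 1], ![1, 1, 1]]

/-- The family of the four vectors of the frame and the vectors `p k`. -/
def vecs {C κ : Type} [CommRing C] (p : κ → Fin 3 → C) : Fin 4 ⊕ κ → Fin 3 → C :=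
  Sum.elim (frame C) p

/-- Triples of elements. -/
abbrev Trip (κ : Type) : Type := (Fin 4 ⊕ κ) × (Fin 4 ⊕ κ) × (Fin 4 ⊕ κ)

/-- The determinant of three vectors of the family. -/
def dt {C κ : Type} [CommRing C] (p : κ → Fin 3 → C) (t : Trip κ) : C :=
  (Matrix.of ![vecs p t.1, vecs p t.2.1, vecs p t.2.2]).det

/-- The set of the elements of a triple. -/
def elts {κ : Type} (t : Trip κ) : Set (Fin 4 ⊕ κ) := {t.1, t.2.1, t.2.2}

/-- The matroid `M` has rank three, and any three of the four elements of the frame are a base. -/
structure Framed {κ : Type} (M : Matroid (Fin 4 ⊕ κ)) : Prop where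
  card : ∀ B, M.IsBase B → B.ncard = 3
  frame : ∀ a b c : Fin 4, a ≠ b → a ≠ c → b ≠ c → M.IsBase {Sum.inl a, Sum.inl b, Sum.inl c}

/-- The generic vectors. -/
noncomputable def gen (R : Type) [CommRing R] (n : ℕ) :
    Fin n → Fin 3 → MvPolynomial (Fin n × Fin 3) R :=
  fun k c => MvPolynomial.X (k, c)

/-- The equations of the realizations of a set `T` of triples: the determinants of the triples outside of
`T`. -/
noncomputable abbrev realI (R : Type) [CommRing R] {n : ℕ} (T : Set (Trip (Fin n))) :
    Ideal (MvPolynomial (Fin n × Fin 3) R) :=
  Ideal.span (Set.range fun t : (Tᶜ : Set (Trip (Fin n))) => dt (gen R n) t.1)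

/-- The ring of the families of vectors with these equations. -/
noncomputable abbrev RealQ (R : Type) [CommRing R] {n : ℕ} (T : Set (Trip (Fin n))) : Type :=
  MvPolynomial (Fin n × Fin 3) R ⧸ realI R T

open Classical in
/-- The product of the determinants of the triples in `T`. -/
noncomputable def prodT (R : Type) [CommRing R] {n : ℕ} (T : Set (Trip (Fin n))) :
    MvPolynomial (Fin n × Fin 3) R :=
  ∏ t : T, dt (gen R n) t.1

/-- The image of this product in the ring `RealQ R T`. -/
noncomputable abbrev realD (R : Type) [CommRing R] {n : ℕ} (T : Set (Trip (Fin n))) : RealQ R T :=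
  Ideal.Quotient.mk _ (prodT R T)

/-- The affine scheme of the families of vectors for which the determinants of the triples in `T` are
invertible, and the other ones are zero. -/
noncomputable def confS (R : Type) [CommRing R] {n : ℕ} (T : Set (Trip (Fin n))) : Sch R :=
  aff R (Localization.Away (realD R T))

/-- The realization space of the matroid `M` of rank three over `R`: the affine scheme of the vectors
`v_k` for which three vectors of the family `e_1, e_2, e_3, e_1 + e_2 + e_3, v_k` have an invertible
determinant if they form a base of `M`, and the determinant zero otherwise. -/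
noncomputable def realS (R : Type) [CommRing R] {n : ℕ} (M : Matroid (Fin 4 ⊕ Fin n)) : Sch R :=
  confS R {t | M.IsBase (elts t)}

end Pool.Agent.Helper13.RM
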