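import Pool.Agent.Helper13.RM.Gate

/-!
# Moduli spaces of planar configurations: all schemes of bounded dimension
-/

set_option autoImplicit false

open CategoryTheory AlgebraicGeometry Pool.Agent.Y116.UV Pool.Agent.Q282.UK Pool.Agent.Helper3.GU

namespace Pool.Agent.Helper13.RM

section

variable {R : Type} [CommRing R] {sep : Prop} {P : Sch R → Prop}

lemma dim_closed {Z X U : Sch R} {i : Z ⟶ X} {j : U ⟶ X} (h : IsTriple i j) :
    topologicalKrullDim Z.left ≤ topologicalKrullDim X.left := by
  have := h.closed
  exact (Scheme.Hom.isClosedEmbedding i.left).isInducing.topologicalKrullDim_le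

lemma dim_opened {Z X U : Sch R} {i : Z ⟶ X} {j : U ⟶ X} (h : IsTriple i j) :
    topologicalKrullDim U.left ≤ topologicalKrullDim X.left := by
  have := h.opened
  exact (Scheme.Hom.isOpenEmbedding j.left).isInducing.topologicalKrullDim_le

lemma dim_iso {X Y : Sch R} (h : Nonempty (X ≅ Y)) :
    topologicalKrullDim X.left ≤ topologicalKrullDim Y.left := by
  obtain ⟨e⟩ := h
  have h1 : IsIso e.hom.left := inferInstance
  exact (Scheme.Hom.isOpenEmbedding e.hom.left).isInducing.topologicalKrullDim_le

/-- Schemes of dimension at most `d`. -/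
theorem cut_dim (hP : Cut sep P) (d : WithBot ℕ∞) :
    Cut sep fun X => topologicalKrullDim X.left ≤ d → P X where
  iso hX e h hd := hP.iso hX e (h ((dim_iso e).trans hd))
  empty X hX _ := hP.empty X hX
  total i j hX ht hZ hU hd :=
    hP.total i j hX ht (hZ ((dim_closed ht).trans hd)) (hU ((dim_opened ht).trans hd))

/-- All schemes and the moduli spaces of planar configurations. -/
theorem config_iff (hP : Cut sep P) (hR : Presents ({0, 1} : Set R)) :
    (∀ X : Sch R, FT sep X → P X) ↔
      ∀ (n : ℕ) (M : Matroid (Fin 4 ⊕ Fin n)), Framed M → IsSimple M → P (modS R M) :=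
  ⟨fun h _ _ _ _ => h _ (ft_modT _), fun h X hX => config_universal hP hR h X hX⟩

/-- Schemes and moduli spaces of planar configurations of dimension at most `d`. -/
theorem config_dim (hP : Cut sep P) (hR : Presents ({0, 1} : Set R)) (d : WithBot ℕ∞) :
    (∀ X : Sch R, FT sep X → topologicalKrullDim X.left ≤ d → P X) ↔
      ∀ (n : ℕ) (M : Matroid (Fin 4 ⊕ Fin n)), Framed M → IsSimple M →
        topologicalKrullDim (modS R M).left ≤ d → P (modS R M) :=
  config_iff (cut_dim hP d) hR

/-- The property is true for the empty scheme if two out of three are sufficient. -/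
lemma empty_of_opened (hi : ∀ {X Y : Sch R}, FT sep X → Nonempty (X ≅ Y) → P X → P Y)
    (ho : ∀ {Z X U : Sch R} (i : Z ⟶ X) (j : U ⟶ X), FT sep X → IsTriple i j → P Z → P X → P U)
    (h1 : P (Pool.Agent.Y116.UV.aff R R)) (X : Sch R) (hX : IsEmpty X.left) : P X := by
  let T : Sch R := Pool.Agent.Y116.UV.aff R R
  have e : T.left = Spec (CommRingCat.of R) := rfl
  let j : X ⟶ T := Over.homMk X.hom (by
    change X.hom ≫ Spec.map (CommRingCat.ofHom (algebraMap R R)) = X.hom
    have h2 : CommRingCat.ofHom (algebraMap R R) = 𝟙 (CommRingCat.of R) := rfl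
    rw [h2, Spec.map_id, Category.comp_id])
  have h3 : IsTriple (𝟙 T) j := by
    refine ⟨?_, ?_, ?_⟩
    · change IsClosedImmersion (𝟙 _)
      infer_instance
    · change IsOpenImmersion X.hom
      infer_instance
    · have h4 : Set.range (𝟙 T : T ⟶ T).left = Set.univ := by
        change Set.range (𝟙 T.left : T.left ⟶ T.left) = Set.univ
        exact Set.range_eq_univ.2 fun x => ⟨x, rfl⟩
      rw [h4, Set.range_eq_empty, Set.compl_empty]
  exact ho (𝟙 T) j (ft_aff sep) h3 h1 h1

/-- A property with the closure properties `Clo` that is true for the base is closed under cutting. -/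
theorem Clo.cut (hP : Clo sep P) (h1 : P (Pool.Agent.Y116.UV.aff R R)) : Cut sep P where
  iso := hP.iso
  empty := empty_of_opened hP.iso hP.opened h1
  total := hP.total

end

end Pool.Agent.Helper13.RM
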