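import Pool.Agent.Helper13.RM.Perf

/-!
# Function fields of moduli spaces
-/

set_option autoImplicit false

open CategoryTheory AlgebraicGeometry Pool.Agent.Y116.UV Pool.Agent.Q282.UK Pool.Agent.Helper3.GU

namespace Pool.Agent.Helper13.RM

lemma isLocalization_congr {B S : Type} [CommRing B] [CommRing S] [Algebra B S] {M N : Submonoid B}
    (h : M = N) (hM : IsLocalization M S) : IsLocalization N S := by
  subst h
  exact hM

lemma frac_atPrime_bot (B : Type) [CommRing B] [IsDomain B] (q : Ideal B) [q.IsPrime] (hq : q = ⊥) :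
    IsFractionRing B (Localization.AtPrime q) := by
  refine isLocalization_congr (M := q.primeCompl) ?_ inferInstance
  ext x
  rw [mem_nonZeroDivisors_iff_ne_zero]
  subst hq
  rfl

lemma localRingHom_bijective {B C : Type} [CommRing B] [CommRing C] (φ : B →+* C)
    (h : IsOpenImmersion (Spec.map (CommRingCat.ofHom φ))) (p : PrimeSpectrum C) :
    Function.Bijective (Localization.localRingHom (PrimeSpectrum.comap φ p).asIdeal p.asIdeal φ rfl) := by
  have h1 : IsIso ((Spec.map (CommRingCat.ofHom φ)).stalkMap p) := inferInstance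
  have h2 := Scheme.arrowStalkMapSpecIso (CommRingCat.ofHom φ) p
  have h3 : IsIso (CommRingCat.ofHom (Localization.localRingHom (PrimeSpectrum.comap φ p).asIdeal
      p.asIdeal φ rfl)) :=
    ((MorphismProperty.isomorphisms CommRingCat).arrow_mk_iso_iff h2).1 h1
  exact (ConcreteCategory.isIso_iff_bijective _).1 h3

/-- A fraction field of `B` is a fraction field of `C` if `Spec C` is an open subscheme of `Spec B`. -/
lemma frac_of_open {B C : Type} [CommRing B] [CommRing C] [IsDomain B] [IsDomain C] (φ : B →+* C)
    (h : IsOpenImmersion (Spec.map (CommRingCat.ofHom φ))) (K : Type) [Field K] [Algebra B K]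
    [IsFractionRing B K] : ∃ g : C →+* K, g.comp φ = algebraMap B K ∧
      @IsFractionRing C _ K _ g.toAlgebra := by
  have hB : IsIntegral (Spec (CommRingCat.of B)) := (affine_isIntegral_iff _).2 inferInstance
  have hC : IsIntegral (Spec (CommRingCat.of C)) := (affine_isIntegral_iff _).2 inferInstance
  let p : PrimeSpectrum C := ⊥
  have hp : genericPoint (Spec (CommRingCat.of C)) = p := genericPoint_eq_bot_of_affine _
  have hq : PrimeSpectrum.comap φ p = (⊥ : PrimeSpectrum B) := by
    have h1 := genericPoint_eq_of_isOpenImmersion (Spec.map (CommRingCat.ofHom φ))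
    rw [hp] at h1
    rw [genericPoint_eq_bot_of_affine] at h1
    exact h1
  have hb := localRingHom_bijective φ h p
  have hq' : (PrimeSpectrum.comap φ p).asIdeal = ⊥ := congrArg PrimeSpectrum.asIdeal hq
  have iB := frac_atPrime_bot B (PrimeSpectrum.comap φ p).asIdeal hq'
  have iC := frac_atPrime_bot C p.asIdeal rfl
  let LB := Localization.AtPrime (PrimeSpectrum.comap φ p).asIdeal
  let LC := Localization.AtPrime p.asIdeal
  let ψ : LB ≃+* LC := RingEquiv.ofBijective _ hb
  let θ : LB ≃ₐ[B] K := IsLocalization.algEquiv (nonZeroDivisors B) _ _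
  let e' : LC ≃+* K := ψ.symm.trans θ.toRingEquiv
  let g : C →+* K := (e' : LC →+* K).comp (algebraMap C LC)
  refine ⟨g, ?_, ?_⟩
  · ext b
    change θ (ψ.symm (algebraMap C LC (φ b))) = _
    have h2 : ψ (algebraMap B LB b) = algebraMap C LC (φ b) :=
      Localization.localRingHom_to_map _ _ _ rfl b
    rw [← h2, RingEquiv.symm_apply_apply, AlgEquiv.commutes]
  · let _ : Algebra C K := g.toAlgebra
    let e : LC ≃ₐ[C] K := AlgEquiv.ofRingEquiv (f := e') fun c => rfl
    exact IsLocalization.isLocalization_of_algEquiv (nonZeroDivisors C) e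

/-- **Every finitely generated field is the function field of a smooth moduli space.** -/
theorem exists_mod_field {k : Type} [Field k] [PerfectField k] (hR : Presents ({0, 1} : Set k))
    (K : Type) [Field K] [Algebra k K] (hK : (⊤ : IntermediateField k K).FG) :
    ∃ (n : ℕ) (M : Matroid (Fin 4 ⊕ Fin n)), Framed M ∧ IsSimple M ∧ IsDomain (ModR k M) ∧
      Algebra.Smooth k (ModR k M) ∧ ∃ _ : Algebra (ModR k M) K,
        IsScalarTower k (ModR k M) K ∧ IsFractionRing (ModR k M) K := by
  obtain ⟨S, hS⟩ := hK
  let B := Algebra.adjoin k (S : Set K)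
  have hBf : Algebra.FiniteType k B := (Subalgebra.fg_iff_finiteType _).1 ⟨S, rfl⟩
  have hBK : IsFractionRing B K := by
    refine IsFractionRing.of_field _ _ fun z => ?_
    have hz : z ∈ IntermediateField.adjoin k (S : Set K) := by
      rw [hS]
      trivial
    obtain ⟨x, hx, y, hy, hxy⟩ := IntermediateField.mem_adjoin_iff_div.mp hz
    exact ⟨⟨x, hx⟩, ⟨y, hy⟩, hxy⟩
  obtain ⟨w, hw, hs⟩ := generic_smooth_field (k := k) B
  let D := Localization.Away w
  have hd : IsDomain D :=
    IsLocalization.isDomain_localization (powers_le_nonZeroDivisors_of_noZeroDivisors hw)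
  have hft : Algebra.FiniteType k D := ft_loc _ _
  have hi : IsIntegral (aff k D).left := by
    change IsIntegral (Spec (CommRingCat.of D))
    rw [affine_isIntegral_iff]
    exact hd
  obtain ⟨n, M, s, h1, h2, h3, h4⟩ := exists_open_mod (sep := True) hR (aff k D) (ft_aff True)
  have h5 := isDomain_of_open s h3 h4
  have h6 := smooth_aff_iff.1 (smooth_of_open s h3 (smooth_aff_iff.2 hs))
  refine ⟨n, M, h1, h2, h5, h6, ?_⟩
  have hu : IsUnit (algebraMap B K w) := by
    rw [isUnit_iff_ne_zero]
    exact fun h0 => hw ((IsFractionRing.injective B K) (by rw [h0, map_zero]))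
  let _ : Algebra D K := (IsLocalization.Away.lift (S := D) w hu).toAlgebra
  have hT : IsScalarTower B D K := IsScalarTower.of_algebraMap_eq fun b =>
    (IsLocalization.Away.lift_eq w hu b).symm
  have hDK : IsFractionRing D K :=
    IsFractionRing.isFractionRing_of_isDomain_of_isLocalization (Submonoid.powers w) D K
  obtain ⟨φ, hφ⟩ : ∃ φ : CommRingCat.of D ⟶ CommRingCat.of (ModR k M), Spec.map φ = s.left :=
    ⟨Spec.preimage s.left, Spec.map_preimage _⟩
  have hk : ∀ a : k, φ.hom (algebraMap k D a) = algebraMap k (ModR k M) a := by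
    have h7 : Spec.map φ ≫ Spec.map (CommRingCat.ofHom (algebraMap k D)) =
        Spec.map (CommRingCat.ofHom (algebraMap k (ModR k M))) := by
      rw [hφ]
      exact Over.w s
    rw [← Spec.map_comp] at h7
    have h8 := Spec.map_injective h7
    intro a
    exact congrArg (fun f : CommRingCat.of k ⟶ CommRingCat.of (ModR k M) => f.hom a) h8
  obtain ⟨g, hg, hgK⟩ := frac_of_open φ.hom (by
    change IsOpenImmersion (Spec.map φ)
    rw [hφ]
    exact h3) K
  refine ⟨g.toAlgebra, ?_, hgK⟩
  let _ : Algebra (ModR k M) K := g.toAlgebra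
  refine IsScalarTower.of_algebraMap_eq fun a => ?_
  change _ = g (algebraMap k (ModR k M) a)
  rw [← hk a]
  have h9 : g (φ.hom (algebraMap k D a)) = algebraMap D K (algebraMap k D a) :=
    congrArg (fun f : D →+* K => f (algebraMap k D a)) hg
  rw [h9]
  have h10 : algebraMap k D a = algebraMap B D (algebraMap k B a) :=
    IsScalarTower.algebraMap_apply k B D a
  rw [h10, ← IsScalarTower.algebraMap_apply B D K, ← IsScalarTower.algebraMap_apply k B K]

end Pool.Agent.Helper13.RM
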