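import Pool.Agent.Helper13.RM.NSys

/-!
# Systems of polynomial equations as systems of additions and multiplications
-/

set_option autoImplicit false

open CategoryTheory AlgebraicGeometry Pool.Agent.Y116.UV Pool.Agent.Q282.UK Pool.Agent.Helper3.GU

namespace Pool.Agent.Helper13.RM

section

variable {σ : Type} {C D : Type} [CommRing C] [CommRing D]

/-- Polynomials with natural coefficients. -/
abbrev NP (σ : Type) : Type := MvPolynomial σ ℕ

/-- The value of a polynomial at a point. -/
noncomputable def ev (x : σ → C) : NP σ →+* C := MvPolynomial.eval₂Hom (Nat.castRingHom C) x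

lemma ev_X (x : σ → C) (s : σ) : ev x (MvPolynomial.X s) = x s :=
  MvPolynomial.eval₂Hom_X' _ _ _

lemma ev_map (f : C →+* D) (x : σ → C) (p : NP σ) : ev (fun s => f (x s)) p = f (ev x p) := by
  rw [ev, ev, MvPolynomial.map_eval₂Hom]
  congr 2
  exact Subsingleton.elim _ _

/-- A function that respects the sums and products in `I`. -/
structure Resp (I : Set (NP σ)) (t : NP σ → C) : Prop where
  add : ∀ a b, a ∈ I → b ∈ I → a + b ∈ I → t (a + b) = t a + t b
  mul : ∀ a b, a ∈ I → b ∈ I → a * b ∈ I → t (a * b) = t a * t b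
  one : 1 ∈ I → t 1 = 1

lemma Resp.mono {I J : Set (NP σ)} (h : I ⊆ J) {t : NP σ → C} (ht : Resp J t) : Resp I t :=
  ⟨fun a b h1 h2 h3 => ht.add a b (h h1) (h h2) (h h3),
    fun a b h1 h2 h3 => ht.mul a b (h h1) (h h2) (h h3), fun h1 => ht.one (h h1)⟩

/-- The value at `p` is determined by the values at the variables. -/
def Det (I : Set (NP σ)) (p : NP σ) : Prop :=
  ∀ (C : Type) [CommRing C] (t : NP σ → C), Resp I t →
    t p = ev (fun s => t (MvPolynomial.X s)) p

lemma Det.mono {I J : Set (NP σ)} (h : I ⊆ J) {p : NP σ} (hp : Det I p) : Det J p :=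
  fun C _ t ht => hp C t (ht.mono h)

/-- A finite set of polynomials that determine each other. -/
structure Good (I : Set (NP σ)) : Prop where
  fin : I.Finite
  det : ∀ p ∈ I, Det I p

lemma Good.union {I J : Set (NP σ)} (hI : Good I) (hJ : Good J) : Good (I ∪ J) :=
  ⟨hI.fin.union hJ.fin, fun p hp => by
    rcases hp with hp | hp
    · exact (hI.det p hp).mono Set.subset_union_left
    · exact (hJ.det p hp).mono Set.subset_union_right⟩

lemma Good.insert {I : Set (NP σ)} (hI : Good I) {p : NP σ} (hp : Det (insert p I) p) :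
    Good (insert p I) :=
  ⟨hI.fin.insert p, fun q hq => by
    rcases hq with rfl | hq
    · exact hp
    · exact (hI.det q hq).mono (Set.subset_insert _ _)⟩

lemma good_empty : Good (∅ : Set (NP σ)) := ⟨Set.finite_empty, fun _ h => h.elim⟩

lemma good_X (s : σ) : Good ({MvPolynomial.X s} : Set (NP σ)) :=
  ⟨Set.finite_singleton _, fun p hp => by
    rw [Set.mem_singleton_iff] at hp
    subst hp
    intro C _ t _
    rw [ev_X]⟩

lemma good_zero : Good ({0} : Set (NP σ)) :=
  ⟨Set.finite_singleton _, fun p hp => by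
    rw [Set.mem_singleton_iff] at hp
    subst hp
    intro C _ t ht
    have h := ht.add 0 0 rfl rfl (add_zero 0)
    rw [add_zero] at h
    rw [map_zero]
    exact left_eq_add.mp h⟩

lemma good_one : Good ({1} : Set (NP σ)) :=
  ⟨Set.finite_singleton _, fun p hp => by
    rw [Set.mem_singleton_iff] at hp
    subst hp
    intro C _ t ht
    rw [map_one]
    exact ht.one rfl⟩

lemma good_add {p q : NP σ} (hp : ∃ I, Good I ∧ p ∈ I) (hq : ∃ I, Good I ∧ q ∈ I) :
    ∃ I, Good I ∧ p + q ∈ I := by
  obtain ⟨I, hI, hpI⟩ := hp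
  obtain ⟨J, hJ, hqJ⟩ := hq
  refine ⟨insert (p + q) (I ∪ J), (hI.union hJ).insert ?_, Set.mem_insert _ _⟩
  intro C _ t ht
  have hI' : I ⊆ insert (p + q) (I ∪ J) := fun x hx => Or.inr (Or.inl hx)
  have hJ' : J ⊆ insert (p + q) (I ∪ J) := fun x hx => Or.inr (Or.inr hx)
  rw [ht.add p q (hI' hpI) (hJ' hqJ) (Set.mem_insert _ _), map_add,
    (hI.det p hpI).mono hI' C t ht, (hJ.det q hqJ).mono hJ' C t ht]

lemma good_mul {p q : NP σ} (hp : ∃ I, Good I ∧ p ∈ I) (hq : ∃ I, Good I ∧ q ∈ I) :
    ∃ I, Good I ∧ p * q ∈ I := by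
  obtain ⟨I, hI, hpI⟩ := hp
  obtain ⟨J, hJ, hqJ⟩ := hq
  refine ⟨insert (p * q) (I ∪ J), (hI.union hJ).insert ?_, Set.mem_insert _ _⟩
  intro C _ t ht
  have hI' : I ⊆ insert (p * q) (I ∪ J) := fun x hx => Or.inr (Or.inl hx)
  have hJ' : J ⊆ insert (p * q) (I ∪ J) := fun x hx => Or.inr (Or.inr hx)
  rw [ht.mul p q (hI' hpI) (hJ' hqJ) (Set.mem_insert _ _), map_mul,
    (hI.det p hpI).mono hI' C t ht, (hJ.det q hqJ).mono hJ' C t ht]

lemma exists_good (p : NP σ) : ∃ I, Good I ∧ p ∈ I := by
  induction p using MvPolynomial.induction_on with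
  | C a =>
    induction a with
    | zero =>
      rw [MvPolynomial.C_0]
      exact ⟨{0}, good_zero, rfl⟩
    | succ a ih =>
      rw [MvPolynomial.C_add, MvPolynomial.C_1]
      exact good_add ih ⟨{1}, good_one, rfl⟩
  | add p q hp hq => exact good_add hp hq
  | mul_X p s hp => exact good_mul hp ⟨{MvPolynomial.X s}, good_X s, rfl⟩

lemma exists_good_family {κ : Type} [Finite κ] (G : κ → NP σ) :
    ∃ I, Good I ∧ ∀ k, G k ∈ I := by
  choose I hI hG using fun k => exists_good (G k)
  refine ⟨⋃ k, I k, ⟨Set.finite_iUnion fun k => (hI k).fin, fun p hp => ?_⟩,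
    fun k => Set.mem_iUnion.2 ⟨k, hG k⟩⟩
  obtain ⟨k, hk⟩ := Set.mem_iUnion.1 hp
  exact ((hI k).det p hk).mono (Set.subset_iUnion I k)

end

section

variable {R : Type} [CommRing R] {sep : Prop} {P : Sch R → Prop} {σ κ : Type} (G : κ → NP σ)

/-- the value of a polynomial as a function on the affine space -/
noncomputable def evF (p : NP σ) : NF (PT.aff σ) := ⟨fun x => ev x.2 p, fun f x => ev_map f x.2 p⟩

/-- The zeros of the polynomials. -/
noncomputable def ZP : PF := (PT.aff σ).zeros fun k => evF (G k)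

/-- The system of the polynomials in `I`. -/
def sysI (I : Set (NP σ)) : Sys I where
  add i j k := (j : NP σ) = i + k ∨ ((i : NP σ) = 0 ∧ (j : NP σ) = 0 ∧ ∃ l, G l = k)
  mul i j k := (i : NP σ) = j * k

/-- the element one -/
def oneI (I : Set (NP σ)) : Set I := {i | (i : NP σ) = 1}

open Classical in
/-- the extension of a function on `I` by zero -/
noncomputable def ext {C : Type} [CommRing C] {I : Set (NP σ)} (t : I → C) (p : NP σ) : C :=
  if h : p ∈ I then t ⟨p, h⟩ else 0

lemma ext_of {C : Type} [CommRing C] {I : Set (NP σ)} (t : I → C) {p : NP σ} (h : p ∈ I) :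
    ext t p = t ⟨p, h⟩ := dif_pos h

variable {G} {I : Set (NP σ)}

lemma resp_ext {C : Type} [CommRing C] (t : (SysO (sysI G I) (oneI I)).pts C) :
    Resp I (ext t.1.1) where
  add a b ha hb hab := by
    rw [ext_of _ ha, ext_of _ hb, ext_of _ hab]
    exact t.1.2.1 ⟨a, ha⟩ ⟨a + b, hab⟩ ⟨b, hb⟩ (Or.inl rfl)
  mul a b ha hb hab := by
    rw [ext_of _ ha, ext_of _ hb, ext_of _ hab]
    exact t.1.2.2 ⟨a * b, hab⟩ ⟨a, ha⟩ ⟨b, hb⟩ rfl
  one h := by
    rw [ext_of _ h]
    exact t.2 ⟨1, h⟩ rfl

lemma ev_ext (hI : Good I) (hX : ∀ s, MvPolynomial.X s ∈ I) {C : Type} [CommRing C]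
    (t : (SysO (sysI G I) (oneI I)).pts C) (p : I) :
    ev (fun s => t.1.1 ⟨MvPolynomial.X s, hX s⟩) p.1 = t.1.1 p := by
  have h := hI.det p.1 p.2 C (ext t.1.1) (resp_ext t)
  rw [ext_of _ p.2] at h
  rw [h]
  congr 1
  congr 1
  funext s
  exact (ext_of _ (hX s)).symm

lemma sys_ev {C : Type} [CommRing C] {x : σ → C} (hx : ∀ k, ev x (G k) = 0) :
    (∀ i j k : I, (sysI G I).add i j k → ev x j.1 = ev x i.1 + ev x k.1) ∧
      ∀ i j k : I, (sysI G I).mul i j k → ev x i.1 = ev x j.1 * ev x k.1 := by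
  constructor
  · intro i j k h
    rcases h with h | ⟨h1, h2, l, h3⟩
    · rw [h, map_add]
    · rw [h1, h2, ← h3, hx l, map_zero, add_zero]
  · intro i j k h
    have h' : (i : NP σ) = j * k := h
    rw [h', map_mul]

/-- **Polynomial equations as systems of additions and multiplications.** -/
noncomputable def zpIso (hI : Good I) (h0 : 0 ∈ I) (hX : ∀ s, MvPolynomial.X s ∈ I)
    (hG : ∀ k, G k ∈ I) : PIso (ZP G) (SysO (sysI G I) (oneI I)) where
  fwd x := ⟨⟨fun i => ev x.1.2 i.1, sys_ev x.2⟩, fun i hi =>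
    (congrArg (ev x.1.2) hi).trans (map_one _)⟩
  bwd t := ⟨((), fun s => t.1.1 ⟨MvPolynomial.X s, hX s⟩), fun k => by
    change ev (fun s => t.1.1 ⟨MvPolynomial.X s, hX s⟩) (G k) = 0
    rw [ev_ext hI hX t ⟨G k, hG k⟩]
    have h := t.1.2.1 ⟨0, h0⟩ ⟨0, h0⟩ ⟨G k, hG k⟩ (Or.inr ⟨rfl, rfl, k, rfl⟩)
    exact left_eq_add.mp h⟩
  left x := by
    apply Subtype.ext
    apply Prod.ext
    · rfl
    · funext s
      exact ev_X _ s
  right t := by
    apply Subtype.ext
    apply Subtype.ext
    funext i
    exact ev_ext hI hX t i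
  nat f x := by
    apply Subtype.ext
    apply Subtype.ext
    funext i
    exact ev_map f x.1.2 i.1

/-- If `P` is true for all normalised configurations then it is true for all systems of polynomial
equations with natural coefficients. -/
theorem holds_ZP [Finite σ] [Finite κ] (hP : Cut sep P)
    (h : ∀ (κ' : Type) [Finite κ'] (T : Set (Trip κ')), Holds P (NConf κ' T)) (G : κ → NP σ) :
    Holds P (ZP G) := by
  obtain ⟨I1, h1, h2⟩ := exists_good_family G
  obtain ⟨I2, h3, h4⟩ := exists_good_family (fun s : σ => (MvPolynomial.X s : NP σ))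
  have hI : Good ((I1 ∪ I2) ∪ {0}) := (h1.union h3).union good_zero
  have hfin : Finite ((I1 ∪ I2) ∪ {0} : Set (NP σ)) := hI.fin
  have hfin2 : Finite (KI ((I1 ∪ I2) ∪ {0} : Set (NP σ))) := inferInstance
  exact (holds_SysO hP fun T => h _ T).congr
    (zpIso hI (Or.inr rfl) (fun s => Or.inl (Or.inr (h4 s))) (fun k => Or.inl (Or.inl (h2 k)))).symm

/-- The affine case. -/
theorem holds_affine (hP : Cut sep P)
    (h : ∀ (κ' : Type) [Finite κ'] (T : Set (Trip κ')), Holds P (NConf κ' T))
    (hR : Presents ({0, 1} : Set R)) (A : Type) [CommRing A] [Algebra R A]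
    [Algebra.FiniteType R A] : P (Pool.Agent.Y116.UV.aff R A) := by
  classical
  obtain ⟨n, φ, G, hs, hK, hc⟩ := hR A
  have hg : ∀ g : G, ∃ g' : NP (Fin n), MvPolynomial.map (Nat.castRingHom R) g' = g.1 := by
    intro g
    have h1 := (MvPolynomial.mem_range_map_iff_coeffs_subset (f := Nat.castRingHom R)
      (x := g.1)).2 (by
        intro a ha
        obtain ⟨m, -, rfl⟩ := MvPolynomial.mem_coeffs_iff.1 ha
        rcases hc g.1 g.2 m with h2 | h2
        · rw [h2]
          exact ⟨0, map_zero _⟩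
        · rw [h2]
          exact ⟨1, map_one _⟩)
    exact h1
  choose g' hg' using hg
  have h1 := holds_ZP (R := R) hP h g'
  have h2 := (rep_PT (R := R)).aff (Fin n)
  obtain ⟨q, hq⟩ := h2.zeros' (fun k => evF (g' k)) (fun g : G => g.1) (by
    funext g
    rw [← hg' g]
    change ev (MvPolynomial.X : Fin n → MvPolynomial (Fin n) R) (g' g) = _
    rw [ev, MvPolynomial.map_eq_eval₂Hom_C_comp]
    congr 2)
  have h3 : Set.range (fun g : G => g.1) = (G : Set (MvPolynomial (Fin n) R)) := by
    ext x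
    simp
  have h4 := of_repC hP h1 hq
  rw [h3, ← hK] at h4
  exact cut_iso hP (Ideal.quotientKerAlgEquivOfSurjective hs) h4

/-- **Moduli spaces of planar configurations are universal.** Let `R` be a ring such that all algebras of
finite type have presentations with coefficients `0` and `1` (for example `ℤ`, `ℚ`, `𝔽_p`), and let `P` be
a property of the schemes of finite type over `R` that is true for the empty scheme, and for `X` if it is
true for a closed subscheme and for its complement. If `P` is true for the moduli spaces of the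
configurations of points in the plane of all simple matroids of rank three then it is true for all
(separated) schemes of finite type over `R`. -/
theorem config_universal (hP : Cut sep P) (hR : Presents ({0, 1} : Set R))
    (h : ∀ (n : ℕ) (M : Matroid (Fin 4 ⊕ Fin n)), Framed M → IsSimple M → P (modS R M)) (X : Sch R)
    (hX : FT sep X) : P X :=
  of_affine' hP.iso hP.total (fun A _ _ _ => holds_affine hP
    (fun κ' _ T => holds_NConf hP h _ κ' rfl T) hR A) X hX

end

end Pool.Agent.Helper13.RM
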