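import Pool.Agent.Helper13.RM.Mat

/-!
# Realization spaces of matroids of rank three decide every property that is closed under cut and paste
-/

set_option autoImplicit false

open CategoryTheory AlgebraicGeometry Pool.Agent.Y116.UV Pool.Agent.Q282.UK Pool.Agent.Helper3.GU

namespace Pool.Agent.Helper13.RM

section

variable {R : Type} [CommRing R] {sep : Prop} {P : Sch R → Prop}

/-- The strata are realization spaces of matroids, or empty. -/
lemma matroid_or_empty {n : ℕ} (T : Set (Trip (Fin n))) :
    (∃ M : Matroid (Fin 4 ⊕ Fin n), Framed M ∧ T = {t | M.IsBase (elts t)}) ∨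
      ∀ (C : Type) [CommRing C], Nonempty ((Conf (Fin n) Tᶜ T).pts C) → Subsingleton C := by
  by_cases h : ∀ (C : Type) [CommRing C], Nonempty ((Conf (Fin n) Tᶜ T).pts C) → Subsingleton C
  · exact Or.inr h
  · left
    push Not at h
    obtain ⟨C, iC, ⟨p⟩, hC⟩ := h
    obtain ⟨m, hm⟩ := Ideal.exists_maximal C
    let _ : Field (C ⧸ m) := Ideal.Quotient.field m
    let q : Fin n → Fin 3 → C ⧸ m := fun k c => Ideal.Quotient.mk m (p.1 k c)
    have hq : ∀ t, dt q t = Ideal.Quotient.mk m (dt p.1 t) := dt_map _ _
    refine ⟨matM (vecs q), framed_matM q, ?_⟩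
    ext t
    rw [Set.mem_ofPred_eq, base_iff, hq]
    constructor
    · intro ht
      exact ((p.2.2 t ht).map (Ideal.Quotient.mk m)).ne_zero
    · intro h1
      by_contra ht
      rw [p.2.1 t ht, map_zero] at h1
      exact h1 rfl

/-- All strata. -/
lemma holds_strata (hP : Clo sep P)
    (h : ∀ (n : ℕ) (M : Matroid (Fin 4 ⊕ Fin n)), Framed M → P (realS R M)) {n : ℕ}
    (T : Set (Trip (Fin n))) : Holds P (Conf (Fin n) Tᶜ T) := by
  have h0 : ∀ (n : ℕ) (M : Matroid (Fin 4 ⊕ Fin n)), Framed M →
      Holds P (Conf (Fin n) {t | M.IsBase (elts t)}ᶜ {t | M.IsBase (elts t)}) :=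
    fun n M hM => holds_of_confS (h n M hM)
  rcases matroid_or_empty T with ⟨M, hM, rfl⟩ | he
  · exact h0 n M hM
  · have hG := h0 0 _ (framed_matM (K := ℚ) (fun k : Fin 0 => k.elim0))
    refine holds_empty hP hG (fun C _ => ⟨he C, fun hC => ⟨fun _ _ => 0, fun _ _ =>
      Subsingleton.elim _ _, fun s _ => ?_⟩⟩) fun C _ => ⟨fun p q => ?_⟩
    · rw [Subsingleton.elim (dt _ s) 1]
      exact isUnit_one
    · have := he C ⟨p⟩
      apply Subtype.ext
      funext k c
      exact Subsingleton.elim _ _

/-- All configurations. -/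
lemma holds_all (hP : Clo sep P)
    (h : ∀ (n : ℕ) (M : Matroid (Fin 4 ⊕ Fin n)), Framed M → P (realS R M)) {κ : Type} [Finite κ]
    (Z U : Set (Trip κ)) : Holds P (Conf κ Z U) := by
  obtain ⟨n, ⟨e⟩⟩ := Finite.exists_equiv_fin κ
  have h1 : ∀ T : Set (Trip (Fin n)), Holds P (Conf (Fin n) Tᶜ T) := fun T =>
    holds_strata hP h T
  have h2 : Holds P (Conf (Fin n) (tm e.symm ⁻¹' Z) (tm e.symm ⁻¹' U)) := holds_Conf hP h1 _ _
  exact h2.congr (confRename e.symm Z U)

open Classical in
/-- the bilinear systems -/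
lemma bil_of_holds' (hP : Clo sep P) {a b c : ℕ} (T : Fin a → Fin b → Fin c → R)
    (hT : ∀ i j l, T i j l ∈ ({0, 1} : Set R)) (h : Holds P (BF fun i j l => T i j l = 1)) :
    P (bilS T) := by
  let F : PF := PT.aff (Fin a ⊕ Fin b)
  let g : Fin c → NF F := fun l =>
    ⟨fun p => ∑ i, ∑ j, if T i j l = 1 then p.2 (Sum.inl i) * p.2 (Sum.inr j) else 0, fun f p => by
      simp only [map_sum]
      apply Finset.sum_congr rfl
      intro i _
      apply Finset.sum_congr rfl
      intro j _
      change (if _ then f _ * f _ else 0) = f (if _ then _ else 0)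
      split_ifs
      · rw [map_mul]
      · rw [map_zero]⟩
  have h1 := (rep_PT (R := R)).aff (Fin a ⊕ Fin b)
  obtain ⟨q, hq⟩ := h1.zeros' g (bform T) (by
    funext l
    rw [bform]
    change (∑ i, ∑ j, if T i j l = 1 then (MvPolynomial.X (Sum.inl i) *
      MvPolynomial.X (Sum.inr j) : MvPolynomial (Fin a ⊕ Fin b) R) else 0) = _
    apply Finset.sum_congr rfl
    intro i _
    apply Finset.sum_congr rfl
    intro j _
    by_cases h2 : T i j l = 1
    · rw [if_pos h2, h2, map_one, one_mul]
    · rw [if_neg h2]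
      rcases hT i j l with h3 | h3
      · rw [h3, map_zero, zero_mul, zero_mul]
      · exact absurd h3 h2)
  let e : PIso (F.zeros g) (BF fun i j l => T i j l = 1) :=
    ⟨fun p => ⟨(fun i => p.1.2 (Sum.inl i), fun j => p.1.2 (Sum.inr j)), fun l => p.2 l⟩,
      fun y => ⟨((), Sum.elim y.1.1 y.1.2), fun l => y.2 l⟩, fun p => by
        apply Subtype.ext
        apply Prod.ext
        · rfl
        · funext k
          rcases k with k | k <;> rfl, fun _ => rfl, fun _ _ => rfl⟩
  exact of_rep' hP h (hq.congr e)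

/-- **Matroids of rank three are universal.** Let `R` be a ring such that all algebras of finite type have
presentations with coefficients `0` and `1` (for example `ℤ`, `ℚ`, `𝔽_p`), and let `P` be a property of
the schemes of finite type over `R` that is closed under closed-open decompositions and descends from
`X × 𝔾_m` to `X`. If `P` is true for the realization spaces of all matroids of rank three (with a
projective frame), then it is true for all (separated) schemes of finite type over `R`. -/
theorem matroid_universal (hP : Clo sep P) (hR : Presents ({0, 1} : Set R))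
    (h : ∀ (n : ℕ) (M : Matroid (Fin 4 ⊕ Fin n)), Framed M → P (realS R M)) (X : Sch R)
    (hX : FT sep X) : P X := by
  classical
  refine clo_universal hP (S := {0, 1}) (by simp) (by simp) ?_ hR X hX
  intro a b c T hT
  exact bil_of_holds' hP T hT (holds_BF' _ fun I _ S => holds_Sys hP fun Z U => holds_all hP h Z U)

lemma ft_realS {n : ℕ} (M : Matroid (Fin 4 ⊕ Fin n)) : FT sep (realS R M) := by
  have h1 : Algebra.FiniteType R (RealQ R {t : Trip (Fin n) | M.IsBase (elts t)}) := inferInstance
  have := ft_loc (R := R) (RealQ R {t : Trip (Fin n) | M.IsBase (elts t)})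
    (Ideal.Quotient.mk _ (prodT R {t : Trip (Fin n) | M.IsBase (elts t)}))
  exact ft_aff sep

/-- The equivalence. -/
theorem matroid_iff (hP : Clo sep P) (hR : Presents ({0, 1} : Set R)) :
    (∀ X : Sch R, FT sep X → P X) ↔
      ∀ (n : ℕ) (M : Matroid (Fin 4 ⊕ Fin n)), Framed M → P (realS R M) :=
  ⟨fun h _ M _ => h _ (ft_realS M), fun h X hX => matroid_universal hP hR h X hX⟩

end

end Pool.Agent.Helper13.RM
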