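import Pool.Agent.Helper13.RM.Bil

/-!
# The matroid of a configuration over a field
-/

set_option autoImplicit false

open CategoryTheory AlgebraicGeometry Pool.Agent.Y116.UV Pool.Agent.Q282.UK Pool.Agent.Helper3.GU

namespace Pool.Agent.Helper13.RM

section

variable {K : Type} [Field K] {ι : Type} [Finite ι] (v : ι → Fin 3 → K)

omit [Finite ι] in
lemma encard_le_three {s : Set ι} (h : LinearIndepOn K v s) : s.encard ≤ 3 := by
  have h1 := h.encard_le_toENat_rank
  have h2 : Module.rank K (Fin 3 → K) = 3 := by simp
  rw [h2] at h1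
  simpa using h1

/-- The matroid of a finite family of vectors. -/
def matI : IndepMatroid ι :=
  IndepMatroid.ofFinite (E := Set.univ) Set.finite_univ (fun s => LinearIndepOn K v s)
    (linearIndepOn_empty K v) (fun _ _ h1 h2 => h1.mono h2) (by
      intro I J hI hJ hlt
      by_contra hno
      push Not at hno
      have h1 : Submodule.span K (v '' J) ≤ Submodule.span K (v '' I) := by
        rw [Submodule.span_le]
        rintro _ ⟨e, he, rfl⟩
        by_cases h2 : e ∈ I
        · exact Submodule.subset_span ⟨e, h2, rfl⟩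
        · by_contra h3
          exact hno e he h2 ((linearIndepOn_insert h2).2 ⟨hI, h3⟩)
      have h2 := Submodule.rank_mono h1
      have h3 : (Module.rank K (Submodule.span K (v '' J))).toENat ≤
          (Module.rank K (Submodule.span K (v '' I))).toENat := OrderHomClass.mono Cardinal.toENat h2
      rw [toENat_rank_span_set hJ, toENat_rank_span_set hI] at h3
      rw [← (Set.toFinite J).cast_ncard_eq, ← (Set.toFinite I).cast_ncard_eq] at h3
      have h4 : J.ncard ≤ I.ncard := by exact_mod_cast h3
      omega)
    (fun _ _ => Set.subset_univ _)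

/-- The matroid of a finite family of vectors. -/
def matM : Matroid ι := (matI v).matroid

lemma matM_indep (s : Set ι) : (matM v).Indep s ↔ LinearIndepOn K v s := Iff.rfl

omit [Finite ι] in
lemma indep_three {a b c : ι} (hab : a ≠ b) (hac : a ≠ c) (hbc : b ≠ c) :
    LinearIndepOn K v {a, b, c} ↔ (Matrix.of ![v a, v b, v c]).det ≠ 0 := by
  have hinj : Function.Injective ![a, b, c] := by
    intro i j h
    fin_cases i <;> fin_cases j <;> simp_all
  have hr : Set.range ![a, b, c] = {a, b, c} := by
    ext x
    simp only [Set.mem_range, Fin.exists_fin_succ, Matrix.cons_val_zero, Matrix.cons_val_succ,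
      Set.mem_insert_iff, Set.mem_singleton_iff]
    simp only [IsEmpty.exists_iff, or_false, eq_comm]
  rw [← hr, linearIndepOn_range_iff hinj, ← isUnit_iff_ne_zero, ← Matrix.isUnit_iff_isUnit_det,
    ← Matrix.linearIndependent_rows_iff_isUnit]
  have h : v ∘ ![a, b, c] = (Matrix.of ![v a, v b, v c]).row := by
    funext i
    fin_cases i <;> rfl
  rw [h]

lemma base_of_det {a b c : ι} (h : (Matrix.of ![v a, v b, v c]).det ≠ 0) :
    (matM v).IsBase {a, b, c} := by
  have hab : a ≠ b := by
    rintro rfl
    exact h (Matrix.det_zero_of_row_eq (i := 0) (j := 1) (by decide) rfl)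
  have hac : a ≠ c := by
    rintro rfl
    exact h (Matrix.det_zero_of_row_eq (i := 0) (j := 2) (by decide) rfl)
  have hbc : b ≠ c := by
    rintro rfl
    exact h (Matrix.det_zero_of_row_eq (i := 1) (j := 2) (by decide) rfl)
  have h1 : (matM v).Indep {a, b, c} := (indep_three v hab hac hbc).2 h
  refine h1.isBase_of_forall_insert ?_
  rintro e ⟨-, he⟩ h2
  have h3 : LinearIndepOn K v (insert e {a, b, c}) := h2
  have h4 := encard_le_three v h3
  rw [Set.encard_insert_of_notMem he] at h4
  have h5 : ({a, b, c} : Set ι).encard = 3 := by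
    rw [Set.encard_eq_three]
    exact ⟨a, b, c, hab, hac, hbc, rfl⟩
  rw [h5] at h4
  norm_num at h4

end

section

variable {K : Type} [Field K] {κ : Type} [Finite κ] (p : κ → Fin 3 → K)

lemma ncard_pair {α : Type} (a b : α) : ({a, b} : Set α).ncard ≤ 2 := by
  refine (Set.ncard_insert_le _ _).trans ?_
  rw [Set.ncard_singleton]

omit [Finite κ] in
lemma det_frame {a b c : Fin 4} (h1 : a ≠ b) (h2 : a ≠ c) (h3 : b ≠ c) :
    dt p (Sum.inl a, Sum.inl b, Sum.inl c) ≠ 0 := by
  rw [dt_eq]
  fin_cases a <;> fin_cases b <;> fin_cases c <;> simp_all [vecs, frame]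

lemma base_iff (t : Trip κ) : (matM (vecs p)).IsBase (elts t) ↔ dt p t ≠ 0 := by
  obtain ⟨a, b, c⟩ := t
  constructor
  · intro h
    have h0 : (matM (vecs p)).IsBase {Sum.inl 0, Sum.inl 1, Sum.inl 2} :=
      base_of_det (vecs p) (det_frame p (a := 0) (b := 1) (c := 2) (by decide) (by decide)
        (by decide))
    have h1 := h.ncard_eq_ncard_of_isBase h0
    have h2 : ({Sum.inl 0, Sum.inl 1, Sum.inl 2} : Set (Fin 4 ⊕ κ)).ncard = 3 := by
      rw [Set.ncard_eq_three]
      exact ⟨_, _, _, by simp, by simp, by simp, rfl⟩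
    rw [h2] at h1
    have hab : a ≠ b := by
      rintro rfl
      have h3 : elts ((a, a, c) : Trip κ) = {a, c} := by simp [elts]
      rw [h3] at h1
      have := ncard_pair a c
      omega
    have hac : a ≠ c := by
      rintro rfl
      have h3 : elts ((a, b, a) : Trip κ) = {b, a} := by
        simp [elts]
      rw [h3] at h1
      have := ncard_pair b a
      omega
    have hbc : b ≠ c := by
      rintro rfl
      have h3 : elts ((a, b, b) : Trip κ) = {a, b} := by simp [elts]
      rw [h3] at h1
      have := ncard_pair a b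
      omega
    exact (indep_three (vecs p) hab hac hbc).1 h.indep
  · exact fun h => base_of_det (vecs p) h

lemma framed_matM : Framed (matM (vecs p)) where
  card B hB := by
    have h0 : (matM (vecs p)).IsBase {Sum.inl 0, Sum.inl 1, Sum.inl 2} :=
      base_of_det (vecs p) (det_frame p (a := 0) (b := 1) (c := 2) (by decide) (by decide)
        (by decide))
    have h2 : ({Sum.inl 0, Sum.inl 1, Sum.inl 2} : Set (Fin 4 ⊕ κ)).ncard = 3 := by
      rw [Set.ncard_eq_three]
      exact ⟨_, _, _, by simp, by simp, by simp, rfl⟩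
    rw [hB.ncard_eq_ncard_of_isBase h0, h2]
  frame a b c h1 h2 h3 := base_of_det (vecs p) (det_frame p h1 h2 h3)

end

end Pool.Agent.Helper13.RM
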