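import Pool.Agent.Helper13.RM.Uni

/-!
# Cutting, and configurations of normalised vectors
-/

set_option autoImplicit false

open CategoryTheory AlgebraicGeometry Pool.Agent.Y116.UV Pool.Agent.Q282.UK Pool.Agent.Helper3.GU

namespace Pool.Agent.Helper13.RM

section

variable {R : Type} [CommRing R] {sep : Prop} {P : Sch R → Prop} {F G : PF}

/-! ### The closure rules -/

lemma cut_iso (hP : Cut sep P) {A B : Type} [CommRing A] [CommRing B] [Algebra R A] [Algebra R B]
    [Algebra.FiniteType R A] (e : A ≃ₐ[R] B) (h : P (Pool.Agent.Y116.UV.aff R A)) :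
    P (Pool.Agent.Y116.UV.aff R B) :=
  hP.iso (ft_aff sep) ⟨(affIso e).symm⟩ h

lemma of_repC (hP : Cut sep P) (h : Holds P F) {B : Type} [CommRing B] [Algebra R B]
    {b : F.pts B} (hB : IsRep R F B b) : P (Pool.Agent.Y116.UV.aff R B) := by
  obtain ⟨B', i1, i2, i3, b', h1, h2⟩ := h
  obtain ⟨e⟩ := h1.iso hB
  exact cut_iso hP e h2

/-- from the closed part and the open part to the whole space -/
lemma totalC (hP : Cut sep P) (hF : HasRep R F) (g : NF F) (h0 : Holds P (F.zero g))
    (h1 : Holds P (F.unit g)) : Holds P F := by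
  obtain ⟨B, i1, i2, i3, b, h2⟩ := hF
  exact ⟨B, i1, i2, i3, b, h2, hP.total _ _ (ft_aff sep) (triple_away (g.fn b))
    (of_repC hP h0 (h2.zero g rfl)) (of_repC hP h1 (h2.unit g rfl))⟩

/-- A functor with points only over the zero ring. -/
lemma emptyC (hP : Cut sep P) (hF : HasRep R F)
    (h : ∀ (C : Type) [CommRing C], Nonempty (F.pts C) → Subsingleton C) : Holds P F := by
  obtain ⟨B, i1, i2, i3, b, h2⟩ := hF
  have hB := h B ⟨b⟩
  refine ⟨B, i1, i2, i3, b, h2, hP.empty _ ?_⟩
  change IsEmpty (PrimeSpectrum B)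
  infer_instance

/-- The points where the functions of `Z` vanish and those of `U` are invertible. -/
def pat (F : PF) {ι : Type} (g : ι → NF F) (Z U : Set ι) : PF :=
  F.sub (fun p => (∀ i ∈ Z, (g i).fn p = 0) ∧ ∀ i ∈ U, IsUnit ((g i).fn p)) (fun f p h =>
    ⟨fun i hi => by rw [(g i).nat, h.1 i hi, map_zero],
    fun i hi => by rw [(g i).nat]; exact (h.2 i hi).map f⟩)

/-- The product of the functions of `U`. -/
def prF {ι : Type} (g : ι → NF F) (U : Set ι) [Fintype U] : NF F :=
  ⟨fun p => ∏ t : U, (g t.1).fn p, fun f p => by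
    rw [map_prod]
    exact Finset.prod_congr rfl fun t _ => (g t.1).nat f p⟩

/-- zeros and one invertible function -/
def patIso {ι : Type} (g : ι → NF F) (Z U : Set ι) [Fintype U] :
    PIso ((F.zeros fun t : Z => g t.1).unit
      ((prF g U).res _ fun f p h k => by rw [(g k.1).nat, h k, map_zero])) (pat F g Z U) where
  fwd p := ⟨p.1.1, fun t ht => p.1.2 ⟨t, ht⟩, fun t ht => by
    have h : IsUnit (∏ t : U, (g t.1).fn p.1.1) := p.2
    rw [IsUnit.prod_univ_iff] at h
    exact h ⟨t, ht⟩⟩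
  bwd q := ⟨⟨q.1, fun t => q.2.1 t.1 t.2⟩, by
    change IsUnit (∏ t : U, (g t.1).fn q.1)
    rw [IsUnit.prod_univ_iff]
    exact fun t => q.2.2 t.1 t.2⟩
  left _ := rfl
  right _ := rfl
  nat _ _ := rfl

lemma hasRep_pat (hF : HasRep R F) {ι : Type} [Finite ι] (g : ι → NF F) (Z U : Set ι) :
    HasRep R (pat F g Z U) := by
  have := Fintype.ofFinite U
  exact ((hF.zeros _).unit _).congr (patIso g Z U)

/-- A function on a stratum. -/
def gP {ι : Type} (g : ι → NF F) (Z U : Set ι) (t : ι) : NF (pat F g Z U) :=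
  ⟨fun p => (g t).fn p.1, fun f p => (g t).nat f p.1⟩

/-- One more zero. -/
def patZero {ι : Type} (g : ι → NF F) (Z U : Set ι) (t : ι) :
    PIso ((pat F g Z U).zero (gP g Z U t)) (pat F g (insert t Z) U) where
  fwd p := ⟨p.1.1, fun s hs => by
    rcases hs with rfl | hs
    · exact p.2
    · exact p.1.2.1 s hs, p.1.2.2⟩
  bwd q := ⟨⟨q.1, fun s hs => q.2.1 s (Set.mem_insert_of_mem _ hs), q.2.2⟩,
    q.2.1 t (Set.mem_insert _ _)⟩
  left _ := rfl
  right _ := rfl
  nat _ _ := rfl

/-- One more invertible function. -/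
def patUnit {ι : Type} (g : ι → NF F) (Z U : Set ι) (t : ι) :
    PIso ((pat F g Z U).unit (gP g Z U t)) (pat F g Z (insert t U)) where
  fwd p := ⟨p.1.1, p.1.2.1, fun s hs => by
    rcases hs with rfl | hs
    · exact p.2
    · exact p.1.2.2 s hs⟩
  bwd q := ⟨⟨q.1, q.2.1, fun s hs => q.2.2 s (Set.mem_insert_of_mem _ hs)⟩,
    q.2.2 t (Set.mem_insert _ _)⟩
  left _ := rfl
  right _ := rfl
  nat _ _ := rfl

/-- **Strata.** If `P` is true for all strata then it is true for the functor. -/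
theorem holds_pat (hP : Cut sep P) (hF : HasRep R F) {ι : Type} [Finite ι] (g : ι → NF F)
    (h : ∀ T : Set ι, Holds P (pat F g Tᶜ T)) (Z U : Set ι) : Holds P (pat F g Z U) := by
  classical
  obtain ⟨n, hn⟩ : ∃ n, ((Z ∪ U)ᶜ).ncard = n := ⟨_, rfl⟩
  induction n generalizing Z U with
  | zero =>
    have h1 : (Z ∪ U)ᶜ = ∅ := (Set.ncard_eq_zero (Set.toFinite _)).mp hn
    by_cases h2 : ∃ t, t ∈ Z ∧ t ∈ U
    · obtain ⟨t, h3, h4⟩ := h2
      refine emptyC hP (hasRep_pat hF g Z U) ?_
      rintro C _ ⟨p⟩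
      have h5 := p.2.2 t h4
      rw [p.2.1 t h3] at h5
      exact subsingleton_of_zero_eq_one (isUnit_zero_iff.mp h5)
    · have h3 : Z = Uᶜ := by
        ext t
        constructor
        · exact fun h4 h5 => h2 ⟨t, h4, h5⟩
        · intro h4
          by_contra h5
          have : t ∈ (Z ∪ U)ᶜ := by
            rintro (h6 | h6)
            · exact h5 h6
            · exact h4 h6
          rw [h1] at this
          exact this
      rw [h3]
      exact h U
  | succ n ih =>
    obtain ⟨t, ht⟩ : ((Z ∪ U)ᶜ).Nonempty := by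
      rw [Set.nonempty_iff_ne_empty]
      intro h1
      rw [h1, Set.ncard_empty] at hn
      omega
    have h1 : (insert t Z ∪ U)ᶜ = (Z ∪ U)ᶜ \ {t} := by
      ext s
      simp only [Set.mem_compl_iff, Set.mem_union, Set.mem_insert_iff, Set.mem_sdiff,
        Set.mem_singleton_iff]
      tauto
    have h2 : (Z ∪ insert t U)ᶜ = (Z ∪ U)ᶜ \ {t} := by
      ext s
      simp only [Set.mem_compl_iff, Set.mem_union, Set.mem_insert_iff, Set.mem_sdiff,
        Set.mem_singleton_iff]
      tauto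
    have h3 : ((Z ∪ U)ᶜ \ {t}).ncard = n := by
      rw [Set.ncard_sdiff_singleton_of_mem ht, hn]
      rfl
    refine totalC hP (hasRep_pat hF g Z U) (gP g Z U t) ?_ ?_
    · exact (ih _ _ (by rw [h1, h3])).congr (patZero g Z U t).symm
    · exact (ih _ _ (by rw [h2, h3])).congr (patUnit g Z U t).symm

/-- The whole functor. -/
def patAll {ι : Type} (g : ι → NF F) : PIso (pat F g ∅ ∅) F where
  fwd p := p.1
  bwd q := ⟨q, fun _ h => h.elim, fun _ h => h.elim⟩
  left _ := rfl
  right _ := rfl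
  nat _ _ := rfl

theorem holds_of_pat (hP : Cut sep P) (hF : HasRep R F) {ι : Type} [Finite ι] (g : ι → NF F)
    (h : ∀ T : Set ι, Holds P (pat F g Tᶜ T)) : Holds P F :=
  (holds_pat hP hF g h ∅ ∅).congr (patAll g)

end

/-! ### Normalised configurations -/

/-- The families of normalised vectors with the conditions `T` on the determinants. -/
noncomputable def NConf (κ : Type) (T : Set (Trip κ)) : PF :=
  (Vec κ).sub (fun p => Cond T p ∧ ∀ k, p k (lastX T (Sum.inr k)) = 1) (fun f p h =>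
    ⟨⟨fun t ht => ((dF t).nat f p).trans ((congrArg f (h.1.1 t ht)).trans (map_zero f)),
    fun t ht => (congrArg IsUnit ((dF t).nat f p)).mpr ((h.1.2 t ht).map f)⟩,
    fun k => (congrArg f (h.2 k)).trans (map_one f)⟩)

section

variable {R : Type} [CommRing R] {sep : Prop} {P : Sch R → Prop} {κ : Type}

/-- the coordinate of a vector, minus one -/
noncomputable def nF (T : Set (Trip κ)) (k : κ) : NF (Vec κ) :=
  ⟨fun p => p k (lastX T (Sum.inr k)) - 1, fun f p => by
    rw [map_sub, map_one]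
    rfl⟩

/-- Normalised configurations by zeros and one invertible function. -/
noncomputable def nconfIso (T : Set (Trip κ)) [Fintype T] :
    PIso (((Vec κ).zeros (Sum.elim (fun t : (Tᶜ : Set _) => dF t.1) (nF T))).unit
      ((pF T).res _ fun f p h k => by rw [NF.nat, h k, map_zero])) (NConf κ T) where
  fwd p := ⟨p.1.1, ⟨fun t ht => p.1.2 (Sum.inl ⟨t, ht⟩), fun t ht => by
    have h : IsUnit (∏ t : T, dt p.1.1 t.1) := p.2
    rw [IsUnit.prod_univ_iff] at h
    exact h ⟨t, ht⟩⟩, fun k => sub_eq_zero.mp (p.1.2 (Sum.inr k))⟩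
  bwd q := ⟨⟨q.1, fun s => by
    rcases s with t | k
    · exact q.2.1.1 t.1 t.2
    · exact sub_eq_zero.mpr (q.2.2 k)⟩, by
    change IsUnit (∏ t : T, dt q.1 t.1)
    rw [IsUnit.prod_univ_iff]
    exact fun t => q.2.1.2 t.1 t.2⟩
  left _ := rfl
  right _ := rfl
  nat _ _ := rfl

lemma hasRep_NConf [Finite κ] (T : Set (Trip κ)) : HasRep R (NConf κ T) := by
  have := Fintype.ofFinite T
  exact ((hasRep_Vec.zeros _).unit _).congr (nconfIso T)

lemma rep_modT {n : ℕ} (T : Set (Trip (Fin n))) :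
    ∃ b, IsRep R (NConf (Fin n) T) (Localization.Away (modD R T)) b := by
  classical
  have h1 := (rep_Vec (R := R) n).zeros (Sum.elim (fun t : (Tᶜ : Set _) => dF t.1) (nF T))
  have h0 : (fun k => ((Sum.elim (fun t : (Tᶜ : Set _) => dF t.1) (nF T) k).fn (gen R n) :
      MvPolynomial (Fin n × Fin 3) R)) =
      Sum.elim (fun t : (Tᶜ : Set (Trip (Fin n))) => dt (gen R n) t.1)
        fun k => gen R n k (lastX T (Sum.inr k)) - 1 := by
    funext k
    rcases k with t | k <;> rfl
  obtain ⟨b, hb⟩ : ∃ b, IsRep R ((Vec (Fin n)).zeros (Sum.elim (fun t : (Tᶜ : Set _) => dF t.1)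
      (nF T))) (ModQ R T) b ∧ b.1 = fun k c => Ideal.Quotient.mk (modI R T) (gen R n k c) := by
    have h2 : modI R T = Ideal.span (Set.range fun k =>
        ((Sum.elim (fun t : (Tᶜ : Set _) => dF t.1) (nF T) k).fn (gen R n) :
          MvPolynomial (Fin n × Fin 3) R)) := by
      rw [h0]
    unfold ModQ
    rw [h2]
    exact ⟨_, h1, rfl⟩
  have h2 := hb.1.unit ((pF T).res _ fun f p h k => by rw [NF.nat, h k, map_zero])
    (w := modD R T) (by
      change (pF T).fn b.1 = _
      rw [hb.2]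
      refine ((pF T).nat (Ideal.Quotient.mk _) (gen R n)).trans ?_
      congr 1)
  exact ⟨_, h2.congr (nconfIso T)⟩

lemma holds_of_modT {n : ℕ} {T : Set (Trip (Fin n))} (h : P (modT R T)) :
    Holds P (NConf (Fin n) T) := by
  obtain ⟨b, hb⟩ := rep_modT (R := R) T
  exact ⟨_, inferInstance, inferInstance, ft_loc _ _, _, hb, h⟩

lemma ft_modT {n : ℕ} (T : Set (Trip (Fin n))) : FT sep (modT R T) := by
  have := ft_loc (R := R) (ModQ R T) (modD R T)
  exact ft_aff sep

end

end Pool.Agent.Helper13.RM
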