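import Pool.Agent.Helper13.RM.NC

/-!
# Configurations of normalised vectors: reduction to simple matroids
-/

set_option autoImplicit false

open CategoryTheory AlgebraicGeometry Pool.Agent.Y116.UV Pool.Agent.Q282.UK Pool.Agent.Helper3.GU

namespace Pool.Agent.Helper13.RM

section

variable {κ : Type}

/-- The set of triples is the set of the bases of a configuration over a field. -/
def FP (T : Set (Trip κ)) : Prop :=
  ∃ (K : Type) (_ : Field K) (q : κ → Fin 3 → K), ∀ t, t ∈ T ↔ dt q t ≠ 0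

variable {C : Type} [CommRing C]

lemma dt_01 (p : κ → Fin 3 → C) (x : Fin 4 ⊕ κ) :
    dt p (Sum.inl 0, Sum.inl 1, x) = vecs p x 2 := by
  rw [dt_eq]
  simp [vecs, frame]

lemma dt_02 (p : κ → Fin 3 → C) (x : Fin 4 ⊕ κ) :
    dt p (Sum.inl 0, Sum.inl 2, x) = -vecs p x 1 := by
  rw [dt_eq]
  simp [vecs, frame]

lemma lastX_frame {T : Set (Trip κ)} (hT : FP T) (p : κ → Fin 3 → C) (a : Fin 4) :
    vecs p (Sum.inl a) (lastX T (Sum.inl a)) = 1 := by
  classical
  obtain ⟨K, iK, q, hq⟩ := hT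
  have h1 : ∀ x, (Sum.inl 0, Sum.inl 1, x) ∈ T ↔ vecs q x 2 ≠ 0 := fun x => by rw [hq, dt_01]
  have h2 : ∀ x, (Sum.inl 0, Sum.inl 2, x) ∈ T ↔ vecs q x 1 ≠ 0 := fun x => by
    rw [hq, dt_02, neg_ne_zero]
  rw [lastX]
  simp only [h1, h2]
  fin_cases a <;> simp [vecs, frame]

lemma lastX_rep {k : κ} {e : Fin 4 ⊕ Oth k} {T : Set (Trip κ)} {T' : Set (Trip (Oth k))}
    (h1 : ∀ t, t ∈ T ↔ rt k e t ∈ T') (x : Fin 4 ⊕ κ) : lastX T x = lastX T' (rep k e x) := by
  classical
  rw [lastX, lastX, h1, h1]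
  rfl

lemma lastX_tm {κ' : Type} (e : κ' → κ) (T : Set (Trip κ)) (x : Fin 4 ⊕ κ') :
    lastX (tm e ⁻¹' T) x = lastX T (Sum.map id e x) := by
  classical
  rfl

lemma norm_all {T : Set (Trip κ)} (hT : FP T) {p : κ → Fin 3 → C}
    (hp : ∀ k, p k (lastX T (Sum.inr k)) = 1) (x : Fin 4 ⊕ κ) : vecs p x (lastX T x) = 1 := by
  rcases x with a | k
  · exact lastX_frame hT p a
  · exact hp k

variable (k : κ)

lemma vecs_dup (e : Fin 4 ⊕ Oth k) (p : Oth k → Fin 3 → C) (x : Fin 4 ⊕ κ) :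
    vecs (exv k (vecs p e) p) x = vecs p (rep k e x) := by
  rcases cases_up k x with rfl | ⟨y, rfl⟩
  · rw [vecs_k, rep_k]
  · rw [vecs_up, rep_up]

lemma dt_dup (e : Fin 4 ⊕ Oth k) (p : Oth k → Fin 3 → C) (t : Trip κ) :
    dt (exv k (vecs p e) p) t = dt p (rt k e t) := by
  obtain ⟨a, b, c⟩ := t
  rw [rt, dt_eq, dt_eq]
  simp only [vecs_dup]

variable {k} {T : Set (Trip κ)} {T' : Set (Trip (Oth k))} {e : Fin 4 ⊕ Oth k}

lemma cond_dup (h1 : ∀ t, t ∈ T ↔ rt k e t ∈ T') {p : Oth k → Fin 3 → C} (hp : Cond T' p) :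
    Cond T (exv k (vecs p e) p) := by
  refine ⟨fun t ht => ?_, fun t ht => ?_⟩
  · rw [dt_dup, hp.1 _ fun h => ht ((h1 t).2 h)]
  · rw [dt_dup]
    exact hp.2 _ ((h1 t).1 ht)

lemma norm_dup (h1 : ∀ t, t ∈ T ↔ rt k e t ∈ T') (hT' : FP T') {p : Oth k → Fin 3 → C}
    (hp : ∀ j, p j (lastX T' (Sum.inr j)) = 1) (j : κ) :
    exv k (vecs p e) p j (lastX T (Sum.inr j)) = 1 := by
  have h2 : vecs (exv k (vecs p e) p) (Sum.inr j) (lastX T (Sum.inr j)) = 1 := by
    rw [vecs_dup, lastX_rep h1]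
    exact norm_all hT' hp _
  exact h2

lemma norm_res (h1 : ∀ t, t ∈ T ↔ rt k e t ∈ T') {q : κ → Fin 3 → C}
    (hq : ∀ j, q j (lastX T (Sum.inr j)) = 1) (j : Oth k) :
    q j.1 (lastX T' (Sum.inr j)) = 1 := by
  have h2 : lastX T' (Sum.inr j) = lastX T (Sum.inr j.1) := by
    rw [lastX_rep h1]
    congr 1
    exact (rep_up k e (Sum.inr j)).symm
  rw [h2]
  exact hq j.1

lemma dup_right (h1 : ∀ t, t ∈ T ↔ rt k e t ∈ T') (h2 : ∀ a, (a, e, e) ∉ T') (hT : FP T)
    {q : κ → Fin 3 → C} (hq : Cond T q) (hn : ∀ j, q j (lastX T (Sum.inr j)) = 1) :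
    exv k (vecs (fun j : Oth k => q j.1) e) (fun j => q j.1) = q := by
  have h3 : vecs q (up k e) = q k := by
    funext d
    have h8 := cross q (up k e) (Sum.inr k) (fun a => hq.1 _ (par_mem k h1 h2 a))
      (lastX T (Sum.inr k)) d
    have h8' : vecs q (up k e) (lastX T (Sum.inr k)) * q k d =
      vecs q (up k e) d * q k (lastX T (Sum.inr k)) := h8
    have h9 : lastX T (Sum.inr k) = lastX T (up k e) := by
      rw [lastX_rep h1, lastX_rep h1, rep_k, rep_up]
    rw [hn k, mul_one, h9, norm_all hT hn, one_mul] at h8'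
    exact h8'.symm
  rw [vecs_res, h3]
  exact exv_eta k q

lemma exv_dup_map {D : Type} [CommRing D] (f : C →+* D) (p : Oth k → Fin 3 → C) :
    exv k (vecs (fun j c => f (p j c)) e) (fun j c => f (p j c)) =
      fun j d => f (exv k (vecs p e) p j d) := by
  funext j d
  rw [← exv_map]
  congr 1
  funext d
  rw [vecs_map]

/-- A point that is equal to another one can be removed. -/
noncomputable def dupIso (h1 : ∀ t, t ∈ T ↔ rt k e t ∈ T') (h2 : ∀ a, (a, e, e) ∉ T') (hT : FP T)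
    (hT' : FP T') : PIso (NConf (Oth k) T') (NConf κ T) where
  fwd p := ⟨exv k (vecs p.1 e) p.1, cond_dup h1 p.2.1, norm_dup h1 hT' p.2.2⟩
  bwd q := ⟨fun j => q.1 j.1, cond_res k (mem_tm k h1) q.2.1, norm_res h1 q.2.2⟩
  left p := Subtype.ext (funext fun j => exv_val k _ _ j)
  right q := Subtype.ext (dup_right h1 h2 hT q.2.1 q.2.2)
  nat f p := Subtype.ext (exv_dup_map f p.1)

/-- Renaming the vectors. -/
noncomputable def nconfRename {κ κ' : Type} (e : κ' ≃ κ) (T : Set (Trip κ)) :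
    PIso (NConf κ' (tm e ⁻¹' T)) (NConf κ T) where
  fwd p := ⟨fun k => p.1 (e.symm k), by
    have h : ∀ t : Trip κ, dt (fun k => p.1 (e.symm k)) t = dt p.1 (tm e.symm t) :=
      fun t => dt_comp e.symm p.1 t
    have h2 : ∀ t : Trip κ, tm e (tm e.symm t) = t := by
      rintro ⟨a, b, c⟩
      simp only [tm, Sum.map_map]
      simp
    refine ⟨⟨fun t ht => ?_, fun t ht => ?_⟩, fun k => ?_⟩
    · rw [h]
      exact p.2.1.1 _ (by
        intro h3
        rw [Set.mem_preimage, h2] at h3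
        exact ht h3)
    · rw [h]
      exact p.2.1.2 _ (by rw [Set.mem_preimage, h2]; exact ht)
    · have h3 := p.2.2 (e.symm k)
      rw [lastX_tm, Sum.map_inr, e.apply_symm_apply] at h3
      exact h3⟩
  bwd q := ⟨fun k => q.1 (e k), by
    have h : ∀ t : Trip κ', dt (fun k => q.1 (e k)) t = dt q.1 (tm e t) :=
      fun t => dt_comp e q.1 t
    refine ⟨⟨fun t ht => ?_, fun t ht => ?_⟩, fun k => ?_⟩
    · rw [h]
      exact q.2.1.1 _ ht
    · rw [h]
      exact q.2.1.2 _ ht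
    · rw [lastX_tm, Sum.map_inr]
      exact q.2.2 (e k)⟩
  left p := by
    apply Subtype.ext
    funext k
    change p.1 (e.symm (e k)) = p.1 k
    rw [e.symm_apply_apply]
  right q := by
    apply Subtype.ext
    funext k
    change q.1 (e (e.symm k)) = q.1 k
    rw [e.apply_symm_apply]
  nat _ _ := rfl

end

section

variable {R : Type} [CommRing R] {sep : Prop} {P : Sch R → Prop}

lemma field_pointN {κ : Type} (T : Set (Trip κ))
    (h : ¬ ∀ (C : Type) [CommRing C], Nonempty ((NConf κ T).pts C) → Subsingleton C) :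
    ∃ (K : Type) (_ : Field K) (q : κ → Fin 3 → K), (∀ t, t ∈ T ↔ dt q t ≠ 0) ∧
      ∀ k, q k (lastX T (Sum.inr k)) = 1 := by
  push Not at h
  obtain ⟨C, iC, ⟨p⟩, hC⟩ := h
  obtain ⟨m, hm⟩ := Ideal.exists_maximal C
  let _ : Field (C ⧸ m) := Ideal.Quotient.field m
  let q : κ → Fin 3 → C ⧸ m := fun k c => Ideal.Quotient.mk m (p.1 k c)
  have hq : ∀ t, dt q t = Ideal.Quotient.mk m (dt p.1 t) := dt_map _ _
  refine ⟨C ⧸ m, inferInstance, q, fun t => ?_, fun k => ?_⟩
  · rw [hq]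
    constructor
    · intro ht
      exact ((p.2.1.2 t ht).map (Ideal.Quotient.mk m)).ne_zero
    · intro h1
      by_contra ht
      rw [p.2.1.1 t ht, map_zero] at h1
      exact h1 rfl
  · change Ideal.Quotient.mk m (p.1 k _) = 1
    rw [p.2.2 k, map_one]

lemma holds_simpleN (h : ∀ (n : ℕ) (M : Matroid (Fin 4 ⊕ Fin n)), Framed M → IsSimple M →
    P (modS R M)) {κ : Type} [Finite κ] {K : Type} [Field K] (q : κ → Fin 3 → K) (T : Set (Trip κ))
    (hT : ∀ t, t ∈ T ↔ dt q t ≠ 0)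
    (hs : ∀ e f : Fin 4 ⊕ κ, e ≠ f → LinearIndepOn K (vecs q) {e, f}) : Holds P (NConf κ T) := by
  obtain ⟨n, ⟨e⟩⟩ := Finite.exists_equiv_fin κ
  let r : Fin n → Fin 3 → K := fun j => q (e.symm j)
  have hr : ∀ x, vecs r x = vecs q (Sum.map id e.symm x) := fun x => vecs_comp e.symm q x
  have hr2 : ∀ t, dt r t = dt q (tm e.symm t) := fun t => dt_comp e.symm q t
  have hM : IsSimple (matM (vecs r)) := by
    intro x y hxy
    rw [matM_indep, LinearIndepOn.pair_iff _ hxy]
    have h1 : (Sum.map id e.symm x : Fin 4 ⊕ κ) ≠ Sum.map id e.symm y := by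
      intro h2
      exact hxy ((Sum.map_injective.2 ⟨Function.injective_id, e.symm.injective⟩) h2)
    have h2 := hs _ _ h1
    rw [LinearIndepOn.pair_iff _ h1] at h2
    rw [hr, hr]
    exact h2
  have h3 := holds_of_modT (h n (matM (vecs r)) (framed_matM r) hM)
  have h4 : {t : Trip (Fin n) | (matM (vecs r)).IsBase (elts t)} = tm e.symm ⁻¹' T := by
    ext t
    rw [Set.mem_ofPred_eq, base_iff, hr2, Set.mem_preimage, hT]
  rw [h4] at h3
  exact h3.congr (nconfRename e.symm T)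

/-- **Reduction to simple matroids.** -/
theorem holds_NConf (hP : Cut sep P)
    (h : ∀ (n : ℕ) (M : Matroid (Fin 4 ⊕ Fin n)), Framed M → IsSimple M → P (modS R M)) :
    ∀ (m : ℕ) (κ : Type) [Finite κ], Nat.card κ = m → ∀ T : Set (Trip κ), Holds P (NConf κ T) := by
  intro m
  induction m using Nat.strong_induction_on with
  | _ m ih =>
    intro κ _ hm T
    by_cases he : ∀ (C : Type) [CommRing C], Nonempty ((NConf κ T).pts C) → Subsingleton C
    · exact emptyC hP (hasRep_NConf T) he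
    · obtain ⟨K, iK, q, hT, hn⟩ := field_pointN T he
      by_cases hs : ∀ e f : Fin 4 ⊕ κ, e ≠ f → LinearIndepOn K (vecs q) {e, f}
      · exact holds_simpleN h q T hT hs
      · push Not at hs
        obtain ⟨e, f, hef, hdep⟩ := hs
        obtain ⟨k, hk⟩ := dep_cases q hef hdep
        have hlt : Nat.card (Oth k) < m := by
          rw [← hm]
          exact Finite.card_subtype_lt (x := k) (fun h => h rfl)
        let T' : Set (Trip (Oth k)) := tm Subtype.val ⁻¹' T
        have hT' : ∀ t, t ∈ T' ↔ dt (fun j : Oth k => q j.1) t ≠ 0 := by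
          intro t
          change tm Subtype.val t ∈ T ↔ _
          rw [hT, ← dt_comp]
        have h1 : Holds P (NConf (Oth k) T') := ih _ hlt (Oth k) rfl T'
        rcases hk with hk | ⟨e', he', hv, l, hl, hk⟩
        · exfalso
          have h2 := hn k
          rw [hk] at h2
          exact zero_ne_one h2
        · obtain ⟨e, rfl⟩ : ∃ e, e' = up k e := by
            rcases cases_up k e' with h2 | h2
            · exact absurd h2 he'
            · exact h2
          refine h1.congr (dupIso (e := e) (fun t => ?_) (fun a => ?_) ⟨K, iK, q, hT⟩ ⟨K, iK, _, hT'⟩)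
          · rw [hT, hT']
            exact rt_iff k q e hl hk t
          · rw [hT', not_not, dt_eq]
            ring

end

end Pool.Agent.Helper13.RM
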