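import Pool.Agent.Helper13.RM.NSimple

/-!
# Systems of additions and multiplications as configurations of normalised vectors
-/

set_option autoImplicit false

open CategoryTheory AlgebraicGeometry Pool.Agent.Y116.UV Pool.Agent.Q282.UK Pool.Agent.Helper3.GU

namespace Pool.Agent.Helper13.RM

/-- The solutions of a system such that the values of the variables in `o` are one. -/
def SysO {I : Type} (S : Sys I) (o : Set I) : PF :=
  (SysF S).sub (fun t => ∀ i ∈ o, t.1 i = 1) (fun f t h i hi => by
    change f (t.1 i) = 1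
    rw [h i hi, map_one])

section

variable {R : Type} [CommRing R] {sep : Prop} {P : Sch R → Prop} {I : Type} (S : Sys I) (o : Set I)

/-- the conditions that the values are one -/
def oneF (i : o) : NF (SysF S) := ⟨fun t => t.1 i.1 - 1, fun f t => by
  change f _ - 1 = f _
  rw [map_sub, map_one]⟩

/-- the values are one -/
def oneIso : PIso ((SysF S).zeros (oneF S o)) (SysO S o) where
  fwd p := ⟨p.1, fun i hi => sub_eq_zero.mp (p.2 ⟨i, hi⟩)⟩
  bwd q := ⟨q.1, fun i => sub_eq_zero.mpr (q.2 i.1 i.2)⟩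
  left _ := rfl
  right _ := rfl
  nat _ _ := rfl

lemma hasRep_SysO [Finite I] : HasRep R (SysO S o) := ((hasRep_Sys S).zeros _).congr (oneIso S o)

variable {C : Type} [CommRing C]

/-- the vectors of a solution -/
abbrev ve (t : I → C) : KI I → Fin 3 → C := vec t fun _ => 1

/-- the determinants as functions of the solution -/
def gS (x : Trip (KI I)) : NF (SysO S o) := ⟨fun t => dt (ve t.1.1) x, fun f t => by
  rw [← dt_map]
  congr 1
  funext k c
  rw [← vec_nat]
  simp only [map_one]
  rfl⟩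

/-- The condition for a value to be one. -/
lemma dt_one (t : I → C) (i : I) : dt (ve t) (fr 1, vv i 0, fr 3) = 1 - t i := by
  rw [dt_eq]
  simp [vecs, vec, frame]

/-- The conditions are consistent. -/
structure Cons (T : Set (Trip (KI I))) : Prop where
  zt : ∀ x, ZT S x → x ∉ T
  ut : ∀ x, UT x → x ∈ T
  one : ∀ i ∈ o, (fr 1, vv i 0, fr 3) ∉ T

variable {S o}

lemma lastX_two {κ : Type} {T : Set (Trip κ)} {x : Fin 4 ⊕ κ}
    (h : (Sum.inl 0, Sum.inl 1, x) ∈ T) : lastX T x = 2 := by
  classical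
  rw [lastX, if_pos h]

lemma lastX_one {κ : Type} {T : Set (Trip κ)} {x : Fin 4 ⊕ κ}
    (h : (Sum.inl 0, Sum.inl 1, x) ∉ T) (h2 : (Sum.inl 0, Sum.inl 2, x) ∈ T) :
    lastX T x = 1 := by
  classical
  rw [lastX, if_neg h, if_pos h2]

lemma lastX_ci {T : Set (Trip (KI I))} (hT : Cons S o T) (k : KI I) :
    lastX T (Sum.inr k) = ci k := by
  rcases k with _ | ⟨i, a⟩
  · exact lastX_one (hT.zt _ ZT.w1) (hT.ut _ UT.w)
  · fin_cases a
    · exact lastX_two (hT.ut _ (UT.p i))
    · exact lastX_two (hT.ut _ (UT.q i))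
    · exact lastX_one (hT.zt _ (ZT.d1 i)) (hT.ut _ (UT.d i))
    · exact lastX_two (hT.ut _ (UT.r i))

lemma ve_ci (t : I → C) (k : KI I) : ve t k (ci k) = 1 := vec_ci t (fun _ => 1) k

lemma hz_of {T : Set (Trip (KI I))} (hT : Cons S o T) {p : KI I → Fin 3 → C} (hp : Cond T p) :
    ∀ x, ZT S x → dt p x = 0 := fun x hx => hp.1 x (hT.zt x hx)

lemma hu_of {T : Set (Trip (KI I))} (hT : Cons S o T) {p : KI I → Fin 3 → C} (hp : Cond T p) :
    ∀ x, UT x → IsUnit (dt p x) := fun x hx => hp.2 x (hT.ut x hx)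

lemma ve_val {T : Set (Trip (KI I))} (hT : Cons S o T) {p : KI I → Fin 3 → C} (hp : Cond T p)
    (hn : ∀ k, p k (lastX T (Sum.inr k)) = 1) : ve (val (hu_of hT hp)) = p := by
  have h := vec_val (hu_of hT hp) (hz_of hT hp)
  have h1 : (fun k => p k (ci k)) = fun _ => 1 := by
    funext k
    rw [← lastX_ci hT k]
    exact hn k
  rw [h1] at h
  exact h

lemma val_one {T : Set (Trip (KI I))} (hT : Cons S o T) {p : KI I → Fin 3 → C} (hp : Cond T p)
    (hn : ∀ k, p k (lastX T (Sum.inr k)) = 1) (i : I) (hi : i ∈ o) :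
    val (hu_of hT hp) i = 1 := by
  have h := hp.1 _ (hT.one i hi)
  rw [← ve_val hT hp hn, dt_one] at h
  exact (sub_eq_zero.mp h).symm

lemma val_ve {p : I → C} (hp : ∀ x, UT x → IsUnit (dt (ve p) x)) (i : I) : val hp i = p i := by
  have h := val_mul hp i
  change (1 : C) * val hp i = 1 * p i at h
  rwa [one_mul, one_mul] at h

/-- A stratum of the solutions as normalised configurations. -/
noncomputable def consIso {T : Set (Trip (KI I))} (hT : Cons S o T) :
    PIso (pat (SysO S o) (gS S o) Tᶜ T) (NConf (KI I) T) where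
  fwd t := ⟨ve t.1.1.1, t.2, fun k => by rw [lastX_ci hT]; exact ve_ci _ k⟩
  bwd p := ⟨⟨⟨val (hu_of hT p.2.1), val_sys (hu_of hT p.2.1) (hz_of hT p.2.1)⟩,
    val_one hT p.2.1 p.2.2⟩, by
      have h := ve_val hT p.2.1 p.2.2
      refine ⟨fun x hx => ?_, fun x hx => ?_⟩
      · change dt (ve (val (hu_of hT p.2.1))) x = 0
        rw [h]
        exact p.2.1.1 x hx
      · change IsUnit (dt (ve (val (hu_of hT p.2.1))) x)
        rw [h]
        exact p.2.1.2 x hx⟩
  left t := by
    apply Subtype.ext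
    apply Subtype.ext
    apply Subtype.ext
    funext i
    exact val_ve (p := t.1.1.1) (fun x hx => t.2.2 x (hT.ut x hx)) i
  right p := Subtype.ext (ve_val hT p.2.1 p.2.2)
  nat f t := by
    apply Subtype.ext
    funext k c
    change ve (fun i => f (t.1.1.1 i)) k c = f (ve t.1.1.1 k c)
    rw [← vec_nat]
    simp only [map_one]

/-- If `P` is true for all normalised configurations then it is true for all systems. -/
theorem holds_SysO [Finite I] (hP : Cut sep P)
    (h : ∀ T : Set (Trip (KI I)), Holds P (NConf (KI I) T)) : Holds P (SysO S o) := by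
  refine holds_of_pat hP (hasRep_SysO S o) (gS S o) fun T => ?_
  by_cases hT : Cons S o T
  · exact (h T).congr (consIso hT).symm
  · refine emptyC hP (hasRep_pat (hasRep_SysO S o) (gS S o) _ _) ?_
    rintro C _ ⟨t⟩
    by_contra hC
    have hC' : Nontrivial C := not_subsingleton_iff_nontrivial.mp hC
    refine hT ⟨fun x hx h1 => ?_, fun x hx => ?_, fun i hi h1 => ?_⟩
    · have h2 := t.2.2 x h1
      have h3 : (gS S o x).fn t.1 = 0 := zt_vec t.1.1.2 _ hx
      rw [h3] at h2
      exact not_isUnit_zero h2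
    · by_contra h1
      have h2 := t.2.1 x h1
      have h3 : IsUnit ((gS S o x).fn t.1) := ut_vec t.1.1.1 (fun _ => 1) hx
      rw [h2] at h3
      exact not_isUnit_zero h3
    · have h2 := t.2.2 _ h1
      have h3 : (gS S o (fr 1, vv i 0, fr 3)).fn t.1 = 0 := by
        change dt (ve t.1.1.1) _ = 0
        rw [dt_one, t.1.2 i hi, sub_self]
      rw [h3] at h2
      exact not_isUnit_zero h2

end

end Pool.Agent.Helper13.RM
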