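import Pool.Agent.Helper13.RM.Pt

/-!
# Cutting with open pieces of integral schemes
-/

set_option autoImplicit false

open CategoryTheory AlgebraicGeometry Pool.Agent.Y116.UV Pool.Agent.Q282.UK Pool.Agent.Helper3.GU

namespace Pool.Agent.Helper13.RM

/-- A reduced noetherian ring has an integral open piece. -/
lemma exists_domain_piece (A : Type) [CommRing A] [IsNoetherianRing A] [Nontrivial A] [IsReduced A] :
    ∃ a : A, IsDomain (Localization.Away a) := by
  classical
  have hfin : (minimalPrimes A).Finite := minimalPrimes.finite_of_isNoetherianRing A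
  obtain ⟨⟨p, hp⟩⟩ : Nonempty (⊥ : Ideal A).minimalPrimes :=
    Ideal.nonempty_minimalPrimes bot_ne_top
  have hpp : p.IsPrime := hp.1.1
  let s : Finset (Ideal A) := hfin.toFinset.erase p
  have h1 : ¬ s.inf id ≤ p := by
    intro h
    obtain ⟨q, hq, hqp⟩ := hpp.inf_le'.1 h
    rw [Finset.mem_erase, Set.Finite.mem_toFinset] at hq
    have h2 : p ≤ q := hp.2 ⟨hq.2.1.1, bot_le⟩ hqp
    exact hq.1 (le_antisymm hqp h2)
  obtain ⟨a, ha, hap⟩ := SetLike.not_le_iff_exists.1 h1
  have h0 : ∀ x ∈ p, a * x = 0 := by
    intro x hx
    have h3 : a * x ∈ sInf (minimalPrimes A) := by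
      rw [Ideal.mem_sInf]
      intro q hq
      by_cases hqp : q = p
      · rw [hqp]
        exact Ideal.mul_mem_left _ _ hx
      · refine Ideal.mul_mem_right _ _ ?_
        have h4 : s.inf id ≤ q := Finset.inf_le (f := id) (by
          rw [Finset.mem_erase, Set.Finite.mem_toFinset]
          exact ⟨hqp, hq⟩)
        exact h4 ha
    have h5 : sInf (minimalPrimes A) = (⊥ : Ideal A) := by
      have h6 : sInf ((⊥ : Ideal A).minimalPrimes) = (⊥ : Ideal A).radical :=
        Ideal.sInf_minimalPrimes
      have h7 : (⊥ : Ideal A).radical = ⊥ := nilradical_eq_zero A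
      rw [h7] at h6
      exact h6
    rw [h5] at h3
    exact h3
  refine ⟨a, ?_⟩
  have hnt : Nontrivial (Localization.Away a) := by
    refine ⟨⟨0, 1, fun h => hap ?_⟩⟩
    rw [← map_zero (algebraMap A (Localization.Away a)),
      ← map_one (algebraMap A (Localization.Away a))] at h
    obtain ⟨n, hn⟩ := IsLocalization.Away.exists_of_eq (S := Localization.Away a) a h
    rw [mul_zero, mul_one] at hn
    have h8 : a ^ n ∈ p := by
      rw [← hn]
      exact p.zero_mem
    exact hpp.mem_of_pow_mem n h8
  have hz : ∀ x : Localization.Away a, ∀ x' : A, ∀ n : ℕ,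
      x * algebraMap A (Localization.Away a) a ^ n = algebraMap A (Localization.Away a) x' →
      x' ∈ p → x = 0 := by
    intro x x' n h hx
    have hu : IsUnit (algebraMap A (Localization.Away a) a) :=
      IsLocalization.Away.algebraMap_isUnit a
    have h9 : algebraMap A (Localization.Away a) a * algebraMap A (Localization.Away a) x' = 0 := by
      rw [← map_mul, h0 x' hx, map_zero]
    rw [hu.mul_right_eq_zero] at h9
    rw [h9, (hu.pow n).mul_left_eq_zero] at h
    exact h
  have : NoZeroDivisors (Localization.Away a) := by
    refine ⟨fun {x y} hxy => ?_⟩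
    obtain ⟨n, x', hx⟩ := IsLocalization.Away.surj a x
    obtain ⟨m, y', hy⟩ := IsLocalization.Away.surj a y
    have h10 : algebraMap A (Localization.Away a) (x' * y') = algebraMap A (Localization.Away a) 0 := by
      rw [map_mul, ← hx, ← hy, map_zero, mul_mul_mul_comm, hxy, zero_mul]
    obtain ⟨l, hl⟩ := IsLocalization.Away.exists_of_eq (S := Localization.Away a) a h10
    have h11 : a ^ l * (x' * y') ∈ p := by
      rw [hl, mul_zero]
      exact p.zero_mem
    rcases hpp.mem_or_mem h11 with h | h
    · exact absurd (hpp.mem_of_pow_mem l h) hap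
    · rcases hpp.mem_or_mem h with h | h
      · exact Or.inl (hz x x' n hx h)
      · exact Or.inr (hz y y' m hy h)
  exact NoZeroDivisors.to_isDomain _

section

variable {R : Type} [CommRing R] {sep : Prop} {P : Sch R → Prop}

lemma range_loc {B : Type} [CommRing B] [Algebra R B] (w : B) :
    Set.range (affMap (IsScalarTower.toAlgHom R B (Localization.Away w))).left =
      (PrimeSpectrum.basicOpen w : Set (PrimeSpectrum B)) :=
  PrimeSpectrum.localization_away_comap_range _ w

/-- **Noetherian induction with open pieces of integral schemes.** -/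
theorem noethO [IsNoetherianRing R] (hP : Cut sep P)
    (h : ∀ (B : Type) [CommRing B] [Algebra R B] [Algebra.FiniteType R B] [IsDomain B],
      ∃ (U : Sch R) (j : U ⟶ aff R B), IsOpenImmersion j.left ∧ Nonempty U.left ∧ P U)
    (A : Type) [CommRing A] [Algebra R A] [Algebra.FiniteType R A] (I : Ideal A) :
    ∀ (B : Type) [CommRing B] [Algebra R B] (f : A →ₐ[R] B), Function.Surjective f →
      RingHom.ker f = I → P (aff R B) := by
  have hN : IsNoetherianRing A := Algebra.FiniteType.isNoetherianRing R A
  induction I using IsNoetherian.induction with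
  | _ I ih =>
    intro B _ _ f hf hI
    have hBN : IsNoetherianRing B := isNoetherianRing_of_surjective A B f hf
    have hBF : Algebra.FiniteType R B := Algebra.FiniteType.of_surjective f hf
    have key : ∀ (C : Type) [CommRing C] [Algebra R C] (g : B →ₐ[R] C), Function.Surjective g →
        (∃ x, x ≠ 0 ∧ g x = 0) → P (aff R C) := by
      intro C _ _ g hg ⟨x, hx, hgx⟩
      refine ih (RingHom.ker (g.comp f)) ?_ C (g.comp f) (hg.comp hf) rfl
      refine lt_of_le_of_ne ?_ ?_
      · rw [← hI]
        intro y hy
        rw [RingHom.mem_ker] at hy ⊢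
        rw [AlgHom.comp_apply, hy, map_zero]
      · intro hne
        obtain ⟨y, rfl⟩ := hf x
        apply hx
        have : y ∈ RingHom.ker (g.comp f) := by
          rw [RingHom.mem_ker]
          exact hgx
        rw [← hne, ← hI] at this
        exact this
    rcases subsingleton_or_nontrivial B with hB | hB
    · refine hP.empty _ ?_
      change IsEmpty (PrimeSpectrum B)
      infer_instance
    by_cases hr : IsReduced B
    · obtain ⟨a, ha⟩ := exists_domain_piece B
      obtain ⟨U, j, h1, h2, h3⟩ := h (Localization.Away a)
      let j' : aff R (Localization.Away a) ⟶ aff R B :=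
        affMap (IsScalarTower.toAlgHom R B (Localization.Away a))
      have hj' : IsOpenImmersion j'.left :=
        Scheme.isOpenImmersion_SpecMap_localizationAway (R := .of B) a
      have hj : IsOpenImmersion (j ≫ j').left := by
        change IsOpenImmersion (j.left ≫ j'.left)
        infer_instance
      let C : Set (PrimeSpectrum B) := (Set.range (j ≫ j').left)ᶜ
      have hC : IsClosed C := (Scheme.Hom.isOpenEmbedding (j ≫ j').left).isOpen_range.isClosed_compl
      let J : Ideal B := PrimeSpectrum.vanishingIdeal C
      have hJ : PrimeSpectrum.zeroLocus (J : Set B) = C := by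
        rw [PrimeSpectrum.zeroLocus_vanishingIdeal_eq_closure, hC.closure_eq]
      have hrange : Set.range (affMap (Ideal.Quotient.mkₐ R J)).left = C := by
        rw [range_affMap _ (Ideal.Quotient.mkₐ_surjective R J), ← hJ]
        ext x
        rw [PrimeSpectrum.mem_zeroLocus]
        constructor
        · intro h4 y hy
          exact h4 y (Ideal.Quotient.eq_zero_iff_mem.2 hy)
        · intro h4 y hy
          exact h4 (Ideal.Quotient.eq_zero_iff_mem.1 hy)
      refine hP.total (affMap (Ideal.Quotient.mkₐ R J)) (j ≫ j') (ft_aff sep)
        ⟨closed_affMap _ (Ideal.Quotient.mkₐ_surjective R J), hj, hrange⟩ ?_ h3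
      refine key _ _ (Ideal.Quotient.mkₐ_surjective R J) ?_
      by_contra hcon
      have hbot : J = ⊥ := by
        rw [eq_bot_iff]
        intro x hx
        by_contra hx0
        exact hcon ⟨x, hx0, Ideal.Quotient.eq_zero_iff_mem.2 hx⟩
      obtain ⟨u⟩ := h2
      have h5 : (j ≫ j').left u ∈ C := by
        rw [← hJ, hbot, PrimeSpectrum.zeroLocus_bot]
        exact Set.mem_univ _
      exact h5 ⟨u, rfl⟩
    · have h4 : IsEmpty (aff R (Localization.Away (0 : B))).left := by
        have h5 : Subsingleton (Localization.Away (0 : B)) := by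
          have h6 : IsUnit (algebraMap B (Localization.Away (0 : B)) 0) :=
            IsLocalization.Away.algebraMap_isUnit 0
          rw [map_zero, isUnit_zero_iff] at h6
          exact subsingleton_of_zero_eq_one h6
        change IsEmpty (PrimeSpectrum (Localization.Away (0 : B)))
        infer_instance
      refine hP.total (affMap (Ideal.Quotient.mkₐ R (nilradical B)))
        (affMap (IsScalarTower.toAlgHom R B (Localization.Away (0 : B)))) (ft_aff sep)
        ⟨closed_affMap _ (Ideal.Quotient.mkₐ_surjective R _),
          Scheme.isOpenImmersion_SpecMap_localizationAway (R := .of B) 0, ?_⟩ ?_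
        (hP.empty _ h4)
      · rw [range_affMap _ (Ideal.Quotient.mkₐ_surjective R _), range_loc]
        ext x
        simp only [Ideal.Quotient.mkₐ_eq_mk, PrimeSpectrum.basicOpen_zero, Set.mem_setOf_eq]
        constructor
        · intro _ h7
          exact h7
        · intro _ y hy
          rw [Ideal.Quotient.eq_zero_iff_mem] at hy
          have h8 : nilradical B ≤ x.asIdeal := nilradical_le_prime _
          exact h8 hy
      · refine key _ _ (Ideal.Quotient.mkₐ_surjective R _) ?_
        rw [isReduced_iff] at hr
        push Not at hr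
        obtain ⟨x, hx, hx0⟩ := hr
        exact ⟨x, hx0, Ideal.Quotient.eq_zero_iff_mem.2 hx⟩

/-- A property closed under cutting is true for all schemes of finite type if it is true for an open
piece of each integral affine scheme of finite type. -/
theorem of_pieces [IsNoetherianRing R] (hP : Cut sep P)
    (h : ∀ (B : Type) [CommRing B] [Algebra R B] [Algebra.FiniteType R B] [IsDomain B],
      ∃ (U : Sch R) (j : U ⟶ aff R B), IsOpenImmersion j.left ∧ Nonempty U.left ∧ P U)
    (X : Sch R) (hX : FT sep X) : P X :=
  of_affine' hP.iso hP.total (fun A _ _ _ =>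
    noethO hP h A ⊥ A (AlgHom.id R A) Function.surjective_id (by
      rw [← RingHom.injective_iff_ker_eq_bot]
      exact Function.injective_id)) X hX

end

end Pool.Agent.Helper13.RM
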