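import Pool.Agent.Helper13.RM.FieldM

/-!
# Cutting algebras by one element

Properties of algebras `A` of finite type which follow for `A` from the same property of `A/w` and of the
localization `A_w`.
-/

set_option autoImplicit false

open CategoryTheory AlgebraicGeometry Pool.Agent.Y116.UV Pool.Agent.Q282.UK Pool.Agent.Helper3.GU

namespace Pool.Agent.Helper13.RM

/-- The property `P` of algebras of finite type over `R` is true for the zero ring, invariant under
isomorphisms, true for the localizations `A_b` if it is true for `A`, and true for `A` if it is true for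
`A/w` and `A_w`. -/
structure PCut (R : Type) [CommRing R] (P : ∀ (A : Type) [CommRing A] [Algebra R A], Prop) :
    Prop where
  iso : ∀ {A B : Type} [CommRing A] [Algebra R A] [CommRing B] [Algebra R B],
    Algebra.FiniteType R A → Nonempty (A ≃ₐ[R] B) → P A → P B
  zero : ∀ (A : Type) [CommRing A] [Algebra R A], Subsingleton A → P A
  loc : ∀ (A : Type) [CommRing A] [Algebra R A] (b : A), Algebra.FiniteType R A → P A →
    P (Localization.Away b)
  cut : ∀ (A : Type) [CommRing A] [Algebra R A] (w : A), Algebra.FiniteType R A →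
    P (A ⧸ Ideal.span {w}) → P (Localization.Away w) → P A

/-! ### Localizations of quotients -/

section

variable {R : Type} [CommRing R] {A : Type} [CommRing A] [Algebra R A]

/-- If `x y = 0` then `A_x` is the localization of `A/y` at `x`. -/
lemma isLocalization_quotient (x y : A) (h : x * y = 0) :
    IsLocalization.Away x (Localization.Away (Ideal.Quotient.mk (Ideal.span {y}) x)) := by
  let Q := A ⧸ Ideal.span {y}
  let x' : Q := Ideal.Quotient.mk (Ideal.span {y}) x
  have ht : ∀ a : A, algebraMap A (Localization.Away x') a =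
      algebraMap Q (Localization.Away x') (Ideal.Quotient.mk _ a) := fun a =>
    IsScalarTower.algebraMap_apply A Q (Localization.Away x') a
  refine IsLocalization.Away.mk x ?_ ?_ ?_
  · rw [ht]
    exact IsLocalization.Away.algebraMap_isUnit x'
  · intro z
    obtain ⟨n, q, hq⟩ := IsLocalization.Away.surj x' z
    obtain ⟨a, rfl⟩ := Ideal.Quotient.mk_surjective q
    exact ⟨n, a, by rw [ht, ht]; exact hq⟩
  · intro a b hab
    rw [ht, ht] at hab
    obtain ⟨n, hn⟩ := IsLocalization.Away.exists_of_eq (S := Localization.Away x') x' hab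
    rw [← map_pow, ← map_mul, ← map_mul, Ideal.Quotient.eq, Ideal.mem_span_singleton] at hn
    obtain ⟨c, hc⟩ := hn
    refine ⟨n + 1, ?_⟩
    rw [← sub_eq_zero]
    have h1 : x ^ (n + 1) * a - x ^ (n + 1) * b = x * (x ^ n * a - x ^ n * b) := by ring
    rw [h1, hc, ← mul_assoc, h, zero_mul]

lemma equiv_quotient (x y : A) (h : x * y = 0) :
    Nonempty (Localization.Away (Ideal.Quotient.mk (Ideal.span {y}) x) ≃ₐ[R] Localization.Away x) := by
  have := isLocalization_quotient x y h
  exact ⟨((IsLocalization.algEquiv (Submonoid.powers x) (Localization.Away x)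
    (Localization.Away (Ideal.Quotient.mk (Ideal.span {y}) x))).symm).restrictScalars R⟩

end

/-! ### Noetherian induction -/

section

variable {R : Type} [CommRing R] {P : ∀ (A : Type) [CommRing A] [Algebra R A], Prop}

/-- **Noetherian induction.** The property is true for all algebras of finite type of dimension at most
`d` if it is true for a localization `B_b`, `b ≠ 0`, of each domain `B` of dimension at most `d`. -/
theorem noethP [IsNoetherianRing R] (hP : PCut R P) (d : WithBot ℕ∞)
    (h : ∀ (B : Type) [CommRing B] [Algebra R B] [Algebra.FiniteType R B] [IsDomain B],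
      ringKrullDim B ≤ d → ∃ b : B, b ≠ 0 ∧ P (Localization.Away b))
    (A : Type) [CommRing A] [Algebra R A] [Algebra.FiniteType R A] (hd : ringKrullDim A ≤ d)
    (I : Ideal A) :
    ∀ (B : Type) [CommRing B] [Algebra R B] (f : A →ₐ[R] B), Function.Surjective f →
      RingHom.ker f = I → P B := by
  have hN : IsNoetherianRing A := Algebra.FiniteType.isNoetherianRing R A
  induction I using IsNoetherian.induction with
  | _ I ih =>
    intro B _ _ f hf hI
    have hBF : Algebra.FiniteType R B := Algebra.FiniteType.of_surjective f hf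
    have key : ∀ x : B, x ≠ 0 → P (B ⧸ Ideal.span {x}) := by
      intro x hx
      let g : B →ₐ[R] B ⧸ Ideal.span {x} := Ideal.Quotient.mkₐ R _
      have hg : Function.Surjective g := Ideal.Quotient.mkₐ_surjective R _
      have hgx : g x = 0 := Ideal.Quotient.eq_zero_iff_mem.2 (Ideal.mem_span_singleton_self x)
      refine ih (RingHom.ker (g.comp f)) ?_ _ (g.comp f) (hg.comp hf) rfl
      refine lt_of_le_of_ne ?_ ?_
      · rw [← hI]
        intro y hy
        rw [RingHom.mem_ker] at hy ⊢
        rw [AlgHom.comp_apply, hy, map_zero]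
      · intro hne
        obtain ⟨y, rfl⟩ := hf x
        apply hx
        have : y ∈ RingHom.ker (g.comp f) := by
          rw [RingHom.mem_ker]
          exact hgx
        rw [← hne, ← hI] at this
        exact this
    rcases subsingleton_or_nontrivial B with hB | hB
    · exact hP.zero B hB
    by_cases hr : ∃ x y : B, x ≠ 0 ∧ y ≠ 0 ∧ x * y = 0
    · obtain ⟨x, y, hx, hy, hxy⟩ := hr
      have hQ : Algebra.FiniteType R (B ⧸ Ideal.span {y}) :=
        Algebra.FiniteType.of_surjective (Ideal.Quotient.mkₐ R _) (Ideal.Quotient.mkₐ_surjective R _)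
      refine hP.cut B x hBF (key x hx) ?_
      refine hP.iso (ft_loc _ _) (equiv_quotient x y hxy) ?_
      exact hP.loc _ _ hQ (key y hy)
    · have hdom : IsDomain B := by
        have : NoZeroDivisors B := ⟨fun {x y} hxy => by
          by_contra hcon
          push Not at hcon
          exact hr ⟨x, y, hcon.1, hcon.2, hxy⟩⟩
        exact NoZeroDivisors.to_isDomain B
      have hdB : ringKrullDim B ≤ d :=
        (ringKrullDim_le_of_surjective f.toRingHom hf).trans hd
      obtain ⟨b, hb, hPb⟩ := h B hdB
      exact hP.cut B b hBF (key b hb) hPb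

end

/-! ### Open affine subschemes and localizations -/

section

variable {R : Type} [CommRing R] {B C : Type} [CommRing B] [Algebra R B] [CommRing C] [Algebra R C]

lemma exists_algHom (t : aff R C ⟶ aff R B) : ∃ φ : B →ₐ[R] C, affMap φ = t := by
  obtain ⟨φ, hφ⟩ : ∃ φ : CommRingCat.of B ⟶ CommRingCat.of C, Spec.map φ = t.left :=
    ⟨Spec.preimage t.left, Spec.map_preimage _⟩
  have hk : ∀ a : R, φ.hom (algebraMap R B a) = algebraMap R C a := by
    have h7 : Spec.map φ ≫ Spec.map (CommRingCat.ofHom (algebraMap R B)) =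
        Spec.map (CommRingCat.ofHom (algebraMap R C)) := by
      rw [hφ]
      exact Over.w t
    rw [← Spec.map_comp] at h7
    have h8 := Spec.map_injective h7
    intro a
    exact congrArg (fun f : CommRingCat.of R ⟶ CommRingCat.of C => f.hom a) h8
  refine ⟨{ φ.hom with commutes' := hk }, ?_⟩
  apply Over.OverMorphism.ext
  exact hφ

/-- If `Spec C` is an open subscheme of `Spec B` that contains `D(b)`, then `B_b = C_b`. -/
lemma equiv_of_open (φ : B →ₐ[R] C) (h : IsOpenImmersion (affMap φ).left) (b : B)
    (hb : (PrimeSpectrum.basicOpen b : Set (PrimeSpectrum B)) ⊆ Set.range (affMap φ).left) :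
    Nonempty (Localization.Away (φ b) ≃ₐ[R] Localization.Away b) := by
  let ψ : Localization.Away b →ₐ[R] Localization.Away (φ b) :=
    IsLocalization.Away.mapₐ (Localization.Away b) (Localization.Away (φ b)) φ b
  have hle : Submonoid.powers b ≤ Submonoid.comap φ.toRingHom (Submonoid.powers (φ b)) := by
    rintro _ ⟨n, rfl⟩
    exact ⟨n, (map_pow φ b n).symm⟩
  have hψ : ∀ a : B, ψ (algebraMap B (Localization.Away b) a) =
      algebraMap C (Localization.Away (φ b)) (φ a) := fun a =>
    IsLocalization.map_eq (M := Submonoid.powers b) (T := Submonoid.powers (φ b))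
      (Q := Localization.Away (φ b)) (g := φ.toRingHom) hle a
  let jB : aff R (Localization.Away b) ⟶ aff R B :=
    affMap (IsScalarTower.toAlgHom R B (Localization.Away b))
  let jC : aff R (Localization.Away (φ b)) ⟶ aff R C :=
    affMap (IsScalarTower.toAlgHom R C (Localization.Away (φ b)))
  have hjB : IsOpenImmersion jB.left :=
    Scheme.isOpenImmersion_SpecMap_localizationAway (R := .of B) b
  have hjC : IsOpenImmersion jC.left :=
    Scheme.isOpenImmersion_SpecMap_localizationAway (R := .of C) (φ b)
  have hcomp : affMap ψ ≫ jB = jC ≫ affMap φ := by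
    rw [← affMap_comp, ← affMap_comp]
    congr 1
    ext a
    exact hψ a
  have hcl : (affMap ψ).left ≫ jB.left = jC.left ≫ (affMap φ).left := congrArg (fun f => f.left) hcomp
  have h1 : IsOpenImmersion ((affMap ψ).left ≫ jB.left) := by
    rw [hcl]
    infer_instance
  have h2 : IsOpenImmersion (affMap ψ).left := IsOpenImmersion.of_comp _ jB.left
  have h3 : Surjective (affMap ψ).left := by
    constructor
    intro x
    have hx : jB.left x ∈ (PrimeSpectrum.basicOpen b : Set (PrimeSpectrum B)) := by
      rw [← range_loc (R := R)]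
      exact ⟨x, rfl⟩
    obtain ⟨y, hy⟩ := hb hx
    have hy' : y ∈ Set.range jC.left := by
      have h4 : y ∈ (PrimeSpectrum.basicOpen (φ b) : Set (PrimeSpectrum C)) := by
        have h5 : PrimeSpectrum.comap φ.toRingHom y ∈ PrimeSpectrum.basicOpen b := by
          rw [← hy] at hx
          exact hx
        exact h5
      rw [← range_loc (R := R)] at h4
      exact h4
    obtain ⟨z, rfl⟩ := hy'
    refine ⟨z, ?_⟩
    apply (Scheme.Hom.isOpenEmbedding jB.left).injective
    rw [← Scheme.Hom.comp_apply, hcl, Scheme.Hom.comp_apply]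
    exact hy
  have h6 : IsIso (affMap ψ).left := (isIso_iff_isOpenImmersion_and_surjective _).2 ⟨h2, h3⟩
  have h7 : IsIso (Spec.map (CommRingCat.ofHom ψ.toRingHom)) := h6
  have h9 : Function.Bijective ψ := isIso_SpecMap_iff.1 h7
  exact ⟨(AlgEquiv.ofBijective ψ h9).symm⟩

/-- A nonempty open affine subscheme of `Spec B`, `B` a domain, has a common localization with `B`. -/
lemma exists_common (j : aff R C ⟶ aff R B) (h : IsOpenImmersion j.left) (hn : Nontrivial C) :
    ∃ (b : B) (c : C), b ≠ 0 ∧ Nonempty (Localization.Away c ≃ₐ[R] Localization.Away b) := by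
  obtain ⟨φ, rfl⟩ := exists_algHom j
  obtain ⟨x⟩ : Nonempty (PrimeSpectrum C) := inferInstance
  have h1 : IsOpen (Set.range (affMap φ).left : Set (PrimeSpectrum B)) :=
    (Scheme.Hom.isOpenEmbedding (affMap φ).left).isOpen_range
  obtain ⟨_, ⟨b, rfl⟩, h2, h3⟩ :=
    PrimeSpectrum.isTopologicalBasis_basic_opens.exists_subset_of_mem_open
      (show (affMap φ).left x ∈ (Set.range (affMap φ).left : Set (PrimeSpectrum B)) from ⟨x, rfl⟩) h1
  refine ⟨b, φ b, ?_, equiv_of_open φ h b h3⟩
  rintro rfl
  have h4 : PrimeSpectrum.comap φ.toRingHom x ∈ PrimeSpectrum.basicOpen (0 : B) := h2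
  rw [PrimeSpectrum.basicOpen_zero] at h4
  exact h4

end

/-! ### Smooth moduli spaces -/

section

variable {k : Type} [Field k] {P : ∀ (A : Type) [CommRing A] [Algebra k A], Prop}

lemma dim_of_open {R : Type} [CommRing R] {X Y : Sch R} (s : X ⟶ Y) (h : IsOpenImmersion s.left) :
    topologicalKrullDim X.left ≤ topologicalKrullDim Y.left :=
  (Scheme.Hom.isOpenEmbedding s.left).isInducing.topologicalKrullDim_le

lemma ringKrullDim_aff {R A : Type} [CommRing R] [CommRing A] [Algebra R A] :
    topologicalKrullDim (aff R A).left = ringKrullDim A :=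
  PrimeSpectrum.topologicalKrullDim_eq_ringKrullDim A

/-- **Smooth moduli spaces are sufficient**, for properties of algebras over `ℚ` and `𝔽_p` that can be
cut by one element. -/
theorem modP_field [PerfectField k] (hP : PCut k P) (hR : Presents ({0, 1} : Set k))
    (d : WithBot ℕ∞) (h : ∀ (n : ℕ) (M : Matroid (Fin 4 ⊕ Fin n)), SmoothMod k d M → P (ModR k M))
    (A : Type) [CommRing A] [Algebra k A] [Algebra.FiniteType k A] (hd : ringKrullDim A ≤ d) :
    P A := by
  refine noethP hP d (fun B _ _ _ _ hB => ?_) A hd ⊥ A (AlgHom.id k A) Function.surjective_id (by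
      rw [← RingHom.injective_iff_ker_eq_bot]
      exact Function.injective_id)
  obtain ⟨w, hw, hs⟩ := generic_smooth_field (k := k) B
  have hdom : IsDomain (Localization.Away w) :=
    IsLocalization.isDomain_localization (powers_le_nonZeroDivisors_of_noZeroDivisors hw)
  have hft : Algebra.FiniteType k (Localization.Away w) := ft_loc _ _
  have hi : IsIntegral (aff k (Localization.Away w)).left := by
    change IsIntegral (Spec (CommRingCat.of (Localization.Away w)))
    rw [affine_isIntegral_iff]
    exact hdom
  obtain ⟨n, M, s, h1, h2, h3, h4⟩ := exists_open_mod (sep := True) hR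
    (aff k (Localization.Away w)) (ft_aff True)
  have hD := isDomain_of_open s h3 h4
  let t := s ≫ affMap (IsScalarTower.toAlgHom k B (Localization.Away w))
  have ht : IsOpenImmersion t.left := by
    have h5 : IsOpenImmersion (affMap (IsScalarTower.toAlgHom k B (Localization.Away w))).left :=
      Scheme.isOpenImmersion_SpecMap_localizationAway (R := .of B) w
    change IsOpenImmersion (s.left ≫ _)
    infer_instance
  have hMd : topologicalKrullDim (modS k M).left ≤ d := by
    refine (dim_of_open t ht).trans ?_
    rw [ringKrullDim_aff]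
    exact hB
  have hM : SmoothMod k d M :=
    ⟨h1, h2, hD, smooth_aff_iff.1 (smooth_of_open s h3 (smooth_aff_iff.2 hs)), hMd⟩
  obtain ⟨b, c, hb, e⟩ := exists_common (C := ModR k M) t ht inferInstance
  have hfM : Algebra.FiniteType k (ModR k M) := ft_loc _ _
  exact ⟨b, hb, hP.iso (ft_loc _ _) e (hP.loc _ c hfM (h n M hM))⟩

end

section

variable {P : ∀ (A : Type) [CommRing A] [Algebra ℤ A], Prop}

/-- **Smooth moduli spaces are sufficient**, for properties of algebras over `ℤ` that can be cut by one
element. -/
theorem modP (hP : PCut ℤ P) (d : WithBot ℕ∞)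
    (h : ∀ (n : ℕ) (M : Matroid (Fin 4 ⊕ Fin n)), SmoothModZ d M → P (ModR ℤ M))
    (A : Type) [CommRing A] [Algebra ℤ A] [Algebra.FiniteType ℤ A] (hd : ringKrullDim A ≤ d) :
    P A := by
  refine noethP hP d (fun B _ _ _ _ hB => ?_) A hd ⊥ A (AlgHom.id ℤ A) Function.surjective_id (by
      rw [← RingHom.injective_iff_ker_eq_bot]
      exact Function.injective_id)
  obtain ⟨w, hw, hs⟩ := generic_smooth B
  have hs := hs 1
  rw [mul_one] at hs
  have hdom : IsDomain (Localization.Away w) :=
    IsLocalization.isDomain_localization (powers_le_nonZeroDivisors_of_noZeroDivisors hw)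
  have hft : Algebra.FiniteType ℤ (Localization.Away w) := ft_loc _ _
  have hi : IsIntegral (aff ℤ (Localization.Away w)).left := by
    change IsIntegral (Spec (CommRingCat.of (Localization.Away w)))
    rw [affine_isIntegral_iff]
    exact hdom
  obtain ⟨n, M, s, h1, h2, h3, h4⟩ := exists_open_mod (sep := True)
    (presents_zero_one (R := ℤ) fun x => ⟨x, rfl⟩)
    (aff ℤ (Localization.Away w)) (ft_aff True)
  have hD := isDomain_of_open s h3 h4
  let t := s ≫ affMap (IsScalarTower.toAlgHom ℤ B (Localization.Away w))
  have ht : IsOpenImmersion t.left := by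
    have h5 : IsOpenImmersion (affMap (IsScalarTower.toAlgHom ℤ B (Localization.Away w))).left :=
      Scheme.isOpenImmersion_SpecMap_localizationAway (R := .of B) w
    change IsOpenImmersion (s.left ≫ _)
    infer_instance
  have hMd : topologicalKrullDim (modS ℤ M).left ≤ d := by
    refine (dim_of_open t ht).trans ?_
    rw [ringKrullDim_aff]
    exact hB
  have hM : SmoothModZ d M := ⟨h1, h2, hD, smoothZ_of_open s h3 hs, hMd⟩
  obtain ⟨b, c, hb, e⟩ := exists_common (C := ModR ℤ M) t ht inferInstance
  have hfM : Algebra.FiniteType ℤ (ModR ℤ M) := ft_loc _ _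
  exact ⟨b, hb, hP.iso (ft_loc _ _) e (hP.loc _ c hfM (h n M hM))⟩

/-- The algebras that are decided by finitely many of the moduli spaces with the property `C`. -/
def PStar (C : Mat → Prop) (A : Type) [CommRing A] [Algebra ℤ A] : Prop :=
  ∃ L : List Mat, (∀ M ∈ L, C M) ∧
    ∀ P : ∀ (A : Type) [CommRing A] [Algebra ℤ A], Prop, PCut ℤ P → (∀ M ∈ L, P (ModR ℤ M.2)) → P A

theorem pcut_star (C : Mat → Prop) : PCut ℤ (fun A _ _ => PStar C A) where
  iso hA e h := by
    obtain ⟨L, hL, h⟩ := h
    exact ⟨L, hL, fun P hP hM => hP.iso hA e (h P hP hM)⟩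
  zero A _ _ hA := ⟨[], fun M hM => absurd hM (by simp), fun P hP _ => hP.zero A hA⟩
  loc A _ _ b hA h := by
    obtain ⟨L, hL, h⟩ := h
    exact ⟨L, hL, fun P hP hM => hP.loc A b hA (h P hP hM)⟩
  cut A _ _ w hA h1 h2 := by
    obtain ⟨L1, hL1, h1⟩ := h1
    obtain ⟨L2, hL2, h2⟩ := h2
    refine ⟨L1 ++ L2, fun M hM => ?_, fun P hP hM => hP.cut A w hA
      (h1 P hP fun M h => hM M (List.mem_append.2 (Or.inl h)))
      (h2 P hP fun M h => hM M (List.mem_append.2 (Or.inr h)))⟩
    rcases List.mem_append.1 hM with h | h
    · exact hL1 M h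
    · exact hL2 M h

/-- **Finitely many smooth moduli spaces** for each algebra. -/
theorem listP (A : Type) [CommRing A] [Algebra ℤ A] [Algebra.FiniteType ℤ A] :
    ∃ L : List Mat, (∀ M ∈ L, SmoothModZ (ringKrullDim A) M.2) ∧
      ∀ P : ∀ (A : Type) [CommRing A] [Algebra ℤ A], Prop, PCut ℤ P →
        (∀ M ∈ L, P (ModR ℤ M.2)) → P A :=
  modP (pcut_star fun M => SmoothModZ (ringKrullDim A) M.2) (ringKrullDim A)
    (fun n M hM => ⟨[⟨n, M⟩], fun M' h' => by rw [List.mem_singleton.1 h']; exact hM,
      fun _ _ h' => h' ⟨n, M⟩ (List.mem_singleton.2 rfl)⟩) A le_rfl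

end

end Pool.Agent.Helper13.RM
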