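import Pool.Agent.Helper13.RM.CList
import Pool.Agent.Helper3.GU.Fin

/-!
# Prime fields are perfect
-/

set_option autoImplicit false

open CategoryTheory AlgebraicGeometry Pool.Agent.Y116.UV Pool.Agent.Z125.UN Pool.Agent.Q193.LT
  Pool.Agent.Q282.UK Pool.Agent.Helper3.GU

universe v w w1 w2

namespace Pool.Agent.Helper13.RM

/-- A field in which every element is a quotient of integers is perfect. -/
theorem perfect_of_frac {k : Type} [Field k] (hk : Frac k) : PerfectField k := by
  rcases CharP.exists k with ⟨p, hp⟩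
  rcases (CharP.char_is_prime_or_zero k p) with hprime | hzero
  · have : Fact p.Prime := ⟨hprime⟩
    have : ExpChar k p := ExpChar.prime hprime
    have h1 : PerfectRing k p := by
      refine PerfectRing.ofSurjective k p fun x => ⟨x, ?_⟩
      obtain ⟨d, w, hd, hw⟩ := hk x
      have h2 : ∀ z : ℤ, ((z : k)) ^ p = z := by
        intro z
        have h3 := map_intCast (frobenius k p) z
        rwa [frobenius_def] at h3
      have h4 : (d : k) ^ p * x ^ p = w := by
        rw [← mul_pow, ← hw, h2]
      rw [h2] at h4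
      have h5 : (d : k) ≠ 0 := hd.ne_zero
      rw [frobenius_def]
      apply mul_left_cancel₀ h5
      rw [h4, hw]
    exact PerfectRing.toPerfectField k p
  · subst hzero
    have : CharZero k := CharP.charP_to_charZero k
    infer_instance

/-- Statements on all schemes, each dimension, smooth moduli spaces, and finite lists, for comparison
maps and finite generation. -/
theorem config_fin_smooth {k : Type} [Field k] (hk : Frac k) {ι ι' : Type} {E : Type v} [CommRing E]
    {E' : Type w1} [CommRing E'] [IsNoetherianRing E'] {C : PairData.{w} k ι E}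
    {N : ι' → Sch k → ModuleCat.{w2} E'} {δ : ι ≃ ι} {δ' : ι' ≃ ι'}
    (hC : IsLong C δ) (gC : BijDim C) (pC : BijAll C (aff k k))
    (hN : IsLongOne N δ') (gN : FinGenDim N) (pN : FinGen N (aff k k)) :
    (∀ d : ℕ, List.TFAE [∀ Y : Sch k, SmoothProj Y → DimAt Y d → FinGen N Y ∧ BijAll C Y,
      ∀ X : Sch k, FT True X → DimAt X d → FinGen N X ∧ BijAll C X,
      ∀ (n : ℕ) (M : Matroid (Fin 4 ⊕ Fin n)), SmoothMod k d M →
        FinGen N (modS k M) ∧ BijAll C (modS k M)]) ∧
    List.TFAE [∀ Y : Sch k, SmoothProj Y → FinGen N Y ∧ BijAll C Y,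
      ∀ X : Sch k, FT True X → FinGen N X ∧ BijAll C X,
      ∀ (d n : ℕ) (M : Matroid (Fin 4 ⊕ Fin n)), SmoothMod k d M →
        FinGen N (modS k M) ∧ BijAll C (modS k M)] := by
  have hpf := perfect_of_frac hk
  have hP := cut_and (cut_finGen hN pN) (cut_pair hC pC)
  have hR := presents_frac hk
  have h1 : ∀ d : ℕ, (∀ Y : Sch k, SmoothProj Y → DimAt Y d → FinGen N Y ∧ BijAll C Y) →
      ∀ X : Sch k, FT True X → DimAt X d → FinGen N X ∧ BijAll C X := fun d h X hX hd =>
    ⟨gN d (fun Y hY hd => (h Y hY hd).1) X hX hd, gC d (fun Y hY hd => (h Y hY hd).2) X hX hd⟩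
  constructor
  · intro d
    tfae_have 1 → 2 := h1 d
    tfae_have 2 → 1 := fun h Y hY hd => h Y hY.ft hd
    tfae_have 2 ↔ 3 := config_iff_smooth hP hR d
    tfae_finish
  · tfae_have 2 → 1 := fun h Y hY => h Y hY.ft
    tfae_have 3 → 2 := fun h X hX => config_smooth hP hR
      (fun m M h1 h2 h3 h4 => h (3 * m) m M ⟨h1, h2, h3, h4, dim_modT _⟩) X hX
    tfae_have 1 → 3 := fun h d n M hM =>
      h1 d (fun Y hY _ => h Y hY) (modS k M) (ft_modT _) hM.dim
    tfae_finish

end Pool.Agent.Helper13.RM
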