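import Pool.Agent.Helper13.RM.Dim

/-!
# Immersed moduli spaces through the points of a scheme
-/

set_option autoImplicit false

open CategoryTheory AlgebraicGeometry Pool.Agent.Y116.UV Pool.Agent.Q282.UK Pool.Agent.Helper3.GU

namespace Pool.Agent.Helper13.RM

section

variable {R : Type} [CommRing R] {sep : Prop}

/-- Each point of `X` lies on an immersed moduli space of planar configurations. -/
def OnMod (X : Sch R) : Prop :=
  ∀ x : X.left, ∃ (n : ℕ) (M : Matroid (Fin 4 ⊕ Fin n)) (s : modS R M ⟶ X),
    Framed M ∧ IsSimple M ∧ IsImmersion s.left ∧ x ∈ Set.range s.left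

lemma OnMod.push {X Y : Sch R} (f : X ⟶ Y) (hf : IsImmersion f.left) (h : OnMod X) {y : Y.left}
    (hy : y ∈ Set.range f.left) : ∃ (n : ℕ) (M : Matroid (Fin 4 ⊕ Fin n)) (s : modS R M ⟶ Y),
    Framed M ∧ IsSimple M ∧ IsImmersion s.left ∧ y ∈ Set.range s.left := by
  obtain ⟨x, rfl⟩ := hy
  obtain ⟨n, M, s, h1, h2, h3, t, rfl⟩ := h x
  refine ⟨n, M, s ≫ f, h1, h2, ?_, t, ?_⟩
  · change IsImmersion (s.left ≫ f.left)
    infer_instance
  · change (s.left ≫ f.left) t = _
    rw [Scheme.Hom.comp_apply]

theorem cut_onMod : Cut sep (OnMod (R := R)) where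
  iso {X Y} _ e h := by
    obtain ⟨e⟩ := e
    intro y
    refine h.push e.hom ?_ ⟨e.inv.left y, ?_⟩
    · have : IsIso e.hom.left := inferInstance
      infer_instance
    · have h1 : e.inv.left ≫ e.hom.left = 𝟙 _ := by
        rw [← Over.comp_left, e.inv_hom_id, Over.id_left]
      rw [← Scheme.Hom.comp_apply, h1]
      rfl
  empty X hX x := (hX.false x).elim
  total {Z X U} i j _ ht hZ hU := by
    intro x
    have h1 := ht.closed
    have h2 := ht.opened
    by_cases hx : x ∈ Set.range j.left
    · exact hU.push j inferInstance hx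
    · refine hZ.push i inferInstance ?_
      rw [ht.compl]
      exact hx

/-- **Each point of a scheme of finite type lies on an immersed moduli space.** -/
theorem onMod (hR : Presents ({0, 1} : Set R)) (X : Sch R) (hX : FT sep X) : OnMod X := by
  refine config_universal (cut_onMod (sep := sep)) hR (fun n M h1 h2 x => ?_) X hX
  refine ⟨n, M, 𝟙 _, h1, h2, ?_, x, rfl⟩
  change IsImmersion (𝟙 (modS R M).left)
  infer_instance

end

/-! ### Immersions that meet the generic point -/

/-- An immersion into an integral scheme that meets the generic point is an open immersion. -/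
lemma open_of_generic {X Y : Scheme} [IsIntegral Y] (f : X ⟶ Y) [IsImmersion f]
    (h : genericPoint Y ∈ Set.range f) : IsOpenImmersion f := by
  obtain ⟨x, hx⟩ := h
  let V := f.coborderRange
  have hne : Nonempty V.toScheme := ⟨f.liftCoborder x⟩
  have hV : IsIntegral V.toScheme := isIntegral_of_isOpenImmersion V.ι
  have h1 : f.liftCoborder x = genericPoint V.toScheme := by
    apply V.ι.isOpenEmbedding.injective
    rw [genericPoint_eq_of_isOpenImmersion V.ι, ← hx, ← Scheme.Hom.comp_apply]
    exact congrArg (fun g : X ⟶ Y => g x) f.liftCoborder_ι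
  have h2 : Surjective f.liftCoborder := by
    constructor
    rw [← Set.range_eq_univ]
    have h3 : IsClosed (Set.range f.liftCoborder) :=
      f.liftCoborder.isClosedEmbedding.isClosed_range
    have h4 : genericPoint V.toScheme ∈ Set.range f.liftCoborder := ⟨x, h1⟩
    have h5 : closure {genericPoint V.toScheme} ⊆ Set.range f.liftCoborder :=
      h3.closure_subset_iff.2 (Set.singleton_subset_iff.2 h4)
    rw [genericPoint_spec V.toScheme] at h5
    exact Set.univ_subset_iff.1 h5
  have h6 : IsIso f.liftCoborder := isIso_of_isClosedImmersion_of_surjective _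
  rw [← f.liftCoborder_ι]
  infer_instance

end Pool.Agent.Helper13.RM
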