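import Pool.Agent.Helper13.RM.Main

/-!
# Simple matroids of rank three
-/

set_option autoImplicit false

open CategoryTheory AlgebraicGeometry Pool.Agent.Y116.UV Pool.Agent.Q282.UK Pool.Agent.Helper3.GU

namespace Pool.Agent.Helper13.RM

section

variable {κ : Type} (k : κ)

/-- the other indices -/
abbrev Oth : Type := {j : κ // j ≠ k}

/-- the other elements -/
abbrev up (x : Fin 4 ⊕ Oth k) : Fin 4 ⊕ κ := Sum.map id Subtype.val x

variable {C : Type} [CommRing C]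

open Classical in
/-- one more vector -/
noncomputable def exv (w : Fin 3 → C) (p : Oth k → Fin 3 → C) : κ → Fin 3 → C :=
  fun j => if h : j = k then w else p ⟨j, h⟩

omit [CommRing C] in
lemma exv_self (w : Fin 3 → C) (p : Oth k → Fin 3 → C) : exv k w p k = w := by
  rw [exv, dif_pos rfl]

omit [CommRing C] in
lemma exv_val (w : Fin 3 → C) (p : Oth k → Fin 3 → C) (j : Oth k) : exv k w p j.1 = p j := by
  rw [exv, dif_neg j.2]

lemma vecs_up (w : Fin 3 → C) (p : Oth k → Fin 3 → C) (x : Fin 4 ⊕ Oth k) :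
    vecs (exv k w p) (up k x) = vecs p x := by
  rcases x with a | j
  · rfl
  · exact exv_val k w p j

lemma vecs_k (w : Fin 3 → C) (p : Oth k → Fin 3 → C) :
    vecs (exv k w p) (Sum.inr k) = w := exv_self k w p

omit [CommRing C] in
lemma exv_eta (q : κ → Fin 3 → C) : exv k (q k) (fun j => q j.1) = q := by
  funext j
  by_cases h : j = k
  · subst h
    exact exv_self _ _ _
  · exact exv_val k _ _ ⟨j, h⟩

lemma vecs_res (q : κ → Fin 3 → C) (x : Fin 4 ⊕ Oth k) :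
    vecs (fun j : Oth k => q j.1) x = vecs q (up k x) := by
  rcases x with a | j <;> rfl

lemma exv_map {D : Type} [CommRing D] (f : C →+* D) (w : Fin 3 → C) (p : Oth k → Fin 3 → C)
    (j : κ) (c : Fin 3) :
    exv k (fun c => f (w c)) (fun j c => f (p j c)) j c = f (exv k w p j c) := by
  rw [exv, exv]
  split_ifs <;> rfl

open Classical in
/-- the element `k` is replaced by `e` -/
noncomputable def rep (e : Fin 4 ⊕ Oth k) : Fin 4 ⊕ κ → Fin 4 ⊕ Oth k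
  | Sum.inl a => Sum.inl a
  | Sum.inr j => if h : j = k then e else Sum.inr ⟨j, h⟩

lemma rep_k (e : Fin 4 ⊕ Oth k) : rep k e (Sum.inr k) = e := by
  rw [rep, dif_pos rfl]

lemma rep_up (e x : Fin 4 ⊕ Oth k) : rep k e (up k x) = x := by
  rcases x with a | j
  · rfl
  · change rep k e (Sum.inr j.1) = _
    rw [rep, dif_neg j.2]

open Classical in
/-- the scalars -/
noncomputable def sc (l : C) (x : Fin 4 ⊕ κ) : C := if x = Sum.inr k then l else 1

lemma cases_up (x : Fin 4 ⊕ κ) : x = Sum.inr k ∨ ∃ y, x = up k y := by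
  rcases x with a | j
  · exact Or.inr ⟨Sum.inl a, rfl⟩
  · by_cases h : j = k
    · exact Or.inl (congrArg Sum.inr h)
    · exact Or.inr ⟨Sum.inr ⟨j, h⟩, rfl⟩

lemma up_ne (x : Fin 4 ⊕ Oth k) : up k x ≠ Sum.inr k := by
  rcases x with a | j
  · exact fun h => by simp [up] at h
  · intro h
    exact j.2 (Sum.inr_injective h)

lemma vecs_par (e : Fin 4 ⊕ Oth k) (l : C) (p : Oth k → Fin 3 → C) (x : Fin 4 ⊕ κ) (c : Fin 3) :
    vecs (exv k (fun c => l * vecs p e c) p) x c = sc k l x * vecs p (rep k e x) c := by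
  rcases cases_up k x with rfl | ⟨y, rfl⟩
  · rw [vecs_k, rep_k, sc, if_pos rfl]
  · rw [vecs_up, rep_up, sc, if_neg (up_ne k y), one_mul]

/-- the map of the triples -/
noncomputable def rt (e : Fin 4 ⊕ Oth k) (t : Trip κ) : Trip (Oth k) :=
  (rep k e t.1, rep k e t.2.1, rep k e t.2.2)

lemma rt_tm (e : Fin 4 ⊕ Oth k) (t : Trip (Oth k)) : rt k e (tm Subtype.val t) = t := by
  obtain ⟨a, b, c⟩ := t
  change (rep k e (up k a), rep k e (up k b), rep k e (up k c)) = _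
  rw [rep_up, rep_up, rep_up]

lemma dt_par (e : Fin 4 ⊕ Oth k) (l : C) (p : Oth k → Fin 3 → C) (t : Trip κ) :
    dt (exv k (fun c => l * vecs p e c) p) t =
      sc k l t.1 * sc k l t.2.1 * sc k l t.2.2 * dt p (rt k e t) := by
  obtain ⟨a, b, c⟩ := t
  rw [rt, dt_eq, dt_eq]
  simp only [vecs_par]
  ring

lemma isUnit_sc {l : C} (hl : IsUnit l) (x : Fin 4 ⊕ κ) : IsUnit (sc k l x) := by
  rw [sc]
  split_ifs
  · exact hl
  · exact isUnit_one

/-- the triple of a coordinate -/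
def tc {κ : Type} (c : Fin 3) (x : Fin 4 ⊕ κ) : Trip κ :=
  (Sum.inl (![1, 0, 0] c), Sum.inl (![2, 2, 1] c), x)

lemma unit_tc {κ : Type} (q : κ → Fin 3 → C) (c : Fin 3) (x : Fin 4 ⊕ κ) :
    IsUnit (dt q (tc c x)) ↔ IsUnit (vecs q x c) := by
  fin_cases c
  · rw [tc, dt_eq]
    simp [vecs, frame]
  · rw [tc, dt_eq]
    simp [vecs, frame]
  · rw [tc, dt_eq]
    simp [vecs, frame]

lemma zero_tc {κ : Type} (q : κ → Fin 3 → C) (c : Fin 3) (x : Fin 4 ⊕ κ) :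
    dt q (tc c x) = 0 ↔ vecs q x c = 0 := by
  fin_cases c
  · rw [tc, dt_eq]
    simp [vecs, frame]
  · rw [tc, dt_eq]
    simp [vecs, frame]
  · rw [tc, dt_eq]
    simp [vecs, frame]

lemma cross {κ : Type} (q : κ → Fin 3 → C) (x y : Fin 4 ⊕ κ)
    (h : ∀ a : Fin 4, dt q (Sum.inl a, x, y) = 0) (c d : Fin 3) :
    vecs q x c * vecs q y d = vecs q x d * vecs q y c := by
  have h0 := h 0
  have h1 := h 1
  have h2 := h 2
  rw [dt_eq] at h0 h1 h2
  simp [vecs, frame] at h0 h1 h2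
  have e0 : vecs q x 1 * vecs q y 2 = vecs q x 2 * vecs q y 1 := sub_eq_zero.mp h0
  have e1 : vecs q x 0 * vecs q y 2 = vecs q x 2 * vecs q y 0 := (sub_eq_zero.mp h1).symm
  have e2 : vecs q x 0 * vecs q y 1 = vecs q x 1 * vecs q y 0 := sub_eq_zero.mp h2
  fin_cases c <;> fin_cases d
  · rfl
  · exact e2
  · exact e1
  · exact e2.symm
  · rfl
  · exact e0
  · exact e1.symm
  · exact e0.symm
  · rfl

/-! ### Removing a loop or a parallel element -/

/-- the conditions on the determinants -/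
def Cond {κ : Type} (T : Set (Trip κ)) (p : κ → Fin 3 → C) : Prop :=
  (∀ t ∈ Tᶜ, dt p t = 0) ∧ ∀ t ∈ T, IsUnit (dt p t)

variable {T : Set (Trip κ)} {T' : Set (Trip (Oth k))}

lemma cond_res (h2 : ∀ t, t ∈ T' ↔ tm Subtype.val t ∈ T) {q : κ → Fin 3 → C} (hq : Cond T q) :
    Cond T' (fun j : Oth k => q j.1) := by
  have h : ∀ t : Trip (Oth k), dt (fun j : Oth k => q j.1) t = dt q (tm Subtype.val t) :=
    fun t => dt_comp Subtype.val q t
  refine ⟨fun t ht => ?_, fun t ht => ?_⟩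
  · rw [h]
    exact hq.1 _ fun h4 => ht ((h2 t).2 h4)
  · rw [h]
    exact hq.2 _ ((h2 t).1 ht)

lemma cond_loop (h1 : ∀ t : Trip κ, (t.1 = Sum.inr k ∨ t.2.1 = Sum.inr k ∨
      t.2.2 = Sum.inr k) → t ∉ T) (h2 : ∀ t, t ∈ T' ↔ tm Subtype.val t ∈ T)
    {p : Oth k → Fin 3 → C} (hp : Cond T' p) : Cond T (exv k 0 p) := by
  have h : ∀ t : Trip κ, dt (exv k 0 p) t = 0 ∧ t ∉ T ∨ ∃ t', t = tm Subtype.val t' ∧
      dt (exv k 0 p) t = dt p t' := by
    rintro ⟨a, b, c⟩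
    rcases cases_up k a with rfl | ⟨a, rfl⟩
    · exact Or.inl ⟨by rw [dt_eq, vecs_k]; simp, h1 _ (Or.inl rfl)⟩
    rcases cases_up k b with rfl | ⟨b, rfl⟩
    · exact Or.inl ⟨by rw [dt_eq, vecs_k]; simp, h1 _ (Or.inr (Or.inl rfl))⟩
    rcases cases_up k c with rfl | ⟨c, rfl⟩
    · exact Or.inl ⟨by rw [dt_eq, vecs_k]; simp, h1 _ (Or.inr (Or.inr rfl))⟩
    exact Or.inr ⟨(a, b, c), rfl, by rw [dt_eq, dt_eq]; simp only [vecs_up]⟩
  constructor
  · intro t ht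
    rcases h t with ⟨h3, -⟩ | ⟨t', rfl, h3⟩
    · exact h3
    · rw [h3]
      exact hp.1 t' fun h4 => ht ((h2 t').1 h4)
  · intro t ht
    rcases h t with ⟨-, h3⟩ | ⟨t', rfl, h3⟩
    · exact absurd ht h3
    · rw [h3]
      exact hp.2 t' ((h2 t').2 ht)

lemma loop_right (h1 : ∀ t : Trip κ, (t.1 = Sum.inr k ∨ t.2.1 = Sum.inr k ∨
      t.2.2 = Sum.inr k) → t ∉ T) {q : κ → Fin 3 → C} (hq : Cond T q) :
    exv k 0 (fun j => q j.1) = q := by
  have h3 : q k = 0 := by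
    funext c
    exact (zero_tc q c (Sum.inr k)).1 (hq.1 _ (h1 _ (Or.inr (Or.inr rfl))))
  rw [← h3]
  exact exv_eta k q

lemma exv_zero_map {D : Type} [CommRing D] (f : C →+* D) (p : Oth k → Fin 3 → C) :
    exv k 0 (fun j c => f (p j c)) = fun j c => f (exv k 0 p j c) := by
  funext j c
  rw [← exv_map]
  congr 1
  funext c
  exact (map_zero f).symm

/-- A loop can be removed. -/
noncomputable def loopIso (h1 : ∀ t : Trip κ, (t.1 = Sum.inr k ∨ t.2.1 = Sum.inr k ∨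
      t.2.2 = Sum.inr k) → t ∉ T) (h2 : ∀ t, t ∈ T' ↔ tm Subtype.val t ∈ T) :
    PIso (Conf (Oth k) T'ᶜ T') (Conf κ Tᶜ T) where
  fwd p := ⟨exv k 0 p.1, cond_loop k h1 h2 p.2⟩
  bwd q := ⟨fun j => q.1 j.1, cond_res k h2 q.2⟩
  left p := Subtype.ext (funext fun j => exv_val k _ _ j)
  right q := Subtype.ext (loop_right k h1 q.2)
  nat f p := Subtype.ext (exv_zero_map k f p.1)

lemma cond_par {e : Fin 4 ⊕ Oth k} (h1 : ∀ t, t ∈ T ↔ rt k e t ∈ T') {p : Oth k → Fin 3 → C}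
    (hp : Cond T' p) (l : Cˣ) : Cond T (exv k (fun d => (l : C) * vecs p e d) p) := by
  refine ⟨fun t ht => ?_, fun t ht => ?_⟩
  · rw [dt_par, hp.1 _ fun h => ht ((h1 t).2 h), mul_zero]
  · rw [dt_par]
    exact (((isUnit_sc k l.isUnit _).mul (isUnit_sc k l.isUnit _)).mul
      (isUnit_sc k l.isUnit _)).mul (hp.2 _ ((h1 t).1 ht))

lemma tc_mem {e : Fin 4 ⊕ Oth k} {c : Fin 3} (h1 : ∀ t, t ∈ T ↔ rt k e t ∈ T')
    (h3 : tc c e ∈ T') : tc c (Sum.inr k) ∈ T := by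
  rw [h1]
  change (Sum.inl _, Sum.inl _, rep k e (Sum.inr k)) ∈ T'
  rw [rep_k]
  exact h3

lemma par_mem {e : Fin 4 ⊕ Oth k} (h1 : ∀ t, t ∈ T ↔ rt k e t ∈ T')
    (h2 : ∀ a, (a, e, e) ∉ T') (a : Fin 4) : (Sum.inl a, up k e, Sum.inr k) ∉ T := by
  rw [h1]
  change (Sum.inl a, rep k e (up k e), rep k e (Sum.inr k)) ∉ T'
  rw [rep_up, rep_k]
  exact h2 _

lemma mem_tm {e : Fin 4 ⊕ Oth k} (h1 : ∀ t, t ∈ T ↔ rt k e t ∈ T') (t : Trip (Oth k)) :
    t ∈ T' ↔ tm Subtype.val t ∈ T := by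
  rw [h1, rt_tm]

lemma unit_k {e : Fin 4 ⊕ Oth k} {c : Fin 3} (h1 : ∀ t, t ∈ T ↔ rt k e t ∈ T')
    (h3 : tc c e ∈ T') {q : κ → Fin 3 → C} (hq : Cond T q) : IsUnit (q k c) :=
  (unit_tc q c (Sum.inr k)).1 (hq.2 _ (tc_mem k h1 h3))

lemma unit_e {e : Fin 4 ⊕ Oth k} {c : Fin 3} (h1 : ∀ t, t ∈ T ↔ rt k e t ∈ T')
    (h3 : tc c e ∈ T') {q : κ → Fin 3 → C} (hq : Cond T q) : IsUnit (vecs q (up k e) c) :=
  (unit_tc q c (up k e)).1 (hq.2 _ ((mem_tm k h1 _).1 h3))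

lemma par_right {e : Fin 4 ⊕ Oth k} {c : Fin 3} (h1 : ∀ t, t ∈ T ↔ rt k e t ∈ T')
    (h2 : ∀ a, (a, e, e) ∉ T') (h3 : tc c e ∈ T') {q : κ → Fin 3 → C} (hq : Cond T q) :
    exv k (fun d => (((unit_k k h1 h3 hq).unit * (unit_e k h1 h3 hq).unit⁻¹ : Cˣ) : C) *
      vecs (fun j : Oth k => q j.1) e d) (fun j => q j.1) = q := by
  have hu := unit_e k h1 h3 hq
  have hk := unit_k k h1 h3 hq
  have h7 : (fun d => ((hk.unit * hu.unit⁻¹ : Cˣ) : C) * vecs q (up k e) d) = q k := by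
    funext d
    have h8 := cross q (up k e) (Sum.inr k) (fun a => hq.1 _ (par_mem k h1 h2 a)) c d
    have h8' : vecs q (up k e) c * q k d = vecs q (up k e) d * q k c := h8
    apply hu.mul_left_cancel
    rw [h8', Units.val_mul]
    have h9 : vecs q (up k e) c * ((hu.unit⁻¹ : Cˣ) : C) = 1 := hu.mul_val_inv
    have h10 : ((hk.unit : Cˣ) : C) = q k c := rfl
    rw [h10]
    linear_combination (q k c * vecs q (up k e) d) * h9
  rw [vecs_res, h7]
  exact exv_eta k q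

lemma par_left {e : Fin 4 ⊕ Oth k} {c : Fin 3} (l : Cˣ) (p : Oth k → Fin 3 → C)
    (hk : IsUnit (exv k (fun d => (l : C) * vecs p e d) p k c))
    (he : IsUnit (vecs (exv k (fun d => (l : C) * vecs p e d) p) (up k e) c)) :
    hk.unit * he.unit⁻¹ = l := by
  rw [mul_inv_eq_iff_eq_mul]
  apply Units.ext
  change exv k (fun d => (l : C) * vecs p e d) p k c =
    (l : C) * vecs (exv k (fun d => (l : C) * vecs p e d) p) (up k e) c
  rw [exv_self, vecs_up]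

lemma exv_par_map {D : Type} [CommRing D] (f : C →+* D) (p : Oth k → Fin 3 → C)
    (e : Fin 4 ⊕ Oth k) (l : C) :
    exv k (fun d => f l * vecs (fun j c => f (p j c)) e d) (fun j c => f (p j c)) =
      fun j d => f (exv k (fun d => l * vecs p e d) p j d) := by
  funext j d
  rw [← exv_map]
  congr 1
  funext d
  rw [vecs_map, map_mul]

/-- A parallel element can be removed. -/
noncomputable def parIso (e : Fin 4 ⊕ Oth k) (c : Fin 3) (h1 : ∀ t, t ∈ T ↔ rt k e t ∈ T')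
    (h2 : ∀ a, (a, e, e) ∉ T') (h3 : tc c e ∈ T') :
    PIso ((Conf (Oth k) T'ᶜ T').tor PUnit) (Conf κ Tᶜ T) where
  fwd p := ⟨exv k (fun d => (p.2 ⟨⟩ : _) * vecs p.1.1 e d) p.1.1, cond_par k h1 p.1.2 _⟩
  bwd q := (⟨fun j => q.1 j.1, cond_res k (mem_tm k h1) q.2⟩,
    fun _ => (unit_k k h1 h3 q.2).unit * (unit_e k h1 h3 q.2).unit⁻¹)
  left p := Prod.ext (Subtype.ext (funext fun j => exv_val k _ _ j))
    (funext fun _ => par_left k (p.2 ⟨⟩) p.1.1 _ _)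
  right q := Subtype.ext (par_right k h1 h2 h3 q.2)
  nat f p := Subtype.ext (exv_par_map k f p.1.1 e (p.2 ⟨⟩ : _))

end

end Pool.Agent.Helper13.RM
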