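import Pool.Agent.Helper13.RM.Conf

/-!
# The strata of the space of configurations
-/

set_option autoImplicit false

open CategoryTheory AlgebraicGeometry Pool.Agent.Y116.UV Pool.Agent.Q282.UK Pool.Agent.Helper3.GU

namespace Pool.Agent.Helper13.RM

section

variable {κ : Type} {C D : Type} [CommRing C] [CommRing D]

lemma vecs_map (f : C →+* D) (p : κ → Fin 3 → C) (a : Fin 4 ⊕ κ) (c : Fin 3) :
    vecs (fun k c => f (p k c)) a c = f (vecs p a c) := by
  rcases a with a | k
  · fin_cases a <;> fin_cases c <;> simp [vecs, frame]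
  · rfl

lemma dt_eq (p : κ → Fin 3 → C) (a b c : Fin 4 ⊕ κ) :
    dt p (a, b, c) =
      vecs p a 0 * (vecs p b 1 * vecs p c 2 - vecs p b 2 * vecs p c 1) -
      vecs p a 1 * (vecs p b 0 * vecs p c 2 - vecs p b 2 * vecs p c 0) +
      vecs p a 2 * (vecs p b 0 * vecs p c 1 - vecs p b 1 * vecs p c 0) := by
  rw [dt, Matrix.det_fin_three]
  simp only [Matrix.of_apply, Matrix.cons_val_zero, Matrix.cons_val_one, Matrix.cons_val]
  ring

lemma dt_map (f : C →+* D) (p : κ → Fin 3 → C) (t : Trip κ) :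
    dt (fun k c => f (p k c)) t = f (dt p t) := by
  obtain ⟨a, b, c⟩ := t
  rw [dt_eq, dt_eq]
  simp only [vecs_map, map_add, map_sub, map_mul]

end

/-- Families of vectors. -/
def Vec (κ : Type) : PF where
  pts C _ := κ → Fin 3 → C
  map f p := fun k c => f (p k c)
  map_id _ := rfl
  map_comp _ _ _ := rfl

/-- The determinant of a triple. -/
def dF {κ : Type} (t : Trip κ) : NF (Vec κ) := ⟨fun p => dt p t, fun f p => dt_map f p t⟩

/-- The families of vectors for which the determinants of the triples in `Z` are zero and those of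
the triples in `U` are invertible. -/
def Conf (κ : Type) (Z U : Set (Trip κ)) : PF :=
  (Vec κ).sub (fun p => (∀ t ∈ Z, dt p t = 0) ∧ ∀ t ∈ U, IsUnit (dt p t)) (fun f p h =>
    ⟨fun t ht => ((dF t).nat f p).trans ((congrArg f (h.1 t ht)).trans (map_zero f)),
    fun t ht => (congrArg IsUnit ((dF t).nat f p)).mpr ((h.2 t ht).map f)⟩)

section

variable {R : Type} [CommRing R] {sep : Prop} {P : Sch R → Prop} {κ : Type}

/-- Families of vectors as points of an affine space. -/
def vecIso (κ : Type) : PIso (PT.aff (κ × Fin 3)) (Vec κ) where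
  fwd p := fun k c => p.2 (k, c)
  bwd q := ((), fun k => q k.1 k.2)
  left _ := rfl
  right _ := rfl
  nat _ _ := rfl

lemma hasRep_Vec [Finite κ] : HasRep R (Vec κ) := (hasRep_PT.aff (κ × Fin 3)).congr (vecIso κ)

lemma rep_Vec (n : ℕ) : IsRep R (Vec (Fin n)) (MvPolynomial (Fin n × Fin 3) R) (gen R n) :=
  (rep_PT.aff (Fin n × Fin 3)).congr (vecIso (Fin n))

/-- The product of the determinants of the triples in `U`. -/
def pF {κ : Type} (U : Set (Trip κ)) [Fintype U] : NF (Vec κ) :=
  ⟨fun p => ∏ t : U, dt p t.1, fun f p => by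
    rw [map_prod]
    exact Finset.prod_congr rfl fun t _ => dt_map f p t.1⟩

/-- Configurations by zeros and one invertible function. -/
def confIso {κ : Type} (Z U : Set (Trip κ)) [Fintype U] :
    PIso (((Vec κ).zeros fun t : Z => dF t.1).unit
      ((pF U).res _ fun f p h k => by rw [(dF k.1).nat, h k, map_zero])) (Conf κ Z U) where
  fwd p := ⟨p.1.1, fun t ht => p.1.2 ⟨t, ht⟩, fun t ht => by
    have h : IsUnit (∏ t : U, dt p.1.1 t.1) := p.2
    rw [IsUnit.prod_univ_iff] at h
    exact h ⟨t, ht⟩⟩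
  bwd q := ⟨⟨q.1, fun t => q.2.1 t.1 t.2⟩, by
    change IsUnit (∏ t : U, dt q.1 t.1)
    rw [IsUnit.prod_univ_iff]
    exact fun t => q.2.2 t.1 t.2⟩
  left _ := rfl
  right _ := rfl
  nat _ _ := rfl

lemma hasRep_Conf [Finite κ] (Z U : Set (Trip κ)) : HasRep R (Conf κ Z U) := by
  have := Fintype.ofFinite U
  exact ((hasRep_Vec.zeros _).unit _).congr (confIso Z U)

lemma rep_conf {n : ℕ} (T : Set (Trip (Fin n))) :
    ∃ b, IsRep R (Conf (Fin n) Tᶜ T) (Localization.Away (Ideal.Quotient.mk _ (prodT R T) :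
      RealQ R T)) b := by
  classical
  have h1 := (rep_Vec (R := R) n).zeros fun t : (Tᶜ : Set _) => dF t.1
  have h2 := h1.unit ((pF T).res _ fun f p h k => by rw [(dF k.1).nat, h k, map_zero])
    (w := (Ideal.Quotient.mk _ (prodT R T) : RealQ R T)) (by
      refine ((pF T).nat (Ideal.Quotient.mk _) (gen R n)).trans ?_
      congr 1)
  exact ⟨_, h2.congr (confIso Tᶜ T)⟩

lemma holds_of_confS {n : ℕ} {T : Set (Trip (Fin n))} (h : P (confS R T)) :
    Holds P (Conf (Fin n) Tᶜ T) := by
  obtain ⟨b, hb⟩ := rep_conf (R := R) T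
  have h1 : Algebra.FiniteType R (RealQ R T) := inferInstance
  exact ⟨_, inferInstance, inferInstance, ft_loc _ _, _, hb, h⟩

lemma confS_of_holds (hP : Clo sep P) {n : ℕ} {T : Set (Trip (Fin n))}
    (h : Holds P (Conf (Fin n) Tᶜ T)) : P (confS R T) := by
  obtain ⟨b, hb⟩ := rep_conf (R := R) T
  exact of_rep' hP h hb

/-- Renaming the vectors. -/
lemma vecs_comp {C : Type} [CommRing C] {κ' : Type} (e : κ' → κ) (p : κ → Fin 3 → C)
    (a : Fin 4 ⊕ κ') : vecs (fun k => p (e k)) a = vecs p (Sum.map id e a) := by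
  rcases a with a | k <;> rfl

/-- the map of the triples -/
def tm {κ κ' : Type} (e : κ' → κ) (t : Trip κ') : Trip κ :=
  (Sum.map id e t.1, Sum.map id e t.2.1, Sum.map id e t.2.2)

lemma dt_comp {C : Type} [CommRing C] {κ' : Type} (e : κ' → κ) (p : κ → Fin 3 → C)
    (t : Trip κ') : dt (fun k => p (e k)) t = dt p (tm e t) := by
  obtain ⟨a, b, c⟩ := t
  rw [dt, dt]
  simp only [vecs_comp, tm]

/-- Renaming the vectors. -/
def confRename {κ' : Type} (e : κ' ≃ κ) (Z U : Set (Trip κ)) :
    PIso (Conf κ' (tm e ⁻¹' Z) (tm e ⁻¹' U)) (Conf κ Z U) where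
  fwd p := ⟨fun k => p.1 (e.symm k), by
    have h : ∀ t : Trip κ, dt (fun k => p.1 (e.symm k)) t = dt p.1 (tm e.symm t) :=
      fun t => dt_comp e.symm p.1 t
    have h2 : ∀ t : Trip κ, tm e (tm e.symm t) = t := by
      rintro ⟨a, b, c⟩
      simp only [tm, Sum.map_map]
      simp
    refine ⟨fun t ht => ?_, fun t ht => ?_⟩
    · rw [h]
      exact p.2.1 _ (by rw [Set.mem_preimage, h2]; exact ht)
    · rw [h]
      exact p.2.2 _ (by rw [Set.mem_preimage, h2]; exact ht)⟩
  bwd q := ⟨fun k => q.1 (e k), by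
    have h : ∀ t : Trip κ', dt (fun k => q.1 (e k)) t = dt q.1 (tm e t) :=
      fun t => dt_comp e q.1 t
    refine ⟨fun t ht => ?_, fun t ht => ?_⟩
    · rw [h]
      exact q.2.1 _ ht
    · rw [h]
      exact q.2.2 _ ht⟩
  left p := by
    apply Subtype.ext
    funext k
    change p.1 (e.symm (e k)) = p.1 k
    rw [e.symm_apply_apply]
  right q := by
    apply Subtype.ext
    funext k
    change q.1 (e (e.symm k)) = q.1 k
    rw [e.apply_symm_apply]
  nat _ _ := rfl

/-- The determinant of a triple as a function of configurations. -/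
def dC (Z U : Set (Trip κ)) (t : Trip κ) : NF (Conf κ Z U) :=
  ⟨fun p => dt p.1 t, fun f p => (dF t).nat f p.1⟩

/-- One more zero. -/
def confZero (Z U : Set (Trip κ)) (t : Trip κ) :
    PIso ((Conf κ Z U).zero (dC Z U t)) (Conf κ (insert t Z) U) where
  fwd p := ⟨p.1.1, fun s hs => by
    rcases hs with rfl | hs
    · exact p.2
    · exact p.1.2.1 s hs, p.1.2.2⟩
  bwd q := ⟨⟨q.1, fun s hs => q.2.1 s (Set.mem_insert_of_mem _ hs), q.2.2⟩,
    q.2.1 t (Set.mem_insert _ _)⟩
  left _ := rfl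
  right _ := rfl
  nat _ _ := rfl

/-- One more invertible determinant. -/
def confUnit (Z U : Set (Trip κ)) (t : Trip κ) :
    PIso ((Conf κ Z U).unit (dC Z U t)) (Conf κ Z (insert t U)) where
  fwd p := ⟨p.1.1, p.1.2.1, fun s hs => by
    rcases hs with rfl | hs
    · exact p.2
    · exact p.1.2.2 s hs⟩
  bwd q := ⟨⟨q.1, q.2.1, fun s hs => q.2.2 s (Set.mem_insert_of_mem _ hs)⟩,
    q.2.2 t (Set.mem_insert _ _)⟩
  left _ := rfl
  right _ := rfl
  nat _ _ := rfl

/-- If a triple is in both sets then there are only points over the zero ring. -/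
lemma conf_incons (hP : Clo sep P) {G : PF} (hG : Holds P G) {Z U : Set (Trip κ)}
    {t : Trip κ} (h1 : t ∈ Z) (h2 : t ∈ U) : Holds P (Conf κ Z U) := by
  have h : ∀ (C : Type) [CommRing C], Nonempty ((Conf κ Z U).pts C) → Subsingleton C := by
    rintro C _ ⟨p⟩
    have h3 := p.2.2 t h2
    rw [p.2.1 t h1] at h3
    exact subsingleton_of_zero_eq_one (isUnit_zero_iff.mp h3)
  refine holds_empty hP hG (fun C _ => ⟨h C, fun hC => ⟨fun _ _ => 0, fun _ _ =>
    Subsingleton.elim _ _, fun s _ => ?_⟩⟩) fun C _ => ⟨fun p q => ?_⟩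
  · rw [Subsingleton.elim (dt _ s) 1]
    exact isUnit_one
  · have := h C ⟨p⟩
    apply Subtype.ext
    funext k c
    exact Subsingleton.elim _ _

/-- **Strata.** If `P` is true for all strata then it is true for all configurations. -/
theorem holds_Conf [Finite κ] (hP : Clo sep P) (h : ∀ T : Set (Trip κ), Holds P (Conf κ Tᶜ T))
    (Z U : Set (Trip κ)) : Holds P (Conf κ Z U) := by
  classical
  have hfin : Finite (Trip κ) := inferInstance
  obtain ⟨n, hn⟩ : ∃ n, ((Z ∪ U)ᶜ).ncard = n := ⟨_, rfl⟩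
  induction n generalizing Z U with
  | zero =>
    have h1 : (Z ∪ U)ᶜ = ∅ := (Set.ncard_eq_zero (Set.toFinite _)).mp hn
    by_cases h2 : ∃ t, t ∈ Z ∧ t ∈ U
    · obtain ⟨t, h3, h4⟩ := h2
      exact conf_incons hP (h ∅) h3 h4
    · have h3 : Z = Uᶜ := by
        ext t
        constructor
        · exact fun h4 h5 => h2 ⟨t, h4, h5⟩
        · intro h4
          by_contra h5
          have : t ∈ (Z ∪ U)ᶜ := by
            rintro (h6 | h6)
            · exact h5 h6
            · exact h4 h6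
          rw [h1] at this
          exact this
      rw [h3]
      exact h U
  | succ n ih =>
    obtain ⟨t, ht⟩ : ((Z ∪ U)ᶜ).Nonempty := by
      rw [Set.nonempty_iff_ne_empty]
      intro h1
      rw [h1, Set.ncard_empty] at hn
      omega
    have h1 : (insert t Z ∪ U)ᶜ = (Z ∪ U)ᶜ \ {t} := by
      ext s
      simp only [Set.mem_compl_iff, Set.mem_union, Set.mem_insert_iff, Set.mem_sdiff,
        Set.mem_singleton_iff]
      tauto
    have h2 : (Z ∪ insert t U)ᶜ = (Z ∪ U)ᶜ \ {t} := by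
      ext s
      simp only [Set.mem_compl_iff, Set.mem_union, Set.mem_insert_iff, Set.mem_sdiff,
        Set.mem_singleton_iff]
      tauto
    have h3 : ((Z ∪ U)ᶜ \ {t}).ncard = n := by
      rw [Set.ncard_sdiff_singleton_of_mem ht, hn]
      rfl
    refine total' hP (hasRep_Conf Z U) (dC Z U t) ?_ ?_
    · exact (ih _ _ (by rw [h1, h3])).congr (confZero Z U t).symm
    · exact (ih _ _ (by rw [h2, h3])).congr (confUnit Z U t).symm

end

end Pool.Agent.Helper13.RM
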