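import Pool.Agent.Helper13.RM.Strata

/-!
# Systems of additions and multiplications as configurations of vectors (von Staudt)
-/

set_option autoImplicit false

open CategoryTheory AlgebraicGeometry Pool.Agent.Y116.UV Pool.Agent.Q282.UK Pool.Agent.Helper3.GU

namespace Pool.Agent.Helper13.RM

/-- A system of the equations `t_j = t_i + t_k` and `t_i = t_j t_k`, for triples of variables. -/
structure Sys (I : Type) where
  /-- additions -/
  add : I → I → I → Prop
  /-- multiplications -/
  mul : I → I → I → Prop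

/-- The solutions of a system. -/
def SysF {I : Type} (S : Sys I) : PF where
  pts C _ := {t : I → C // (∀ i j k, S.add i j k → t j = t i + t k) ∧
    ∀ i j k, S.mul i j k → t i = t j * t k}
  map f p := ⟨fun i => f (p.1 i), fun i j k h => by
      change f _ = f _ + f _
      rw [p.2.1 i j k h, map_add],
    fun i j k h => by
      change f _ = f _ * f _
      rw [p.2.2 i j k h, map_mul]⟩
  map_id _ := rfl
  map_comp _ _ _ := rfl

section

variable {R : Type} [CommRing R] {sep : Prop} {P : Sch R → Prop} {I : Type} (S : Sys I)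

/-- the equations of a system -/
def sysEq : ({x : I × I × I // S.add x.1 x.2.1 x.2.2} ⊕ {x : I × I × I // S.mul x.1 x.2.1 x.2.2}) →
    NF (PT.aff I)
  | Sum.inl x => ⟨fun p => p.2 x.1.2.1 - (p.2 x.1.1 + p.2 x.1.2.2), fun f p => by
      change f _ - (f _ + f _) = f _
      rw [map_sub, map_add]⟩
  | Sum.inr x => ⟨fun p => p.2 x.1.1 - p.2 x.1.2.1 * p.2 x.1.2.2, fun f p => by
      change f _ - f _ * f _ = f _
      rw [map_sub, map_mul]⟩

/-- a system as the zeros of its equations -/
def sysIso : PIso ((PT.aff I).zeros (sysEq S)) (SysF S) where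
  fwd p := ⟨p.1.2, fun i j k h => sub_eq_zero.mp (p.2 (Sum.inl ⟨(i, j, k), h⟩)),
    fun i j k h => sub_eq_zero.mp (p.2 (Sum.inr ⟨(i, j, k), h⟩))⟩
  bwd q := ⟨((), q.1), fun x => by
    rcases x with x | x
    · exact sub_eq_zero.mpr (q.2.1 _ _ _ x.2)
    · exact sub_eq_zero.mpr (q.2.2 _ _ _ x.2)⟩
  left _ := rfl
  right _ := rfl
  nat _ _ := rfl

lemma hasRep_Sys [Finite I] : HasRep R (SysF S) := ((hasRep_PT.aff I).zeros _).congr (sysIso S)

/-- The vectors of a system: an auxiliary one, and four for each variable. -/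
abbrev KI (I : Type) : Type := Option (I × Fin 4)

/-- The vectors of the values `t` with the scalars `l`. -/
def vec {C : Type} [CommRing C] (t : I → C) (l : KI I → C) : KI I → Fin 3 → C
  | none => ![l none, l none, 0]
  | some (i, 0) => ![l (some (i, 0)) * t i, 0, l (some (i, 0))]
  | some (i, 1) => ![l (some (i, 1)) * t i, l (some (i, 1)), l (some (i, 1))]
  | some (i, 2) => ![l (some (i, 2)) * t i, l (some (i, 2)), 0]
  | some (i, 3) => ![0, -(l (some (i, 3)) * t i), l (some (i, 3))]

/-- the elements of the frame -/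
abbrev fr (a : Fin 4) : Fin 4 ⊕ KI I := Sum.inl a
/-- the auxiliary vector -/
abbrev ww : Fin 4 ⊕ KI I := Sum.inr none
/-- the vectors of a variable -/
abbrev vv (i : I) (a : Fin 4) : Fin 4 ⊕ KI I := Sum.inr (some (i, a))

/-- The triples with determinant zero. -/
inductive ZT : Trip (KI I) → Prop
  | w1 : ZT (fr 0, fr 1, ww)
  | w2 : ZT (fr 2, fr 3, ww)
  | p1 (i : I) : ZT (fr 0, fr 2, vv i 0)
  | q1 (i : I) : ZT (fr 0, fr 3, vv i 1)
  | q2 (i : I) : ZT (fr 1, vv i 0, vv i 1)
  | d1 (i : I) : ZT (fr 0, fr 1, vv i 2)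
  | d2 (i : I) : ZT (fr 2, vv i 1, vv i 2)
  | r1 (i : I) : ZT (fr 1, fr 2, vv i 3)
  | r2 (i : I) : ZT (ww, vv i 0, vv i 3)
  | add (i j k : I) : S.add i j k → ZT (vv i 0, vv j 1, vv k 2)
  | mul (i j k : I) : S.mul i j k → ZT (vv i 0, vv j 3, vv k 2)

/-- The triples with invertible determinant. -/
inductive UT : Trip (KI I) → Prop
  | w : UT (fr 0, fr 2, ww)
  | p (i : I) : UT (fr 0, fr 1, vv i 0)
  | q (i : I) : UT (fr 0, fr 1, vv i 1)
  | d (i : I) : UT (fr 0, fr 2, vv i 2)
  | r (i : I) : UT (fr 0, fr 1, vv i 3)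

variable {C : Type} [CommRing C] (p : KI I → Fin 3 → C) (x y : Fin 4 ⊕ KI I)

lemma dt01 : dt p (fr 0, fr 1, x) = vecs p x 2 := by
  rw [dt_eq]
  simp [vecs, frame]

lemma dt02 : dt p (fr 0, fr 2, x) = -vecs p x 1 := by
  rw [dt_eq]
  simp [vecs, frame]

lemma dt12 : dt p (fr 1, fr 2, x) = vecs p x 0 := by
  rw [dt_eq]
  simp [vecs, frame]

lemma dt03 : dt p (fr 0, fr 3, x) = vecs p x 2 - vecs p x 1 := by
  rw [dt_eq]
  simp [vecs, frame]

lemma dt23 : dt p (fr 2, fr 3, x) = vecs p x 1 - vecs p x 0 := by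
  rw [dt_eq]
  simp [vecs, frame]

lemma dt1 : dt p (fr 1, x, y) = vecs p x 2 * vecs p y 0 - vecs p x 0 * vecs p y 2 := by
  rw [dt_eq]
  simp [vecs, frame]

lemma dt2 : dt p (fr 2, x, y) = vecs p x 0 * vecs p y 1 - vecs p x 1 * vecs p y 0 := by
  rw [dt_eq]
  simp [vecs, frame]

/-- the three points of an addition -/
lemma dt_add (t : I → C) (l : KI I → C) (i j k : I) :
    dt (vec t l) (vv i 0, vv j 1, vv k 2) =
      l (some (i, 0)) * l (some (j, 1)) * l (some (k, 2)) * (t j - (t i + t k)) := by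
  rw [dt_eq]
  simp [vecs, vec]
  ring

/-- the three points of a multiplication -/
lemma dt_mul (t : I → C) (l : KI I → C) (i j k : I) :
    dt (vec t l) (vv i 0, vv j 3, vv k 2) =
      l (some (i, 0)) * l (some (j, 3)) * l (some (k, 2)) * (t j * t k - t i) := by
  rw [dt_eq]
  simp [vecs, vec]
  ring

variable {S}

lemma zt_vec {t : I → C} (ht : (∀ i j k, S.add i j k → t j = t i + t k) ∧
    ∀ i j k, S.mul i j k → t i = t j * t k) (l : KI I → C) {x : Trip (KI I)} (hx : ZT S x) :
    dt (vec t l) x = 0 := by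
  cases hx with
  | w1 => rw [dt01]; simp [vecs, vec]
  | w2 => rw [dt23]; simp [vecs, vec]
  | p1 i => rw [dt02]; simp [vecs, vec]
  | q1 i => rw [dt03]; simp [vecs, vec]
  | q2 i => rw [dt1]; simp [vecs, vec]; ring
  | d1 i => rw [dt01]; simp [vecs, vec]
  | d2 i => rw [dt2]; simp [vecs, vec]; ring
  | r1 i => rw [dt12]; simp [vecs, vec]
  | r2 i => rw [dt_eq]; simp [vecs, vec]; ring
  | add i j k h => rw [dt_add, ht.1 i j k h]; ring
  | mul i j k h => rw [dt_mul, ht.2 i j k h]; ring

lemma ut_vec (t : I → C) (l : KI I → Cˣ) {x : Trip (KI I)} (hx : UT x) :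
    IsUnit (dt (vec t fun k => (l k : C)) x) := by
  cases hx with
  | w => rw [dt02, IsUnit.neg_iff]; simp [vecs, vec]
  | p i => rw [dt01]; simp [vecs, vec]
  | q i => rw [dt01]; simp [vecs, vec]
  | d i => rw [dt02, IsUnit.neg_iff]; simp [vecs, vec]
  | r i => rw [dt01]; simp [vecs, vec]

/-- the invertible coordinate -/
def ci : KI I → Fin 3
  | none => 1
  | some (_, 0) => 2
  | some (_, 1) => 2
  | some (_, 2) => 1
  | some (_, 3) => 2

variable {p}

lemma unit_ci (hp : ∀ x, UT x → IsUnit (dt p x)) (k : KI I) : IsUnit (p k (ci k)) := by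
  rcases k with _ | ⟨i, a⟩
  · have h := hp _ UT.w
    rwa [dt02, IsUnit.neg_iff] at h
  · fin_cases a
    · have h := hp _ (UT.p i)
      rwa [dt01] at h
    · have h := hp _ (UT.q i)
      rwa [dt01] at h
    · have h := hp _ (UT.d i)
      rwa [dt02, IsUnit.neg_iff] at h
    · have h := hp _ (UT.r i)
      rwa [dt01] at h

/-- the values -/
noncomputable def val (hp : ∀ x, UT x → IsUnit (dt p x)) (i : I) : C :=
  ((unit_ci hp (some (i, 0))).unit⁻¹ : Cˣ) * p (some (i, 0)) 0

lemma val_mul (hp : ∀ x, UT x → IsUnit (dt p x)) (i : I) :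
    p (some (i, 0)) 2 * val hp i = p (some (i, 0)) 0 := by
  have h : p (some (i, 0)) 2 = ((unit_ci hp (some (i, 0))).unit : C) := rfl
  rw [val, h, Units.mul_inv_cancel_left]

lemma vec_val (hp : ∀ x, UT x → IsUnit (dt p x)) (hz : ∀ x, ZT S x → dt p x = 0) :
    vec (val hp) (fun k => p k (ci k)) = p := by
  have hP : ∀ i, p (some (i, 0)) 1 = 0 := fun i => by
    have h := hz _ (ZT.p1 i)
    rw [dt02, neg_eq_zero] at h
    exact h
  have hQ1 : ∀ i, p (some (i, 1)) 1 = p (some (i, 1)) 2 := fun i => by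
    have h := hz _ (ZT.q1 i)
    rw [dt03, sub_eq_zero] at h
    exact h.symm
  have hu : ∀ i, IsUnit (p (some (i, 0)) 2) := fun i => unit_ci hp (some (i, 0))
  have hQ0 : ∀ i, p (some (i, 1)) 0 = p (some (i, 1)) 2 * val hp i := fun i => by
    have h := hz _ (ZT.q2 i)
    rw [dt1, sub_eq_zero] at h
    change p (some (i, 0)) 2 * p (some (i, 1)) 0 = p (some (i, 0)) 0 * p (some (i, 1)) 2 at h
    apply (hu i).mul_left_cancel
    rw [h, ← val_mul hp i]
    ring
  have hD2 : ∀ i, p (some (i, 2)) 2 = 0 := fun i => by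
    have h := hz _ (ZT.d1 i)
    rw [dt01] at h
    exact h
  have hD0 : ∀ i, p (some (i, 2)) 0 = p (some (i, 2)) 1 * val hp i := fun i => by
    have h := hz _ (ZT.d2 i)
    rw [dt2, sub_eq_zero] at h
    change p (some (i, 1)) 0 * p (some (i, 2)) 1 = p (some (i, 1)) 1 * p (some (i, 2)) 0 at h
    rw [hQ0, hQ1] at h
    have h2 : IsUnit (p (some (i, 1)) 2) := unit_ci hp (some (i, 1))
    apply h2.mul_left_cancel
    rw [← h]
    ring
  have hR0 : ∀ i, p (some (i, 3)) 0 = 0 := fun i => by
    have h := hz _ (ZT.r1 i)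
    rw [dt12] at h
    exact h
  have hW2 : p none 2 = 0 := by
    have h := hz _ ZT.w1
    rw [dt01] at h
    exact h
  have hW0 : p none 0 = p none 1 := by
    have h := hz _ ZT.w2
    rw [dt23, sub_eq_zero] at h
    exact h.symm
  have hR1 : ∀ i, p (some (i, 3)) 1 = -(p (some (i, 3)) 2 * val hp i) := fun i => by
    have h := hz _ (ZT.r2 i)
    rw [dt_eq] at h
    change p none 0 * (p (some (i, 0)) 1 * p (some (i, 3)) 2 - p (some (i, 0)) 2 *
      p (some (i, 3)) 1) - p none 1 * (p (some (i, 0)) 0 * p (some (i, 3)) 2 -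
      p (some (i, 0)) 2 * p (some (i, 3)) 0) + p none 2 * (p (some (i, 0)) 0 *
      p (some (i, 3)) 1 - p (some (i, 0)) 1 * p (some (i, 3)) 0) = 0 at h
    rw [hP, hR0, hW2, hW0] at h
    have h2 : IsUnit (p none 1) := unit_ci hp none
    apply (h2.mul (hu i)).mul_left_cancel
    have h3 := val_mul hp i
    linear_combination (-1 : C) * h + p none 1 * p (some (i, 3)) 2 * h3
  funext k c
  rcases k with _ | ⟨i, a⟩
  · fin_cases c
    · exact hW0.symm
    · rfl
    · exact hW2.symm
  · fin_cases a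
    · fin_cases c
      · exact val_mul hp i
      · exact (hP i).symm
      · rfl
    · fin_cases c
      · exact (hQ0 i).symm
      · exact (hQ1 i).symm
      · rfl
    · fin_cases c
      · exact (hD0 i).symm
      · rfl
      · exact (hD2 i).symm
    · fin_cases c
      · exact (hR0 i).symm
      · exact (hR1 i).symm
      · rfl

lemma val_sys (hp : ∀ x, UT x → IsUnit (dt p x)) (hz : ∀ x, ZT S x → dt p x = 0) :
    (∀ i j k, S.add i j k → val hp j = val hp i + val hp k) ∧
      ∀ i j k, S.mul i j k → val hp i = val hp j * val hp k := by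
  have h := vec_val hp hz
  constructor
  · intro i j k hs
    have h1 := hz _ (ZT.add i j k hs)
    rw [← h, dt_add] at h1
    have h2 := ((unit_ci hp (some (i, 0))).mul (unit_ci hp (some (j, 1)))).mul
      (unit_ci hp (some (k, 2)))
    exact sub_eq_zero.mp ((h2.mul_right_eq_zero).mp h1)
  · intro i j k hs
    have h1 := hz _ (ZT.mul i j k hs)
    rw [← h, dt_mul] at h1
    have h2 := ((unit_ci hp (some (i, 0))).mul (unit_ci hp (some (j, 3)))).mul
      (unit_ci hp (some (k, 2)))
    exact (sub_eq_zero.mp ((h2.mul_right_eq_zero).mp h1)).symm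

lemma val_vec (t : I → C) (l : KI I → Cˣ)
    (hp : ∀ x, UT x → IsUnit (dt (vec t fun k => (l k : C)) x)) (i : I) : val hp i = t i := by
  have h := val_mul hp i
  change (l (some (i, 0)) : C) * val hp i = l (some (i, 0)) * t i at h
  exact (l (some (i, 0))).isUnit.mul_left_cancel h

lemma vec_ci (t : I → C) (l : KI I → C) (k : KI I) : vec t l k (ci k) = l k := by
  rcases k with _ | ⟨i, a⟩
  · rfl
  · fin_cases a <;> rfl

lemma vec_nat {D : Type} [CommRing D] (f : C →+* D) (t : I → C) (l : KI I → C) (k : KI I)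
    (c : Fin 3) : vec (fun i => f (t i)) (fun k => f (l k)) k c = f (vec t l k c) := by
  rcases k with _ | ⟨i, a⟩
  · fin_cases c <;> simp [vec]
  · fin_cases a <;> fin_cases c <;> simp [vec]

variable (S)

/-- **Systems as configurations.** -/
noncomputable def sysConf :
    PIso ((SysF S).tor (KI I)) (Conf (KI I) {x | ZT S x} {x | UT x}) where
  fwd q := ⟨vec q.1.1 fun k => (q.2 k : _), fun _ hx => zt_vec q.1.2 _ hx,
    fun _ hx => ut_vec q.1.1 q.2 hx⟩
  bwd p := (⟨val p.2.2, val_sys p.2.2 p.2.1⟩, fun k => (unit_ci p.2.2 k).unit)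
  left q := by
    apply Prod.ext
    · apply Subtype.ext
      funext i
      exact val_vec q.1.1 q.2 (fun _ hx => ut_vec q.1.1 q.2 hx) i
    · funext k
      apply Units.ext
      exact vec_ci q.1.1 (fun k => (q.2 k : _)) k
  right p := Subtype.ext (vec_val p.2.2 p.2.1)
  nat f q := Subtype.ext (funext fun k => funext fun c =>
    vec_nat f q.1.1 (fun k => (q.2 k : _)) k c)

variable {S}

/-- If `P` is true for all configurations then it is true for all systems. -/
theorem holds_Sys [Finite I] (hP : Clo sep P)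
    (h : ∀ Z U : Set (Trip (KI I)), Holds P (Conf (KI I) Z U)) : Holds P (SysF S) :=
  of_tor' hP (hasRep_Sys S) ((h _ _).congr (sysConf S).symm)

end

end Pool.Agent.Helper13.RM
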