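import Pool.Agent.Helper13.RM.Simple
import Pool.Agent.Helper13.RM.CDefs

/-!
# Simple matroids of rank three are universal
-/

set_option autoImplicit false

open CategoryTheory AlgebraicGeometry Pool.Agent.Y116.UV Pool.Agent.Q282.UK Pool.Agent.Helper3.GU

namespace Pool.Agent.Helper13.RM

section field

variable {K : Type} [Field K] {κ : Type}

lemma frame_ne (p : κ → Fin 3 → K) (a : Fin 4) : vecs p (Sum.inl a) ≠ 0 := by
  intro h
  have h0 := congrFun h 0
  have h1 := congrFun h 1
  have h2 := congrFun h 2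
  fin_cases a <;> simp [vecs, frame] at h0 h1 h2

lemma frame_indep (p : κ → Fin 3 → K) {a b : Fin 4} (hab : a ≠ b) (l : K)
    (h : vecs p (Sum.inl b) = fun d => l * vecs p (Sum.inl a) d) : False := by
  have h0 : vecs p (Sum.inl b) 0 = l * vecs p (Sum.inl a) 0 := congrFun h 0
  have h1 : vecs p (Sum.inl b) 1 = l * vecs p (Sum.inl a) 1 := congrFun h 1
  have h2 : vecs p (Sum.inl b) 2 = l * vecs p (Sum.inl a) 2 := congrFun h 2
  clear h
  fin_cases a <;> fin_cases b <;> simp [vecs, frame] at hab h0 h1 h2 <;> simp_all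
  · exact one_ne_zero (h0.trans h2.symm)
  · exact one_ne_zero (h1.trans h2.symm)
  · exact one_ne_zero (h2.trans h1.symm)

/-- If two vectors are dependent then one of the vectors `p k` is zero or a multiple of another vector. -/
lemma dep_cases (p : κ → Fin 3 → K) {e f : Fin 4 ⊕ κ} (hef : e ≠ f)
    (h : ¬ LinearIndepOn K (vecs p) {e, f}) :
    ∃ k : κ, p k = 0 ∨ ∃ e' : Fin 4 ⊕ κ, e' ≠ Sum.inr k ∧ vecs p e' ≠ 0 ∧
      ∃ l : K, l ≠ 0 ∧ p k = fun d => l * vecs p e' d := by
  by_cases he : vecs p e = 0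
  · rcases e with a | k
    · exact absurd he (frame_ne p a)
    · exact ⟨k, Or.inl he⟩
  by_cases hf : vecs p f = 0
  · rcases f with a | k
    · exact absurd hf (frame_ne p a)
    · exact ⟨k, Or.inl hf⟩
  rw [linearIndepOn_pair_iff (vecs p) hef he] at h
  push Not at h
  obtain ⟨l, hl⟩ := h
  have hl0 : l ≠ 0 := by
    rintro rfl
    rw [zero_smul] at hl
    exact hf hl.symm
  have hl1 : vecs p f = fun d => l * vecs p e d := hl.symm
  have hl2 : vecs p e = fun d => l⁻¹ * vecs p f d := by
    funext d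
    rw [hl1]
    change _ = l⁻¹ * (l * vecs p e d)
    rw [inv_mul_cancel_left₀ hl0]
  rcases f with b | k
  · rcases e with a | k
    · exact (frame_indep p (fun h => hef (congrArg Sum.inl h)) l hl1).elim
    · exact ⟨k, Or.inr ⟨Sum.inl b, hef.symm, hf, l⁻¹, inv_ne_zero hl0, hl2⟩⟩
  · exact ⟨k, Or.inr ⟨e, hef, he, l, hl0, hl1⟩⟩

lemma exists_coord {w : Fin 3 → K} (h : w ≠ 0) : ∃ c, w c ≠ 0 := by
  by_contra h1
  push Not at h1
  exact h (funext h1)

end field

section

variable {R : Type} [CommRing R] {sep : Prop} {P : Sch R → Prop}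

/-- A functor whose points exist only over zero rings. -/
lemma holds_none (hP : Clo sep P) {κ : Type} {G : PF} (hG : Holds P G) (T : Set (Trip κ))
    (he : ∀ (C : Type) [CommRing C], Nonempty ((Conf κ Tᶜ T).pts C) → Subsingleton C) :
    Holds P (Conf κ Tᶜ T) := by
  refine holds_empty hP hG (fun C _ => ⟨he C, fun hC => ⟨fun _ _ => 0, fun _ _ =>
    Subsingleton.elim _ _, fun s _ => ?_⟩⟩) fun C _ => ⟨fun p q => ?_⟩
  · rw [Subsingleton.elim (dt _ s) 1]
    exact isUnit_one
  · have := he C ⟨p⟩
    apply Subtype.ext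
    funext k c
    exact Subsingleton.elim _ _

/-- A stratum with a point over a nonzero ring is the stratum of a point over a field. -/
lemma field_point {κ : Type} (T : Set (Trip κ))
    (h : ¬ ∀ (C : Type) [CommRing C], Nonempty ((Conf κ Tᶜ T).pts C) → Subsingleton C) :
    ∃ (K : Type) (_ : Field K) (q : κ → Fin 3 → K), ∀ t, t ∈ T ↔ dt q t ≠ 0 := by
  push Not at h
  obtain ⟨C, iC, ⟨p⟩, hC⟩ := h
  obtain ⟨m, hm⟩ := Ideal.exists_maximal C
  let _ : Field (C ⧸ m) := Ideal.Quotient.field m
  let q : κ → Fin 3 → C ⧸ m := fun k c => Ideal.Quotient.mk m (p.1 k c)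
  have hq : ∀ t, dt q t = Ideal.Quotient.mk m (dt p.1 t) := dt_map _ _
  refine ⟨C ⧸ m, inferInstance, q, fun t => ?_⟩
  rw [hq]
  constructor
  · intro ht
    exact ((p.2.2 t ht).map (Ideal.Quotient.mk m)).ne_zero
  · intro h1
    by_contra ht
    rw [p.2.1 t ht, map_zero] at h1
    exact h1 rfl

lemma rt_iff {K : Type} [Field K] {κ : Type} (k : κ) (q : κ → Fin 3 → K) (e : Fin 4 ⊕ Oth k)
    {l : K} (hl : l ≠ 0) (h : q k = fun d => l * vecs q (up k e) d) (t : Trip κ) :
    dt q t ≠ 0 ↔ dt (fun j : Oth k => q j.1) (rt k e t) ≠ 0 := by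
  have h1 : q = exv k (fun d => l * vecs (fun j : Oth k => q j.1) e d) (fun j => q j.1) := by
    rw [vecs_res, ← h]
    exact (exv_eta k q).symm
  have h2 : dt q t = sc k l t.1 * sc k l t.2.1 * sc k l t.2.2 *
      dt (fun j : Oth k => q j.1) (rt k e t) := by
    conv_lhs => rw [h1]
    exact dt_par k e l _ t
  have h3 : ∀ x, sc k l x ≠ 0 := fun x => (isUnit_sc k (isUnit_iff_ne_zero.2 hl) x).ne_zero
  rw [h2]
  constructor
  · exact fun h4 h5 => h4 (by rw [h5, mul_zero])
  · exact fun h4 => mul_ne_zero (mul_ne_zero (mul_ne_zero (h3 _) (h3 _)) (h3 _)) h4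

lemma holds_simple_matroid (h : ∀ (n : ℕ) (M : Matroid (Fin 4 ⊕ Fin n)), Framed M → IsSimple M →
    P (realS R M)) {κ : Type} [Finite κ] {K : Type} [Field K] (q : κ → Fin 3 → K) (T : Set (Trip κ))
    (hT : ∀ t, t ∈ T ↔ dt q t ≠ 0)
    (hs : ∀ e f : Fin 4 ⊕ κ, e ≠ f → LinearIndepOn K (vecs q) {e, f}) : Holds P (Conf κ Tᶜ T) := by
  obtain ⟨n, ⟨e⟩⟩ := Finite.exists_equiv_fin κ
  let r : Fin n → Fin 3 → K := fun j => q (e.symm j)
  have hr : ∀ x, vecs r x = vecs q (Sum.map id e.symm x) := fun x => vecs_comp e.symm q x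
  have hr2 : ∀ t, dt r t = dt q (tm e.symm t) := fun t => dt_comp e.symm q t
  have hM : IsSimple (matM (vecs r)) := by
    intro x y hxy
    rw [matM_indep, LinearIndepOn.pair_iff _ hxy]
    have h1 : (Sum.map id e.symm x : Fin 4 ⊕ κ) ≠ Sum.map id e.symm y := by
      intro h2
      exact hxy ((Sum.map_injective.2 ⟨Function.injective_id, e.symm.injective⟩) h2)
    have h2 := hs _ _ h1
    rw [LinearIndepOn.pair_iff _ h1] at h2
    rw [hr, hr]
    exact h2
  have h3 := holds_of_confS (h n (matM (vecs r)) (framed_matM r) hM)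
  have h4 : {t : Trip (Fin n) | (matM (vecs r)).IsBase (elts t)} = tm e.symm ⁻¹' T := by
    ext t
    rw [Set.mem_ofPred_eq, base_iff, hr2, Set.mem_preimage, hT]
  rw [h4] at h3
  exact h3.congr (confRename e.symm Tᶜ T)

/-- **Reduction to simple matroids.** -/
theorem holds_of_simple (hP : Mot sep P)
    (h : ∀ (n : ℕ) (M : Matroid (Fin 4 ⊕ Fin n)), Framed M → IsSimple M → P (realS R M)) :
    ∀ (m : ℕ) (κ : Type) [Finite κ], Nat.card κ = m → ∀ T : Set (Trip κ),
      Holds P (Conf κ Tᶜ T) := by
  have hC : Clo sep P := ⟨hP.iso, hP.total, hP.opened, hP.torus⟩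
  have hG : Holds P (PT.aff (Fin 0)) :=
    ⟨_, inferInstance, inferInstance, inferInstance, _, rep_PT.aff (Fin 0), hP.space 0⟩
  intro m
  induction m using Nat.strong_induction_on with
  | _ m ih =>
    intro κ _ hm T
    by_cases he : ∀ (C : Type) [CommRing C], Nonempty ((Conf κ Tᶜ T).pts C) → Subsingleton C
    · exact holds_none hC hG T he
    · obtain ⟨K, iK, q, hT⟩ := field_point T he
      by_cases hs : ∀ e f : Fin 4 ⊕ κ, e ≠ f → LinearIndepOn K (vecs q) {e, f}
      · exact holds_simple_matroid h q T hT hs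
      · push Not at hs
        obtain ⟨e, f, hef, hdep⟩ := hs
        obtain ⟨k, hk⟩ := dep_cases q hef hdep
        have hlt : Nat.card (Oth k) < m := by
          rw [← hm]
          exact Finite.card_subtype_lt (x := k) (fun h => h rfl)
        let T' : Set (Trip (Oth k)) := tm Subtype.val ⁻¹' T
        have hT' : ∀ t, t ∈ T' ↔ dt (fun j : Oth k => q j.1) t ≠ 0 := by
          intro t
          change tm Subtype.val t ∈ T ↔ _
          rw [hT, ← dt_comp]
        have h1 : Holds P (Conf (Oth k) T'ᶜ T') := ih _ hlt (Oth k) rfl T'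
        rcases hk with hk | ⟨e', he', hv, l, hl, hk⟩
        · refine h1.congr (loopIso k ?_ fun t => Iff.rfl)
          rintro ⟨a, b, c⟩ ht hmem
          have h0 : ∀ d, vecs q (Sum.inr k) d = 0 := fun d => congrFun hk d
          rw [hT, dt_eq] at hmem
          apply hmem
          rcases ht with rfl | rfl | rfl <;> simp [h0]
        · obtain ⟨e, rfl⟩ : ∃ e, e' = up k e := by
            rcases cases_up k e' with h2 | h2
            · exact absurd h2 he'
            · exact h2
          obtain ⟨c, hc⟩ := exists_coord hv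
          refine (h1.tor hP PUnit).congr (parIso k e c (fun t => ?_) (fun a => ?_) ?_)
          · rw [hT, hT']
            exact rt_iff k q e hl hk t
          · rw [hT', not_not, dt_eq]
            ring
          · rw [hT', ← isUnit_iff_ne_zero, unit_tc, vecs_res]
            exact isUnit_iff_ne_zero.2 hc

/-- **Simple matroids of rank three are universal.** Let `R` be a ring such that all algebras of finite type
have presentations with coefficients `0` and `1` (for example `ℤ`, `ℚ`, `𝔽_p`), and let `P` be a property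
of the schemes of finite type over `R` with the closure properties `Mot`. If `P` is true for the
realization spaces of all simple matroids of rank three (with a projective frame), then it is true for
all (separated) schemes of finite type over `R`. -/
theorem simple_universal (hP : Mot sep P) (hR : Presents ({0, 1} : Set R))
    (h : ∀ (n : ℕ) (M : Matroid (Fin 4 ⊕ Fin n)), Framed M → IsSimple M → P (realS R M)) (X : Sch R)
    (hX : FT sep X) : P X := by
  have hC : Clo sep P := ⟨hP.iso, hP.total, hP.opened, hP.torus⟩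
  refine matroid_universal hC hR (fun n M _ => ?_) X hX
  exact confS_of_holds hC (holds_of_simple hP h _ (Fin n) rfl _)

/-- The equivalence. -/
theorem simple_iff (hP : Mot sep P) (hR : Presents ({0, 1} : Set R)) :
    (∀ X : Sch R, FT sep X → P X) ↔
      ∀ (n : ℕ) (M : Matroid (Fin 4 ⊕ Fin n)), Framed M → IsSimple M → P (realS R M) :=
  ⟨fun h _ M _ _ => h _ (ft_realS M), fun h X hX => simple_universal hP hR h X hX⟩

end

end Pool.Agent.Helper13.RM
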